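import Pool.Agent.AML.C.Defs

/-! # Block X (modular side): binary quadratic forms, the map `pt`, the link. Definitions.

A form `Q = (Q11, Q12, Q22) : ℝ × ℝ × ℝ` is the symmetric matrix `[[Q11, Q12], [Q12, Q22]]`; positive definite forms up to
positive scaling are the points of the hyperbolic plane. `pt Q f` is the unit tangent vector at the point `Q` pointing to the
boundary point `f`. -/

set_option linter.style.longLine false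

open Matrix Topology Set
open scoped MatrixGroups

namespace Pool.AML

noncomputable section

abbrev Fm : Type := ℝ × ℝ × ℝ

/-- positive definite forms. -/
def PosF : Set Fm := {Q | 0 < Q.1 ∧ 0 < Q.1 * Q.2.2 - Q.2.1 ^ 2}

/-- determinant. -/
def dtF (Q : Fm) : ℝ := Q.1 * Q.2.2 - Q.2.1 ^ 2

/-- `Q ↦ g Q gᵀ`. -/
def fa (g : SL(2, ℝ)) (Q : Fm) : Fm :=
  (g.1 0 0 ^ 2 * Q.1 + 2 * g.1 0 0 * g.1 0 1 * Q.2.1 + g.1 0 1 ^ 2 * Q.2.2,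
   g.1 0 0 * g.1 1 0 * Q.1 + (g.1 0 0 * g.1 1 1 + g.1 0 1 * g.1 1 0) * Q.2.1 + g.1 0 1 * g.1 1 1 * Q.2.2,
   g.1 1 0 ^ 2 * Q.1 + 2 * g.1 1 0 * g.1 1 1 * Q.2.1 + g.1 1 1 ^ 2 * Q.2.2)

/-- the form `v vᵀ`. -/
def nf (v : ℝ × ℝ) : Fm := (v.1 ^ 2, v.1 * v.2, v.2 ^ 2)

/-- the form `g gᵀ`. -/
def gram (g : SL(2, ℝ)) : Fm :=
  (g.1 0 0 ^ 2 + g.1 0 1 ^ 2, g.1 0 0 * g.1 1 0 + g.1 0 1 * g.1 1 1, g.1 1 0 ^ 2 + g.1 1 1 ^ 2)

/-- `vᵀ Q₁⁻¹ v`, `Q₁ = Q / √(det Q)`. -/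
def qf (Q : Fm) (v : ℝ × ℝ) : ℝ :=
  (Q.2.2 * v.1 ^ 2 - 2 * Q.2.1 * v.1 * v.2 + Q.1 * v.2 ^ 2) / Real.sqrt (dtF Q)

/-- the matrix `g` of determinant one with `g gᵀ = Q / √(det Q)` and first column a positive multiple of `v`. -/
def secM (Q : Fm) (v : ℝ × ℝ) : Matrix (Fin 2) (Fin 2) ℝ :=
  !![v.1 / Real.sqrt (qf Q v), (Q.2.1 * v.1 - Q.1 * v.2) / (Real.sqrt (dtF Q) * Real.sqrt (qf Q v));
     v.2 / Real.sqrt (qf Q v), (Q.2.2 * v.1 - Q.2.1 * v.2) / (Real.sqrt (dtF Q) * Real.sqrt (qf Q v))]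

open Classical in
def secF (Q : Fm) (v : ℝ × ℝ) : SL(2, ℝ) := if h : (secM Q v).det = 1 then ⟨secM Q v, h⟩ else 1

/-- the class of `g` in `SL(2,ℤ) \ SL(2,ℝ)`. -/
def cl (g : SL(2, ℝ)) : T1M := Quotient.mk _ g

/-- the unit tangent vector at `Q` pointing to `f`. -/
def pt (Q : Fm) (f : OnePoint ℝ) : T1M := cl (secF Q (rep f))

/-- entries of an integral matrix. -/
def tup (A : SL(2, ℤ)) : ℤ × ℤ × ℤ × ℤ := (A.1 0 0, A.1 0 1, A.1 1 0, A.1 1 1)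

/-- the linear form vanishing on the axis of the matrix `m = (a, b; c, d)`. -/
def Lb (m : ℤ × ℤ × ℤ × ℤ) (Q : Fm) : ℝ :=
  (m.2.2.1 : ℝ) * Q.1 - ((m.1 : ℝ) - m.2.2.2) * Q.2.1 - (m.2.1 : ℝ) * Q.2.2

/-- the repelling fixed point of `(a, b; c, d)`. -/
def rept (m : ℤ × ℤ × ℤ × ℤ) : ℝ :=
  ((m.1 : ℝ) - m.2.2.2 - Real.sqrt (((m.1 : ℝ) + m.2.2.2) ^ 2 - 4)) / (2 * m.2.2.1)

/-- the four words `LLR`, `LRR`, `LLLLRR`, `LLRRRR` with `L = (1,0;1,1)`, `R = (1,1;0,1)`. -/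
def A1 : SL(2, ℤ) := ⟨!![1, 1; 2, 3], by simp [Matrix.det_fin_two]⟩
def A2 : SL(2, ℤ) := ⟨!![1, 2; 1, 3], by simp [Matrix.det_fin_two]⟩
def A3 : SL(2, ℤ) := ⟨!![1, 2; 4, 9], by simp [Matrix.det_fin_two]⟩
def A4 : SL(2, ℤ) := ⟨!![1, 4; 2, 9], by simp [Matrix.det_fin_two]⟩

def S4 : Finset SL(2, ℤ) := {A1, A2, A3, A4}

/-- conjugation invariant property of the elements of `S4`. -/
def Good (m : ℤ × ℤ × ℤ × ℤ) : Prop :=
  m.1 * m.2.2.2 - m.2.1 * m.2.2.1 = 1 ∧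
    (m.1 + m.2.2.2 = 4 ∨ (m.1 + m.2.2.2 = 10 ∧ 2 ∣ m.2.1 ∧ 2 ∣ m.2.2.1))

/-- closed Farey triangle `(0, 1, ∞)`: forms `β∞ N∞ + β0 N0 + β1 N1` with `β ≥ 0`. -/
def Tri : Set Fm := {Q | 0 ≤ Q.2.1 ∧ Q.2.1 ≤ Q.1 ∧ Q.2.1 ≤ Q.2.2}

/-- height of the crossing of the line of level `k` with the edge `(0, ∞)`. -/
def ht (k : Fin 54) : ℝ := Real.sqrt (-(lev k * rept (levMat k)))

/-- barycentric data (`∞, 0, 1` coordinates) of the centre at the level `k`: sum of the crossing forms with the edges. -/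
def wl (k : Fin 54) : ℝ × ℝ × ℝ :=
  ((if cr k then ht k else 0) + (match tinv k with | some j => ht j | none => 0),
   (if cr k then (ht k)⁻¹ else 0) + (if cr (k + 36) then ht (k + 36) else 0),
   (match tinv k with | some j => (ht j)⁻¹ | none => 0) + (if cr (k + 36) then (ht (k + 36))⁻¹ else 0))

end

end Pool.AML
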