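import Pool.Agent.AML.X.TW

/-! # Block X: flag cones at a fixed level `f` (definitions). Types: `0 = N∞`, `1 = T` (edge centre), `2 = w` (triangle centre). -/

set_option linter.style.longLine false

open Matrix Topology Set
open scoped MatrixGroups

namespace Pool.AML

noncomputable section

/-- `T = (1,1;0,1)`. -/
def Tz : SL(2, ℤ) := ⟨!![1, 1; 0, 1], by simp [Matrix.det_fin_two]⟩

/-- `ρ = (1,-1;1,0)`. -/
def Rz : SL(2, ℤ) := ⟨!![1, -1; 1, 0], by simp [Matrix.det_fin_two]⟩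

/-- coordinates of `Q` with respect to `N∞, T0v f, wF f` (left, `s = true`) or `N∞, T1v f, wF f` (right). -/
def crd (s : Bool) (f : OnePoint ℝ) (Q : Fm) : Fin 3 → ℝ :=
  if s then
    ![(Q.1 - Q.2.1) - tau f * (tau f * ((Q.2.2 - Q.2.1) - (wv f).2.1 * (Q.2.1 / (wv f).2.2))) - (wv f).1 * (Q.2.1 / (wv f).2.2),
      tau f * ((Q.2.2 - Q.2.1) - (wv f).2.1 * (Q.2.1 / (wv f).2.2)),
      Q.2.1 / (wv f).2.2]
  else
    ![(Q.1 - Q.2.1) - tau (TTi f) * (tau (TTi f) * (Q.2.1 - (wv f).2.2 * ((Q.2.2 - Q.2.1) / (wv f).2.1))) -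
        (wv f).1 * ((Q.2.2 - Q.2.1) / (wv f).2.1),
      tau (TTi f) * (Q.2.1 - (wv f).2.2 * ((Q.2.2 - Q.2.1) / (wv f).2.1)),
      (Q.2.2 - Q.2.1) / (wv f).2.1]

/-- coordinates of `Q` at the level `f` in the flag `(γ, s)`. -/
def crg (f : OnePoint ℝ) (p : SL(2, ℤ) × Bool) (Q : Fm) : Fin 3 → ℝ :=
  crd p.2 (mob (iR p.1⁻¹) f) (fa (iR p.1⁻¹) Q)

/-- neighbouring flags. -/
def nbX (p : SL(2, ℤ) × Bool) (a : Fin 3) : SL(2, ℤ) × Bool :=
  match a with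
  | 0 => if p.2 then (p.1 * Rz⁻¹, false) else (p.1 * Rz, true)
  | 1 => (p.1, !p.2)
  | 2 => if p.2 then (p.1 * Tz⁻¹, false) else (p.1 * Tz, true)

/-- steps between flags containing `Q` at the level `f`. -/
def XStep (f : OnePoint ℝ) (Q : Fm) (p q : SL(2, ℤ) × Bool) : Prop :=
  q = (-p.1, p.2) ∨ ∃ a : Fin 3, crg f p Q a = 0 ∧ q = nbX p a

/-- the point of `ℝ × circle × [0,∞)` with flag coordinates `μ`. -/
def vpt (s : Bool) (f : OnePoint ℝ) (μ : Fin 3 → ℝ) : ℝ × OnePoint ℝ × ℝ :=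
  (if s then μ 2 / (2 * (μ 1 + μ 2)) else 1 - μ 2 / (2 * (μ 1 + μ 2)), f, μ 0 / (μ 1 + μ 2))

end

end Pool.AML
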