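import Pool.Agent.AML.X.X1c
import Pool.Agent.AML.F.F2

/-! [AML-X6a] The conjugates of the four matrices which cross the Farey triangle are exactly the 54 matrices `levMat k`.

`good_conj`: the trace and the property `B ≡ 1 mod 2` (for trace 10: `a, d` odd because `a d = 1 + b c` with `b, c` even) are conjugation
invariant: if `A = 1 + 2 M` or in coordinates: entries `b', c'` of `γ A γ⁻¹` are even combinations; direct computation with
`a - d` even. `good_cross0`: if `Good m` and `0 < b c` then `m = levMat k` with `cr k`: `a d = 1 + b c > 0`, `a + d = t ∈ {4, 10}` so `1 ≤ a ≤ t - 1`, `|b|, |c| ≤ b c =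
a (t - a) - 1 ≤ 24`: finite check (`decide` on bounded ranges or `interval_cases a`, divisors).
`good_lev`: let `Q = β∞ N∞ + β0 N0 + β1 N1`, `β1 = Q12`, `β∞ = Q11 - Q12`, `β0 = Q22 - Q12`, all `≥ 0`, at least two positive (`Q ∈ PosF`). `Lb m Q =
c β∞ - b β0 + (c + d - a - b) β1`. None of the integers `c, -b, e := c + d - a - b` is zero (if `c = 0` or `b = 0` then `a d = 1`; if `e = 0` then `(1,1)` is an eigenvector; e.g.
multiply out: trace `±2`), so two of them have opposite signs: `b c > 0`: `good_cross0`. `c e < 0`: apply it to the `T⁻¹`-conjugate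
`(a - c, a + b - c - d, c, c + d)`, whose off diagonal entries are `c` and `-e`; result `levMat k'` with `cr k'`, and `levMat (tt k')` is its `T`-conjugate (decide).
`-b e < 0`, i.e. `b e > 0`: apply it to the `ρ`-conjugate (`ρ = (1,-1;1,0)`), and `levMat (k + 18)` is the `ρ⁻¹`-conjugate of `levMat k` (decide).
`lev_conj`: table of `(A, γ)` for `k = 0, …, 53` (index of `A` in `0..3`, then `γ00 γ01 γ10 γ11`):
[(2, 1, 0, 1, 1), (2, 1, 0, 0, 1), (0, 1, 0, 1, 1), (2, 1, 0, -1, 1), (3, 1, 0, 1, 1), (0, 1, 0, 0, 1), (2, 1, 0, -2,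
1), (1, 1, 0, 1, 1), (3, 1, 0, 0, 1), (2, 1, 1, 1, 2), (0, 1, 0, -1, 1), (3, 1, 1, 1, 2), (1, 1, 1, 1, 2), (2, 1, 2, 1,
3), (3, 1, 2, 1, 3), (1, 1, 0, 0, 1), (3, 1, 3, 1, 4), (3, 1, 0, -1, 1), (2, 1, 1, 0, 1), (2, 0, -1, 1, -1), (0, 1, 1,
0, 1), (2, 1, -1, 2, -1), (3, 1, 1, 0, 1), (0, 0, -1, 1, -1), (2, 2, 5, 1, 3), (1, 1, 1, 0, 1), (3, 0, -1, 1, -1), (2,
1, 2, 0, 1), (0, 1, 2, 0, 1), (3, 1, 2, 0, 1), (1, 1, 0, -1, 1), (2, 1, 3, 0, 1), (3, 1, 3, 0, 1), (1, 0, -1, 1, -1),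
(3, 1, 0, -2, 1), (3, 1, -1, 2, -1), (2, 0, -1, 1, 0), (2, 1, -1, 1, 0), (0, 0, -1, 1, 0), (2, 2, -1, 1, 0), (3, 0, -1,
1, 0), (0, 1, -1, 1, 0), (2, 1, 3, -1, -2), (1, 0, -1, 1, 0), (3, 1, -1, 1, 0), (2, 0, -1, 1, 1), (0, 0, -1, 1, 1), (3,
0, -1, 1, 1), (1, 0, -1, 1, 1), (2, 0, -1, 1, 2), (3, 0, -1, 1, 2), (1, 1, -1, 1, 0), (3, 0, -1, 1, 3), (3, 2, -1, 1,
0)]. -/

set_option linter.style.longLine false

open Matrix Topology Set
open scoped MatrixGroups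

namespace Pool.AML

private theorem x6a_tup (A γ : SL(2, ℤ)) :
    tup (γ * A * γ⁻¹) =
      ((γ.1 0 0 * A.1 0 0 + γ.1 0 1 * A.1 1 0) * γ.1 1 1 - (γ.1 0 0 * A.1 0 1 + γ.1 0 1 * A.1 1 1) * γ.1 1 0,
       -(γ.1 0 0 * A.1 0 0 + γ.1 0 1 * A.1 1 0) * γ.1 0 1 + (γ.1 0 0 * A.1 0 1 + γ.1 0 1 * A.1 1 1) * γ.1 0 0,
       (γ.1 1 0 * A.1 0 0 + γ.1 1 1 * A.1 1 0) * γ.1 1 1 - (γ.1 1 0 * A.1 0 1 + γ.1 1 1 * A.1 1 1) * γ.1 1 0,
       -(γ.1 1 0 * A.1 0 0 + γ.1 1 1 * A.1 1 0) * γ.1 0 1 + (γ.1 1 0 * A.1 0 1 + γ.1 1 1 * A.1 1 1) * γ.1 0 0) := by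
  have e : (γ * A * γ⁻¹).1 = γ.1 * A.1 * γ.1.adjugate := rfl
  unfold tup
  rw [e, Matrix.adjugate_fin_two]
  simp only [Matrix.mul_apply, Fin.sum_univ_two, Matrix.of_apply, Matrix.cons_val', Matrix.cons_val_zero,
    Matrix.cons_val_one, Matrix.cons_val_fin_one]
  refine Prod.ext ?_ (Prod.ext ?_ (Prod.ext ?_ ?_)) <;> simp only [] <;> ring

private theorem x6a_det (γ : SL(2, ℤ)) : γ.1 0 0 * γ.1 1 1 - γ.1 0 1 * γ.1 1 0 = 1 := by
  have := γ.2
  rw [Matrix.det_fin_two] at this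
  exact this

theorem S4_trace (A : SL(2, ℤ)) (hA : A ∈ S4) : 2 < A.1 0 0 + A.1 1 1 := by
  simp only [S4, Finset.mem_insert, Finset.mem_singleton] at hA
  rcases hA with rfl | rfl | rfl | rfl
  · simp [A1]
  · simp [A2]
  · simp [A3]
  · simp [A4]

private theorem x6a_good (A γ : SL(2, ℤ)) (a b c d : ℤ) (h00 : A.1 0 0 = a) (h01 : A.1 0 1 = b)
    (h10 : A.1 1 0 = c) (h11 : A.1 1 1 = d)
    (h : a + d = 4 ∨ (a + d = 10 ∧ 2 ∣ b ∧ 2 ∣ c)) : Good (tup (γ * A * γ⁻¹)) := by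
  have hg := x6a_det γ
  have hA := x6a_det A
  rw [h00, h01, h10, h11] at hA
  rw [x6a_tup, h00, h01, h10, h11]
  set p := γ.1 0 0
  set q := γ.1 0 1
  set r := γ.1 1 0
  set s := γ.1 1 1
  refine ⟨?_, ?_⟩
  · show ((p * a + q * c) * s - (p * b + q * d) * r) * (-(r * a + s * c) * q + (r * b + s * d) * p) -
      (-(p * a + q * c) * q + (p * b + q * d) * p) * ((r * a + s * c) * s - (r * b + s * d) * r) = 1
    have e : ((p * a + q * c) * s - (p * b + q * d) * r) * (-(r * a + s * c) * q + (r * b + s * d) * p) -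
      (-(p * a + q * c) * q + (p * b + q * d) * p) * ((r * a + s * c) * s - (r * b + s * d) * r) =
      (p * s - q * r) ^ 2 * (a * d - b * c) := by ring
    rw [e, hg, hA]
    norm_num
  · have ht : ((p * a + q * c) * s - (p * b + q * d) * r) + (-(r * a + s * c) * q + (r * b + s * d) * p) = a + d := by
      have e : ((p * a + q * c) * s - (p * b + q * d) * r) + (-(r * a + s * c) * q + (r * b + s * d) * p) =
        (p * s - q * r) * (a + d) := by ring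
      rw [e, hg, one_mul]
    show ((p * a + q * c) * s - (p * b + q * d) * r) + (-(r * a + s * c) * q + (r * b + s * d) * p) = 4 ∨
      (((p * a + q * c) * s - (p * b + q * d) * r) + (-(r * a + s * c) * q + (r * b + s * d) * p) = 10 ∧
        2 ∣ (-(p * a + q * c) * q + (p * b + q * d) * p) ∧ 2 ∣ ((r * a + s * c) * s - (r * b + s * d) * r))
    rw [ht]
    rcases h with h | ⟨h1, ⟨b', hb⟩, ⟨c', hc⟩⟩
    · exact Or.inl h
    · right
      have hd : d = 10 - a := by omega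
      refine ⟨h1, ⟨p * q * (5 - a) + p ^ 2 * b' - q ^ 2 * c', ?_⟩, ⟨-(r * s * (5 - a)) + s ^ 2 * c' - r ^ 2 * b', ?_⟩⟩
      · rw [hb, hc, hd]; ring
      · rw [hb, hc, hd]; ring

theorem good_conj (A : SL(2, ℤ)) (hA : A ∈ S4) (γ : SL(2, ℤ)) : Good (tup (γ * A * γ⁻¹)) := by
  simp only [S4, Finset.mem_insert, Finset.mem_singleton] at hA
  rcases hA with rfl | rfl | rfl | rfl
  · exact x6a_good A1 γ 1 1 2 3 rfl rfl rfl rfl (Or.inl (by norm_num))
  · exact x6a_good A2 γ 1 2 1 3 rfl rfl rfl rfl (Or.inl (by norm_num))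
  · exact x6a_good A3 γ 1 2 4 9 rfl rfl rfl rfl (Or.inr (by norm_num))
  · exact x6a_good A4 γ 1 4 2 9 rfl rfl rfl rfl (Or.inr (by norm_num))

private theorem x6a_fin : ∀ (t : Fin 2) (i : Fin 9) (x y : Fin 49),
    ((i.1 : ℤ) + 1) * ((if t = 0 then 4 else 10) - ((i.1 : ℤ) + 1)) - ((x.1 : ℤ) - 24) * ((y.1 : ℤ) - 24) = 1 →
    0 < ((x.1 : ℤ) - 24) * ((y.1 : ℤ) - 24) →
    (t = 0 ∨ (2 ∣ ((x.1 : ℤ) - 24) ∧ 2 ∣ ((y.1 : ℤ) - 24))) →
    ∃ k : Fin 54, cr k = true ∧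
      (((i.1 : ℤ) + 1), ((x.1 : ℤ) - 24), ((y.1 : ℤ) - 24), (if t = 0 then 4 else 10) - ((i.1 : ℤ) + 1)) = levMat k := by
  decide +kernel

theorem good_cross0 (m : ℤ × ℤ × ℤ × ℤ) (hm : Good m) (h : 0 < m.2.1 * m.2.2.1) :
    ∃ k : Fin 54, cr k = true ∧ m = levMat k := by
  obtain ⟨a, b, c, d⟩ := m
  obtain ⟨hdet, htr⟩ := hm
  simp only at hdet htr h
  have hT : a + d = 4 ∨ a + d = 10 := by
    rcases htr with h1 | h1
    · exact Or.inl h1
    · exact Or.inr h1.1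
  have ha : 1 ≤ a := by
    by_contra hc
    have ha0 : a ≤ 0 := by omega
    have hd0 : 0 ≤ d := by omega
    nlinarith
  have hd : 1 ≤ d := by
    by_contra hc
    have hd0 : d ≤ 0 := by omega
    have ha0 : 0 ≤ a := by omega
    nlinarith
  have hbc : b * c ≤ 24 := by
    rcases hT with h1 | h1
    · have : d = 4 - a := by omega
      subst this
      nlinarith [sq_nonneg (a - 2)]
    · have : d = 10 - a := by omega
      subst this
      nlinarith [sq_nonneg (a - 5)]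
  have hb : -24 ≤ b ∧ b ≤ 24 := by
    have hb0 : b ≠ 0 := by rintro rfl; simp at h
    have hc0 : c ≠ 0 := by rintro rfl; simp at h
    rcases lt_or_gt_of_ne hb0 with hb1 | hb1
    · have hc1 : c ≤ -1 := by
        by_contra hcc
        have : 0 ≤ c := by omega
        nlinarith
      constructor <;> nlinarith
    · have hc1 : 1 ≤ c := by
        by_contra hcc
        have : c ≤ 0 := by omega
        nlinarith
      constructor <;> nlinarith
  have hc : -24 ≤ c ∧ c ≤ 24 := by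
    have hb0 : b ≠ 0 := by rintro rfl; simp at h
    have hc0 : c ≠ 0 := by rintro rfl; simp at h
    rcases lt_or_gt_of_ne hc0 with hc1 | hc1
    · have hb1 : b ≤ -1 := by
        by_contra hcc
        have : 0 ≤ b := by omega
        nlinarith
      constructor <;> nlinarith
    · have hb1 : 1 ≤ b := by
        by_contra hcc
        have : b ≤ 0 := by omega
        nlinarith
      constructor <;> nlinarith
  have ha9 : a ≤ 9 := by omega
  have key : ∀ t : Fin 2, a + d = (if t = 0 then 4 else 10) → (t = 0 ∨ (2 ∣ b ∧ 2 ∣ c)) →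
      ∃ k : Fin 54, cr k = true ∧ (a, b, c, d) = levMat k := by
    intro t ht hpar
    have e1 : (((⟨(a - 1).toNat, by omega⟩ : Fin 9).1 : ℤ) + 1) = a := by
      simp only
      omega
    have e2 : (((⟨(b + 24).toNat, by omega⟩ : Fin 49).1 : ℤ) - 24) = b := by
      simp only
      omega
    have e3 : (((⟨(c + 24).toNat, by omega⟩ : Fin 49).1 : ℤ) - 24) = c := by
      simp only
      omega
    have hk := x6a_fin t ⟨(a - 1).toNat, by omega⟩ ⟨(b + 24).toNat, by omega⟩ ⟨(c + 24).toNat, by omega⟩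
    rw [e1, e2, e3] at hk
    have e4 : (if t = 0 then (4 : ℤ) else 10) - a = d := by
      rw [← ht]; ring
    rw [e4] at hk
    exact hk hdet h hpar
  rcases htr with h1 | ⟨h1, h2, h3⟩
  · exact key 0 (by simpa using h1) (Or.inl rfl)
  · exact key 1 (by simpa using h1) (Or.inr ⟨h2, h3⟩)

private theorem x6a_tt : ∀ k : Fin 54, cr k = true →
    levMat (tt k) = ((levMat k).1 + (levMat k).2.2.1,
      (levMat k).2.1 + (levMat k).2.2.2 - (levMat k).1 - (levMat k).2.2.1, (levMat k).2.2.1,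
      (levMat k).2.2.2 - (levMat k).2.2.1) := by
  decide +kernel

private theorem x6a_rho : ∀ k : Fin 54,
    levMat (k + 18) = ((levMat k).2.2.1 + (levMat k).2.2.2, -(levMat k).2.2.1,
      (levMat k).2.2.1 + (levMat k).2.2.2 - (levMat k).1 - (levMat k).2.1,
      (levMat k).1 - (levMat k).2.2.1) := by
  decide +kernel

theorem good_lev (m : ℤ × ℤ × ℤ × ℤ) (hm : Good m) {Q : Fm} (hQ : Q ∈ PosF) (hT : Q ∈ Tri) (h : Lb m Q = 0) :
    ∃ k : Fin 54, m = levMat k := by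
  obtain ⟨a, b, c, d⟩ := m
  obtain ⟨x, y, z⟩ := Q
  obtain ⟨hx, hxyz⟩ := hQ
  obtain ⟨hy, hyx, hyz⟩ := hT
  have hm' := hm
  obtain ⟨hdet, htr⟩ := hm
  simp only [Lb] at hdet htr h hx hxyz hy hyx hyz
  have hb : b ≠ 0 := by
    rintro rfl
    have h1 : a * d = 1 := by linarith
    rcases Int.mul_eq_one_iff_eq_one_or_neg_one.1 h1 with ⟨h2, h3⟩ | ⟨h2, h3⟩ <;> omega
  have hc : c ≠ 0 := by
    rintro rfl
    have h1 : a * d = 1 := by linarith
    rcases Int.mul_eq_one_iff_eq_one_or_neg_one.1 h1 with ⟨h2, h3⟩ | ⟨h2, h3⟩ <;> omega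
  have he : c + d - a - b ≠ 0 := by
    intro h0
    have hd : d = a + b - c := by omega
    have h1 : (a - c) * (a + b) = 1 := by
      rw [← hdet, hd]; ring
    rcases Int.mul_eq_one_iff_eq_one_or_neg_one.1 h1 with ⟨h2, h3⟩ | ⟨h2, h3⟩ <;> omega
  have hpar : ∀ u : ℤ, (a + d = 4 ∨ (a + d = 10 ∧ 2 ∣ b ∧ 2 ∣ c)) → True := fun _ _ => trivial
  by_cases h1 : 0 < b * c
  · obtain ⟨k, _, hk⟩ := good_cross0 (a, b, c, d) hm' h1
    exact ⟨k, hk⟩
  by_cases h2 : 0 < (a + b - c - d) * c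
  · have hg : Good (a - c, a + b - c - d, c, c + d) := by
      refine ⟨?_, ?_⟩
      · show (a - c) * (c + d) - (a + b - c - d) * c = 1
        rw [← hdet]; ring
      · show (a - c) + (c + d) = 4 ∨ ((a - c) + (c + d) = 10 ∧ 2 ∣ (a + b - c - d) ∧ 2 ∣ c)
        rcases htr with h3 | ⟨h3, h4, h5⟩
        · left; omega
        · right
          refine ⟨by omega, by omega, h5⟩
    obtain ⟨k, hcr, hk⟩ := good_cross0 _ hg h2
    refine ⟨tt k, ?_⟩
    rw [x6a_tt k hcr, ← hk]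
    simp only [Prod.mk.injEq]
    refine ⟨by ring, by ring, trivial, by ring⟩
  by_cases h3 : 0 < (a + b - c - d) * (-b)
  · have hg : Good (d - b, a + b - c - d, -b, a + b) := by
      refine ⟨?_, ?_⟩
      · show (d - b) * (a + b) - (a + b - c - d) * (-b) = 1
        rw [← hdet]; ring
      · show (d - b) + (a + b) = 4 ∨ ((d - b) + (a + b) = 10 ∧ 2 ∣ (a + b - c - d) ∧ 2 ∣ -b)
        rcases htr with h4 | ⟨h4, h5, h6⟩
        · left; omega
        · right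
          refine ⟨by omega, by omega, by omega⟩
    obtain ⟨k, hcr, hk⟩ := good_cross0 _ hg h3
    refine ⟨k + 18, ?_⟩
    rw [x6a_rho k, ← hk]
    simp only [Prod.mk.injEq]
    refine ⟨by ring, by ring, by ring, by ring⟩
  exfalso
  -- all of `c`, `-b`, `e` have the same sign
  have key : (c : ℝ) * (x - y) + (-(b : ℝ)) * (z - y) + ((c : ℝ) + d - a - b) * y = 0 := by
    linarith
  have hpos2 : (0 < x - y ∧ 0 < z - y) ∨ (0 < y) := by
    by_contra hcon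
    rw [not_or, not_and_or] at hcon
    obtain ⟨hcon1, hcon2⟩ := hcon
    have hy0 : y = 0 := le_antisymm (not_lt.1 hcon2) hy
    subst hy0
    rcases hcon1 with h4 | h4
    · linarith
    · have hz : z = 0 := by linarith
      subst hz
      simp at hxyz
  have hpos3 : 0 < y → (0 < x - y ∨ 0 < z - y) := by
    intro _
    by_contra hcon
    rw [not_or] at hcon
    have e1 : x = y := by linarith [hcon.1]
    have e2 : z = y := by linarith [hcon.2]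
    subst e1
    subst e2
    nlinarith
  rcases lt_or_gt_of_ne hc with hc1 | hc1
  · -- c < 0
    have hb1 : 0 < b := by
      rcases lt_or_gt_of_ne hb with h4 | h4
      · exact absurd (mul_pos_of_neg_of_neg h4 hc1) h1
      · exact h4
    have he1 : c + d - a - b < 0 := by
      rcases lt_or_gt_of_ne he with h4 | h4
      · exact h4
      · exact absurd (mul_pos_of_neg_of_neg (show a + b - c - d < 0 by omega) hc1) h2
    have c' : (c : ℝ) < 0 := by exact_mod_cast hc1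
    have b' : (0 : ℝ) < b := by exact_mod_cast hb1
    have e' : ((c : ℝ) + d - a - b) < 0 := by exact_mod_cast he1
    have t1 : (c : ℝ) * (x - y) ≤ 0 := mul_nonpos_of_nonpos_of_nonneg c'.le (by linarith)
    have t2 : (-(b : ℝ)) * (z - y) ≤ 0 := mul_nonpos_of_nonpos_of_nonneg (by linarith) (by linarith)
    have t3 : ((c : ℝ) + d - a - b) * y ≤ 0 := mul_nonpos_of_nonpos_of_nonneg e'.le hy
    rcases hpos2 with ⟨h5, _⟩ | h5
    · have := mul_neg_of_neg_of_pos c' h5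
      linarith
    · have := mul_neg_of_neg_of_pos e' h5
      linarith
  · have hb1 : b < 0 := by
      rcases lt_or_gt_of_ne hb with h4 | h4
      · exact h4
      · exact absurd (mul_pos h4 hc1) h1
    have he1 : 0 < c + d - a - b := by
      rcases lt_or_gt_of_ne he with h4 | h4
      · exact absurd (mul_pos (show 0 < a + b - c - d by omega) hc1) h2
      · exact h4
    have c' : (0 : ℝ) < c := by exact_mod_cast hc1
    have b' : (b : ℝ) < 0 := by exact_mod_cast hb1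
    have e' : 0 < ((c : ℝ) + d - a - b) := by exact_mod_cast he1
    have t1 : 0 ≤ (c : ℝ) * (x - y) := mul_nonneg c'.le (by linarith)
    have t2 : 0 ≤ (-(b : ℝ)) * (z - y) := mul_nonneg (by linarith) (by linarith)
    have t3 : 0 ≤ ((c : ℝ) + d - a - b) * y := mul_nonneg e'.le hy
    rcases hpos2 with ⟨h5, _⟩ | h5
    · have := mul_pos c' h5
      linarith
    · have := mul_pos e' h5
      linarith

private def x6aTab : List (ℕ × ℤ × ℤ × ℤ × ℤ) := [(2, 1, 0, 1, 1), (2, 1, 0, 0, 1), (0, 1, 0, 1, 1), (2, 1, 0, -1, 1), (3, 1, 0, 1, 1), (0, 1, 0, 0, 1), (2, 1, 0, -2,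
  1), (1, 1, 0, 1, 1), (3, 1, 0, 0, 1), (2, 1, 1, 1, 2), (0, 1, 0, -1, 1), (3, 1, 1, 1, 2), (1, 1, 1, 1, 2), (2, 1, 2, 1,
  3), (3, 1, 2, 1, 3), (1, 1, 0, 0, 1), (3, 1, 3, 1, 4), (3, 1, 0, -1, 1), (2, 1, 1, 0, 1), (2, 0, -1, 1, -1), (0, 1, 1,
  0, 1), (2, 1, -1, 2, -1), (3, 1, 1, 0, 1), (0, 0, -1, 1, -1), (2, 2, 5, 1, 3), (1, 1, 1, 0, 1), (3, 0, -1, 1, -1), (2,
  1, 2, 0, 1), (0, 1, 2, 0, 1), (3, 1, 2, 0, 1), (1, 1, 0, -1, 1), (2, 1, 3, 0, 1), (3, 1, 3, 0, 1), (1, 0, -1, 1, -1),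
  (3, 1, 0, -2, 1), (3, 1, -1, 2, -1), (2, 0, -1, 1, 0), (2, 1, -1, 1, 0), (0, 0, -1, 1, 0), (2, 2, -1, 1, 0), (3, 0, -1,
  1, 0), (0, 1, -1, 1, 0), (2, 1, 3, -1, -2), (1, 0, -1, 1, 0), (3, 1, -1, 1, 0), (2, 0, -1, 1, 1), (0, 0, -1, 1, 1), (3,
  0, -1, 1, 1), (1, 0, -1, 1, 1), (2, 0, -1, 1, 2), (3, 0, -1, 1, 2), (1, 1, -1, 1, 0), (3, 0, -1, 1, 3), (3, 2, -1, 1,
  0)]

private def x6aT (k : Fin 54) : ℕ × ℤ × ℤ × ℤ × ℤ := x6aTab.getD k (0, 1, 0, 0, 1)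

private def x6aA (i : ℕ) : ℤ × ℤ × ℤ × ℤ :=
  if i = 0 then (1, 1, 2, 3) else if i = 1 then (1, 2, 1, 3) else if i = 2 then (1, 2, 4, 9) else (1, 4, 2, 9)

private def x6aC (g m : ℤ × ℤ × ℤ × ℤ) : ℤ × ℤ × ℤ × ℤ :=
  ((g.1 * m.1 + g.2.1 * m.2.2.1) * g.2.2.2 - (g.1 * m.2.1 + g.2.1 * m.2.2.2) * g.2.2.1,
   -(g.1 * m.1 + g.2.1 * m.2.2.1) * g.2.1 + (g.1 * m.2.1 + g.2.1 * m.2.2.2) * g.1,
   (g.2.2.1 * m.1 + g.2.2.2 * m.2.2.1) * g.2.2.2 - (g.2.2.1 * m.2.1 + g.2.2.2 * m.2.2.2) * g.2.2.1,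
   -(g.2.2.1 * m.1 + g.2.2.2 * m.2.2.1) * g.2.1 + (g.2.2.1 * m.2.1 + g.2.2.2 * m.2.2.2) * g.1)

private theorem x6a_tab : ∀ k : Fin 54,
    (x6aT k).2.1 * (x6aT k).2.2.2.2 - (x6aT k).2.2.1 * (x6aT k).2.2.2.1 = 1 ∧
      x6aC (x6aT k).2 (x6aA (x6aT k).1) = levMat k := by
  decide +kernel

theorem lev_conj (k : Fin 54) : ∃ A ∈ S4, ∃ γ : SL(2, ℤ), tup (γ * A * γ⁻¹) = levMat k := by
  obtain ⟨h1, h2⟩ := x6a_tab k
  have key : ∀ A : SL(2, ℤ), tup A = x6aA (x6aT k).1 → ∃ γ : SL(2, ℤ), tup (γ * A * γ⁻¹) = levMat k := by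
    intro A hA
    have hdet : (!![(x6aT k).2.1, (x6aT k).2.2.1; (x6aT k).2.2.2.1, (x6aT k).2.2.2.2]).det = 1 := by
      rw [Matrix.det_fin_two_of]; exact h1
    obtain ⟨γ, hγ⟩ : ∃ γ : SL(2, ℤ), γ.1 = !![(x6aT k).2.1, (x6aT k).2.2.1; (x6aT k).2.2.2.1, (x6aT k).2.2.2.2] :=
      ⟨⟨_, hdet⟩, rfl⟩
    refine ⟨γ, (x6a_tup A γ).trans ?_⟩
    rw [← h2, ← hA, hγ]
    rfl
  by_cases e0 : (x6aT k).1 = 0
  · obtain ⟨γ, hγ⟩ := key A1 (by simp [x6aA, e0]; rfl)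
    exact ⟨A1, by simp [S4], γ, hγ⟩
  by_cases e1 : (x6aT k).1 = 1
  · obtain ⟨γ, hγ⟩ := key A2 (by simp [x6aA, e1]; rfl)
    exact ⟨A2, by simp [S4], γ, hγ⟩
  by_cases e2 : (x6aT k).1 = 2
  · obtain ⟨γ, hγ⟩ := key A3 (by simp [x6aA, e2]; rfl)
    exact ⟨A3, by simp [S4], γ, hγ⟩
  · obtain ⟨γ, hγ⟩ := key A4 (by simp [x6aA, e0, e1, e2]; rfl)
    exact ⟨A4, by simp [S4], γ, hγ⟩

/-- the link over the closed Farey triangle. -/
theorem link_tri {Q : Fm} (hQ : Q ∈ PosF) (hT : Q ∈ Tri) (f : OnePoint ℝ) :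
    pt Q f ∈ modularLink S4 ↔ ∃ k : Fin 54, f = ((lev k : ℝ) : OnePoint ℝ) ∧ Lb (levMat k) Q = 0 := by
  rw [pt_link S4 S4_trace hQ f]
  constructor
  · rintro ⟨A, hA, γ, hf, hL⟩
    obtain ⟨k, hk⟩ := good_lev _ (good_conj A hA γ) hQ hT hL
    rw [hk] at hf hL
    exact ⟨k, hf, hL⟩
  · rintro ⟨k, hf, hL⟩
    obtain ⟨A, hA, γ, hγ⟩ := lev_conj k
    refine ⟨A, hA, γ, ?_, ?_⟩
    · rw [hγ]; exact hf
    · rw [hγ]; exact hL

end Pool.AML
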