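import Pool.Agent.AML.X.X2b
import Pool.Agent.AML.X.X6a

/-! # Block X: the centres and the chart `PhX` (definitions). -/

set_option linter.style.longLine false

open Topology Set

namespace Pool.AML

noncomputable section

/-- crossing heights of the edge `(0, ∞)`. -/
def tau : OnePoint ℝ → ℝ := Classical.choose exists_tau

theorem tau_spec : Continuous tau ∧ (∀ f, 0 < tau f) ∧ (∀ f, tau (SS f) = (tau f)⁻¹) ∧
    ∀ k : Fin 54, cr k = true → tau ((lev k : ℝ) : OnePoint ℝ) = ht k := Classical.choose_spec exists_tau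

/-- centres of the triangle, in coordinates `(β∞, β0, β1)`. -/
def wv : OnePoint ℝ → ℝ × ℝ × ℝ := Classical.choose exists_w

theorem wv_spec : Continuous wv ∧ (∀ f, 0 < (wv f).1 ∧ 0 < (wv f).2.1 ∧ 0 < (wv f).2.2) ∧
    (∀ f, wv (TT (SS f)) = ((wv f).2.1, (wv f).2.2, (wv f).1)) ∧
    ∀ k : Fin 54, wv ((lev k : ℝ) : OnePoint ℝ) = wl k := Classical.choose_spec exists_w

/-- form with barycentric coordinates `(β∞, β0, β1)`. -/
def bary (b : ℝ × ℝ × ℝ) : Fm := (b.1 + b.2.2, b.2.2, b.2.1 + b.2.2)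

/-- crossing form of the edge `(0, ∞)` at the level `f`. -/
def T0v (f : OnePoint ℝ) : Fm := bary (tau f, (tau f)⁻¹, 0)

/-- crossing form of the edge `(1, ∞)` at the level `f`. -/
def T1v (f : OnePoint ℝ) : Fm := bary (tau (TTi f), 0, (tau (TTi f))⁻¹)

/-- centre of the triangle at the level `f`. -/
def wF (f : OnePoint ℝ) : Fm := bary (wv f)

/-- the form `N∞`. -/
def Ninf : Fm := (1, 0, 0)

/-- bottom of the region of the cusp `∞` in the triangle `(0, 1, ∞)`, `x ∈ [0,1]`. -/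
def b0 (x : ℝ) (f : OnePoint ℝ) : Fm :=
  if x ≤ 1 / 2 then (1 - 2 * x) • T0v f + (2 * x) • wF f else (2 * x - 1) • T1v f + (2 - 2 * x) • wF f

/-- the chart `(x, f, h) ↦ ` unit tangent vector. -/
def PhX (p : ℝ × OnePoint ℝ × ℝ) : T1M :=
  pt (b0 (Int.fract p.1) (TTn (-⌊p.1⌋) p.2.1) + p.2.2 • Ninf) (TTn (-⌊p.1⌋) p.2.1)

end

end Pool.AML
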