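import Mathlib

/-! Abstract tessellation theorem (general form of `Pool.AML.tess`). -/

set_option linter.style.longLine false
set_option linter.unusedSectionVars false
open Topology Set MeasureTheory

namespace Pool.AML

/-- a labelled system of simplicial cones in `E`, given by coordinates. -/
structure CellsG (E κ ι : Type*) [AddCommGroup E] [Module ℝ E] where
  L : ι → (E ≃ₗ[ℝ] (κ → ℝ))
  nb : ι → κ → ι
  nb_nb : ∀ s a, nb (nb s a) a = s
  share : ∀ s a v, L s v a = 0 → L (nb s a) v = L s v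
  side : ∀ s a, ∃ k : ℝ, 0 < k ∧ ∀ v, L (nb s a) v a = -k * L s v a

namespace TessG

/-- Heaviside function with value one half at `0`. -/
noncomputable def hvs (y : ℝ) : ℝ := if 0 < y then 1 else if y = 0 then 1 / 2 else 0

theorem hvs_pos {y : ℝ} (h : 0 < y) : hvs y = 1 := by simp [hvs, h]
theorem hvs_neg {y : ℝ} (h : y < 0) : hvs y = 0 := by simp [hvs, not_lt.2 h.le, h.ne]
theorem hvs_nonneg (y : ℝ) : 0 ≤ hvs y := by
  unfold hvs; split_ifs <;> norm_num
theorem hvs_add {k : ℝ} (hk : 0 < k) (y : ℝ) : hvs y + hvs (-k * y) = 1 := by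
  rcases lt_trichotomy y 0 with h | h | h
  · rw [hvs_neg h, hvs_pos (by nlinarith)]; norm_num
  · subst h; simp [hvs]; norm_num
  · rw [hvs_pos h, hvs_neg (by nlinarith)]; norm_num

variable {E κ ι : Type*} [NormedAddCommGroup E] [NormedSpace ℝ E] [FiniteDimensional ℝ E]
    [Fintype κ] [DecidableEq κ] (c : CellsG E κ ι)

/-- weight of a point in the cell `s`. -/
noncomputable def wt (s : ι) (v : E) : ℝ := ∏ a, hvs (c.L s v a)

theorem wt_nonneg (s : ι) (v : E) : 0 ≤ wt c s v := Finset.prod_nonneg fun _ _ => hvs_nonneg _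

/-- `v` lies in the (closed) cell. -/
def mem (s : ι) (v : E) : Prop := ∀ a, 0 ≤ c.L s v a

theorem mem_of_wt {s : ι} {v : E} (h : wt c s v ≠ 0) : mem c s v := by
  intro a
  by_contra hn
  exact h (Finset.prod_eq_zero (Finset.mem_univ a) (hvs_neg (not_le.1 hn)))

theorem cont (s : ι) (a : κ) : Continuous fun v => c.L s v a :=
  (continuous_apply a).comp (c.L s).toLinearMap.continuous_of_finiteDimensional

theorem closed_mem (s : ι) : IsClosed {v | mem c s v} := by
  simp only [mem, ofPred_forall]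
  exact isClosed_iInter fun a => isClosed_le continuous_const (cont c s a)

/-- total weight of the cells in `T`. -/
noncomputable def F (T : Set ι) (v : E) : ℝ := ∑ᶠ s ∈ T, wt c s v

/-- codimension two faces. -/
def bad (v : E) : Prop := ∃ s, mem c s v ∧ ∃ a b, a ≠ b ∧ c.L s v a = 0 ∧ c.L s v b = 0

open Classical in
/-- a zero coordinate, if any. -/
noncomputable def zc (μ : κ → ℝ) : Option (κ) :=
  if h : ∃ a, μ a = 0 then some h.choose else none

theorem zc_some {μ : κ → ℝ} {a : κ} (h : zc μ = some a) : μ a = 0 := by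
  unfold zc at h
  split_ifs at h with h'
  · rw [← Option.some.inj h]; exact h'.choose_spec

theorem zc_none {μ : κ → ℝ} (h : zc μ = none) (a : κ) : μ a ≠ 0 := by
  unfold zc at h
  split_ifs at h with h'
  intro ha
  exact h' ⟨a, ha⟩

/-- partner of the cell at `v`. -/
noncomputable def pt (v : E) (s : ι) : ι :=
  match zc (c.L s v) with
  | some a => c.nb s a
  | none => s

theorem pt_some {v : E} {s : ι} {a : κ} (h : zc (c.L s v) = some a) : pt c v s = c.nb s a := by
  unfold pt; rw [h]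

theorem pt_none {v : E} {s : ι} (h : zc (c.L s v) = none) : pt c v s = s := by
  unfold pt; rw [h]

theorem L_pt (v : E) (s : ι) : c.L (pt c v s) v = c.L s v := by
  rcases h : zc (c.L s v) with _ | a
  · rw [pt_none c h]
  · rw [pt_some c h]; exact c.share s a v (zc_some h)

theorem pt_pt (v : E) (s : ι) : pt c v (pt c v s) = s := by
  rcases h : zc (c.L s v) with _ | a
  · rw [pt_none c h, pt_none c h]
  · have h2 : zc (c.L (pt c v s) v) = some a := by rw [L_pt, h]
    rw [pt_some c h2, pt_some c h, c.nb_nb]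

/-- local constancy of the total weight away from the codimension two faces. -/
theorem F_loc (T : Set ι) (P : Set E) (x0 : E) (hx0 : x0 ∈ P)
    (hlf : ∀ v ∈ P, ∃ U ∈ 𝓝 v, {s | ∃ w ∈ U, ∀ a, 0 ≤ c.L s w a}.Finite)
    (hb : ¬ bad c x0)
    (hT : ∀ s ∈ T, mem c s x0 → ∀ a, c.L s x0 a = 0 → c.nb s a ∈ T) :
    ∀ᶠ x in 𝓝 x0, F c T x = F c T x0 := by
  classical
  obtain ⟨U, hU, hfin⟩ := hlf x0 hx0
  -- the finite set of cells at x0
  have hS0 : {s | s ∈ T ∧ mem c s x0}.Finite :=
    hfin.subset fun s hs => ⟨x0, mem_of_mem_nhds hU, hs.2⟩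
  set S := hS0.toFinset with hS
  have hmemS : ∀ s, s ∈ S ↔ s ∈ T ∧ mem c s x0 := fun s => by simp [hS]
  -- eventually only cells of S matter
  have hev : ∀ᶠ x in 𝓝 x0, ∀ s ∈ T, wt c s x ≠ 0 → s ∈ S := by
    have h1 : ∀ᶠ x in 𝓝 x0, ∀ s ∈ hfin.toFinset, ¬ mem c s x0 → ¬ mem c s x := by
      rw [Filter.eventually_all_finset]
      intro s _
      by_cases hm : mem c s x0
      · exact Filter.Eventually.of_forall fun x h => absurd hm h
      · have : {v | mem c s v}ᶜ ∈ 𝓝 x0 := (closed_mem c s).isOpen_compl.mem_nhds hm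
        filter_upwards [this] with x hx _
        exact hx
    filter_upwards [h1, hU] with x hx hxU s hsT hw
    rw [hmemS]
    refine ⟨hsT, ?_⟩
    by_contra hm
    have hmx := mem_of_wt c hw
    exact hx s (by rw [Set.Finite.mem_toFinset]; exact ⟨x, hxU, hmx⟩) hm hmx
  have hF : ∀ᶠ x in 𝓝 x0, F c T x = ∑ s ∈ S, wt c s x := by
    filter_upwards [hev] with x hx
    unfold F
    rw [finsum_mem_eq_sum_of_inter_support_eq]
    ext s
    simp only [mem_inter_iff, Function.mem_support, Finset.mem_coe, ne_eq]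
    constructor
    · rintro ⟨h1, h2⟩; exact ⟨hx s h1 h2, h2⟩
    · rintro ⟨h1, h2⟩; exact ⟨((hmemS s).1 h1).1, h2⟩
  -- partner map on S
  have hpS : ∀ s ∈ S, pt c x0 s ∈ S := by
    intro s hs
    rw [hmemS] at hs ⊢
    refine ⟨?_, ?_⟩
    · rcases h : zc (c.L s x0) with _ | a
      · rw [pt_none c h]; exact hs.1
      · rw [pt_some c h]; exact hT s hs.1 hs.2 a (zc_some h)
    · intro a; rw [L_pt]; exact hs.2 a
  have hsum : ∀ x, ∑ s ∈ S, wt c s x = ∑ s ∈ S, wt c (pt c x0 s) x := by
    intro x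
    refine Finset.sum_nbij' (pt c x0) (pt c x0) hpS hpS ?_ ?_ ?_
    · intro s _; exact pt_pt c x0 s
    · intro s _; exact pt_pt c x0 s
    · intro s _; rw [pt_pt]
  -- each pair sum is locally constant
  have hloc : ∀ s ∈ S, ∀ᶠ x in 𝓝 x0, wt c s x + wt c (pt c x0 s) x =
      wt c s x0 + wt c (pt c x0 s) x0 := by
    intro s hs
    have hms : mem c s x0 := ((hmemS s).1 hs).2
    rcases h : zc (c.L s x0) with _ | a
    · rw [pt_none c h]
      have hpos : ∀ a, 0 < c.L s x0 a := fun a => lt_of_le_of_ne (hms a) (Ne.symm (zc_none h a))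
      have : ∀ᶠ x in 𝓝 x0, ∀ a, 0 < c.L s x a := by
        rw [Filter.eventually_all]
        intro a
        exact (cont c s a).continuousAt.eventually (lt_mem_nhds (hpos a))
      filter_upwards [this] with x hx
      have e1 : wt c s x = 1 := Finset.prod_eq_one fun a _ => hvs_pos (hx a)
      have e2 : wt c s x0 = 1 := Finset.prod_eq_one fun a _ => hvs_pos (hpos a)
      rw [e1, e2]
    · rw [pt_some c h]
      have ha := zc_some h
      have hpos : ∀ b, b ≠ a → 0 < c.L s x0 b := fun b hb' =>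
        lt_of_le_of_ne (hms b) (fun h0 => hb ⟨s, hms, b, a, hb', h0.symm, ha⟩)
      have hpos' : ∀ b, b ≠ a → 0 < c.L (c.nb s a) x0 b := fun b hb' => by
        rw [c.share s a x0 ha]; exact hpos b hb'
      obtain ⟨k, hk, hside⟩ := c.side s a
      have e1 : ∀ᶠ x in 𝓝 x0, ∀ b, b ≠ a → 0 < c.L s x b := by
        rw [Filter.eventually_all]
        intro b
        by_cases hb' : b = a
        · exact Filter.Eventually.of_forall fun x h => absurd hb' h
        · filter_upwards [(cont c s b).continuousAt.eventually (lt_mem_nhds (hpos b hb'))] with x hx _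
          exact hx
      have e2 : ∀ᶠ x in 𝓝 x0, ∀ b, b ≠ a → 0 < c.L (c.nb s a) x b := by
        rw [Filter.eventually_all]
        intro b
        by_cases hb' : b = a
        · exact Filter.Eventually.of_forall fun x h => absurd hb' h
        · filter_upwards [(cont c (c.nb s a) b).continuousAt.eventually
            (lt_mem_nhds (hpos' b hb'))] with x hx _
          exact hx
      have key : ∀ x, (∀ b, b ≠ a → 0 < c.L s x b) → (∀ b, b ≠ a → 0 < c.L (c.nb s a) x b) →
          wt c s x + wt c (c.nb s a) x = 1 := by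
        intro x h1 h2
        have w1 : wt c s x = hvs (c.L s x a) := by
          unfold wt
          rw [Finset.prod_eq_single a]
          · intro b _ hb'; exact hvs_pos (h1 b hb')
          · intro h; exact absurd (Finset.mem_univ a) h
        have w2 : wt c (c.nb s a) x = hvs (c.L (c.nb s a) x a) := by
          unfold wt
          rw [Finset.prod_eq_single a]
          · intro b _ hb'; exact hvs_pos (h2 b hb')
          · intro h; exact absurd (Finset.mem_univ a) h
        rw [w1, w2, hside, hvs_add hk]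
      filter_upwards [e1, e2] with x h1 h2
      rw [key x h1 h2, key x0 hpos hpos']
  have hall : ∀ᶠ x in 𝓝 x0, ∀ s ∈ S, wt c s x + wt c (pt c x0 s) x =
      wt c s x0 + wt c (pt c x0 s) x0 := (Filter.eventually_all_finset S).2 hloc
  filter_upwards [hF, hall] with x hx hx2
  rw [hx, hF.self_of_nhds]
  have t1 : 2 * ∑ s ∈ S, wt c s x = ∑ s ∈ S, (wt c s x + wt c (pt c x0 s) x) := by
    rw [Finset.sum_add_distrib, ← hsum x]; ring
  have t2 : 2 * ∑ s ∈ S, wt c s x0 = ∑ s ∈ S, (wt c s x0 + wt c (pt c x0 s) x0) := by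
    rw [Finset.sum_add_distrib, ← hsum x0]; ring
  have t3 : ∑ s ∈ S, (wt c s x + wt c (pt c x0 s) x) = ∑ s ∈ S, (wt c s x0 + wt c (pt c x0 s) x0) :=
    Finset.sum_congr rfl hx2
  linarith

/-- constancy along segments avoiding the codimension two faces. -/
theorem F_seg (T : Set ι) (P U : Set E) (hUP : U ⊆ P) (hU : Convex ℝ U)
    (hlf : ∀ v ∈ P, ∃ U ∈ 𝓝 v, {s | ∃ w ∈ U, ∀ a, 0 ≤ c.L s w a}.Finite)
    (hT : ∀ x ∈ U, ∀ s ∈ T, mem c s x → ∀ a, c.L s x a = 0 → c.nb s a ∈ T)
    (x y : E) (hx : x ∈ U) (hy : y ∈ U)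
    (hseg : ∀ t ∈ Icc (0 : ℝ) 1, ¬ bad c (AffineMap.lineMap x y t)) :
    F c T y = F c T x := by
  have hc : Continuous fun t : ℝ => (AffineMap.lineMap x y t : E) := AffineMap.lineMap_continuous
  set g : ℝ → ℝ := fun t => F c T (AffineMap.lineMap x y t) with hg
  have hloc : ∀ t ∈ Icc (0 : ℝ) 1, ∀ᶠ u in 𝓝 t, g u = g t := by
    intro t ht
    have hm : (AffineMap.lineMap x y t : E) ∈ U := hU.lineMap_mem hx hy ht
    exact (hc.continuousAt (x := t)).eventually
      (F_loc c T P _ (hUP hm) hlf (hseg t ht) (hT _ hm))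
  have hd : ∀ t ∈ Icc (0 : ℝ) 1, g t = g 0 := by
    have hpre : IsPreconnected (Icc (0 : ℝ) 1) := isPreconnected_Icc
    have hcont : ContinuousOn g (Icc (0 : ℝ) 1) := fun t ht =>
      (continuousAt_const.congr (by
        filter_upwards [hloc t ht] with u hu using hu.symm)).continuousWithinAt
    apply constant_of_derivWithin_zero
    · intro t ht
      have : HasDerivAt g 0 t := by
        refine (hasDerivAt_const t (g t)).congr_of_eventuallyEq ?_
        filter_upwards [hloc t ht] with u hu using hu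
      exact this.differentiableAt.differentiableWithinAt
    · intro t ht
      have h2 : HasDerivAt g 0 t := by
        refine (hasDerivAt_const t (g t)).congr_of_eventuallyEq ?_
        filter_upwards [hloc t ⟨ht.1, ht.2.le⟩] with u hu using hu
      exact h2.hasDerivWithinAt.derivWithin ((uniqueDiffOn_Icc (by norm_num)) t ⟨ht.1, ht.2.le⟩)
  have := hd 1 ⟨by norm_num, le_rfl⟩
  simpa [hg] using this

/-- avoiding countably many hyperplanes. -/
theorem generic {τ : Type*} [Countable τ] (φ : τ → (E →ₗ[ℝ] ℝ)) (hφ : ∀ k, φ k ≠ 0)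
    (U : Set E) (hU : IsOpen U) (hne : U.Nonempty) : ∃ y ∈ U, ∀ k, φ k y ≠ 0 := by
  by_contra hcon
  push Not at hcon
  have hsub : U ⊆ ⋃ k, (LinearMap.ker (φ k) : Set E) := by
    intro y hy
    obtain ⟨k, hk⟩ := hcon y hy
    exact mem_iUnion.2 ⟨k, LinearMap.mem_ker.2 hk⟩
  letI : MeasurableSpace E := borel E
  haveI : BorelSpace E := ⟨rfl⟩
  have hz : (Measure.addHaar : Measure E) (⋃ k, (LinearMap.ker (φ k) : Set E)) = 0 := by
    rw [measure_iUnion_null_iff]
    intro k
    apply Measure.addHaar_submodule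
    intro htop
    exact hφ k (LinearMap.ker_eq_top.1 htop)
  have h0 : (Measure.addHaar : Measure E) U = 0 := measure_mono_null hsub hz
  exact (hU.measure_pos Measure.addHaar hne).ne' h0

/-- functional vanishing at `x` and on a codimension two face. -/
noncomputable def ff (x : E) (s : ι) (a b : κ) : E →ₗ[ℝ] ℝ :=
  let la : E →ₗ[ℝ] ℝ := (LinearMap.proj a).comp (c.L s).toLinearMap
  let lb : E →ₗ[ℝ] ℝ := (LinearMap.proj b).comp (c.L s).toLinearMap
  open Classical in
  if c.L s x a = 0 ∧ c.L s x b = 0 then la else c.L s x b • la - c.L s x a • lb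

theorem ff_ne (x : E) (s : ι) (a b : κ) (hab : a ≠ b) : ff c x s a b ≠ 0 := by
  intro h
  unfold ff at h
  simp only at h
  split_ifs at h with h0
  · have := congrArg (fun f : E →ₗ[ℝ] ℝ => f ((c.L s).symm (Pi.single a 1))) h
    simp at this
  · apply h0
    constructor
    · have := congrArg (fun f : E →ₗ[ℝ] ℝ => f ((c.L s).symm (Pi.single b 1))) h
      simpa [hab, hab.symm] using this
    · have := congrArg (fun f : E →ₗ[ℝ] ℝ => f ((c.L s).symm (Pi.single a 1))) h
      simpa [hab, hab.symm] using this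

/-- the segment from a good point to a generic point avoids the codimension two faces. -/
theorem seg_good (x y : E) (hx : ¬ bad c x)
    (hy : ∀ s a b, a ≠ b → ff c x s a b y ≠ 0) :
    ∀ t ∈ Icc (0 : ℝ) 1, ¬ bad c (AffineMap.lineMap x y t) := by
  intro t ht hbad
  by_cases ht0 : t = 0
  · subst ht0
    rw [AffineMap.lineMap_apply_zero] at hbad
    exact hx hbad
  obtain ⟨s, -, a, b, hab, ha, hb⟩ := hbad
  have hl : ∀ i, c.L s (AffineMap.lineMap x y t) i = (1 - t) * c.L s x i + t * c.L s y i := by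
    intro i
    rw [AffineMap.lineMap_apply_module, map_add, map_smul, map_smul]
    simp
  rw [hl] at ha hb
  apply hy s a b hab
  unfold ff
  simp only
  split_ifs with h0
  · rw [h0.1] at ha
    simp only [LinearMap.comp_apply, LinearMap.proj_apply, LinearEquiv.coe_coe]
    have : t * c.L s y a = 0 := by linarith
    exact (mul_eq_zero.1 this).resolve_left ht0
  · simp only [LinearMap.sub_apply, LinearMap.smul_apply, LinearMap.comp_apply, LinearMap.proj_apply,
      LinearEquiv.coe_coe, smul_eq_mul]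
    have h1 : t * (c.L s x b * c.L s y a - c.L s x a * c.L s y b) = 0 := by
      linear_combination c.L s x b * ha - c.L s x a * hb
    exact (mul_eq_zero.1 h1).resolve_left ht0

theorem F_add_compl (P : Set E)
    (hlf : ∀ v ∈ P, ∃ U ∈ 𝓝 v, {s | ∃ w ∈ U, ∀ a, 0 ≤ c.L s w a}.Finite)
    (T : Set ι) (v : E) (hv : v ∈ P) : F c univ v = F c T v + F c Tᶜ v := by
  obtain ⟨U, hU, hfin⟩ := hlf v hv
  have hs : (Function.support fun s => wt c s v).Finite := by
    refine hfin.subset fun s hs => ?_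
    exact ⟨v, mem_of_mem_nhds hU, mem_of_wt c hs⟩
  unfold F
  rw [← finsum_mem_union']
  · rw [union_compl_self]
  · exact disjoint_compl_right
  · exact hs.inter_of_right T
  · exact hs.inter_of_right Tᶜ

theorem one_le_F (P : Set E)
    (hlf : ∀ v ∈ P, ∃ U ∈ 𝓝 v, {s | ∃ w ∈ U, ∀ a, 0 ≤ c.L s w a}.Finite)
    (T : Set ι) (v : E) (hv : v ∈ P) (s : ι) (hs : s ∈ T) (h : ∀ a, 0 < c.L s v a) :
    1 ≤ F c T v := by
  classical
  obtain ⟨U, hU, hfin⟩ := hlf v hv
  have hsf : (T ∩ Function.support fun s => wt c s v).Finite := by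
    refine (hfin.subset fun s hs => ?_).inter_of_right T
    exact ⟨v, mem_of_mem_nhds hU, mem_of_wt c hs⟩
  have e1 : wt c s v = 1 := Finset.prod_eq_one fun a _ => hvs_pos (h a)
  unfold F
  rw [finsum_mem_eq_sum_of_inter_support_eq (fun s => wt c s v) (t := hsf.toFinset) (by
    ext r; simp)]
  rw [← e1]
  refine Finset.single_le_sum (f := fun s => wt c s v) (fun r _ => wt_nonneg c r v) ?_
  rw [Set.Finite.mem_toFinset]
  exact ⟨hs, by simp [e1]⟩

end TessG

open TessG in
theorem tessG {E κ ι : Type*} [NormedAddCommGroup E] [NormedSpace ℝ E] [FiniteDimensional ℝ E]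
    [Fintype κ] [DecidableEq κ] [Countable ι] (c : CellsG E κ ι) (P : Set E) (hP : IsOpen P)
    (hc : Convex ℝ P)
    (hlf : ∀ v ∈ P, ∃ U ∈ 𝓝 v, {s | ∃ w ∈ U, ∀ a, 0 ≤ c.L s w a}.Finite)
    (v0 : E) (hv0 : v0 ∈ P) (s0 : ι) (h0 : ∀ a, 0 < c.L s0 v0 a)
    (h1 : ∀ s, (∀ a, 0 ≤ c.L s v0 a) → s = s0) :
    (∀ v ∈ P, ∃ s, ∀ a, 0 ≤ c.L s v a) ∧
    (∀ v ∈ P, ∀ s t, (∀ a, 0 ≤ c.L s v a) → (∀ a, 0 ≤ c.L t v a) →
      Relation.ReflTransGen (fun s t => ∃ a, c.L s v a = 0 ∧ t = c.nb s a) s t) := by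
  classical
  have hb0 : ¬ bad c v0 := by
    rintro ⟨s, hs, a, b, -, ha, -⟩
    rw [h1 s hs] at ha
    exact (h0 a).ne' ha
  -- total weight one at v0
  have hF0 : F c univ v0 = 1 := by
    unfold F
    have : ∀ s, wt c s v0 ≠ 0 → s = s0 := fun s hs => h1 s (mem_of_wt c hs)
    rw [finsum_mem_univ, finsum_eq_single _ s0 (fun s hs => by
      by_contra hne; exact hs (this s hne))]
    exact Finset.prod_eq_one fun a _ => hvs_pos (h0 a)
  -- total weight one at generic points
  have hF1 : ∀ y ∈ P, (∀ s a b, a ≠ b → ff c v0 s a b y ≠ 0) → F c univ y = 1 := by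
    intro y hy hgen
    rw [← hF0]
    exact F_seg c univ P P Subset.rfl hc hlf (fun _ _ _ _ _ _ _ => mem_univ _) v0 y hv0 hy
      (seg_good c v0 y hb0 hgen)
  have hidx : Countable {p : ι × κ × κ // p.2.1 ≠ p.2.2} := inferInstance
  -- cells through v: neighbourhoods
  constructor
  · intro v hv
    by_contra hcon
    push Not at hcon
    obtain ⟨U, hU, hfin⟩ := hlf v hv
    have hev : ∀ᶠ x in 𝓝 v, ∀ s, ¬ mem c s x := by
      have h2 : ∀ᶠ x in 𝓝 v, ∀ s ∈ hfin.toFinset, ¬ mem c s x := by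
        rw [Filter.eventually_all_finset]
        intro s _
        apply (closed_mem c s).isOpen_compl.mem_nhds
        intro hm
        obtain ⟨a, ha⟩ := hcon s
        exact absurd (hm a) (not_le.2 ha)
      filter_upwards [h2, hU] with x hx hxU s hm
      exact hx s (by rw [Set.Finite.mem_toFinset]; exact ⟨x, hxU, hm⟩) hm
    obtain ⟨O, hOsub, hO, hvO⟩ := mem_nhds_iff.1 (Filter.inter_mem hev (hP.mem_nhds hv))
    obtain ⟨y, hyO, hy⟩ := generic (fun p : {p : ι × κ × κ // p.2.1 ≠ p.2.2} =>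
      ff c v0 p.1.1 p.1.2.1 p.1.2.2) (fun p => ff_ne c v0 _ _ _ p.2) O hO ⟨v, hvO⟩
    have h3 := hF1 y (hOsub hyO).2 (fun s a b hab => hy ⟨(s, a, b), hab⟩)
    have h4 : F c univ y = 0 := by
      unfold F
      rw [finsum_mem_univ]
      apply finsum_eq_zero_of_forall_eq_zero
      intro s
      by_contra hne
      exact (hOsub hyO).1 s (mem_of_wt c hne)
    rw [h3] at h4
    exact one_ne_zero h4
  · intro v hv s t hs ht
    by_contra hcon
    set R : ι → ι → Prop := fun s t => ∃ a, c.L s v a = 0 ∧ t = c.nb s a with hR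
    have hsymm : ∀ r r', R r r' → R r' r := by
      rintro r _ ⟨a, ha, rfl⟩
      exact ⟨a, by rw [c.share r a v ha]; exact ha, (c.nb_nb r a).symm⟩
    set A : Set ι := {r | Relation.ReflTransGen R s r} with hA
    -- good neighbourhood of v
    obtain ⟨U, hU, hfin⟩ := hlf v hv
    have hev1 : ∀ᶠ x in 𝓝 v, ∀ r, mem c r x → mem c r v := by
      have h2 : ∀ᶠ x in 𝓝 v, ∀ r ∈ hfin.toFinset, ¬ mem c r v → ¬ mem c r x := by
        rw [Filter.eventually_all_finset]
        intro r _
        by_cases hm : mem c r v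
        · exact Filter.Eventually.of_forall fun x h => absurd hm h
        · have : {w | mem c r w}ᶜ ∈ 𝓝 v := (closed_mem c r).isOpen_compl.mem_nhds hm
          filter_upwards [this] with x hx _
          exact hx
      filter_upwards [h2, hU] with x hx hxU r hm
      by_contra hmv
      exact hx r (by rw [Set.Finite.mem_toFinset]; exact ⟨x, hxU, hm⟩) hmv hm
    have hev2 : ∀ᶠ x in 𝓝 v, ∀ r, mem c r x → ∀ a, c.L r x a = 0 → c.L r v a = 0 := by
      have h2 : ∀ᶠ x in 𝓝 v, ∀ r ∈ hfin.toFinset, ∀ a, 0 < c.L r v a → 0 < c.L r x a := by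
        rw [Filter.eventually_all_finset]
        intro r _
        rw [Filter.eventually_all]
        intro a
        by_cases hp : 0 < c.L r v a
        · filter_upwards [(cont c r a).continuousAt.eventually (lt_mem_nhds hp)] with x hx _
          exact hx
        · exact Filter.Eventually.of_forall fun x h => absurd h hp
      filter_upwards [h2, hU, hev1] with x hx hxU hx1 r hm a ha
      have hmv := hx1 r hm
      by_contra hne
      have hp : 0 < c.L r v a := lt_of_le_of_ne (hmv a) (Ne.symm hne)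
      exact (hx r (by rw [Set.Finite.mem_toFinset]; exact ⟨x, hxU, hm⟩) a hp).ne' ha
    obtain ⟨ε, hε, hball⟩ := Metric.mem_nhds_iff.1
      (Filter.inter_mem (Filter.inter_mem hev1 hev2) (hP.mem_nhds hv))
    set O := Metric.ball v ε with hOdef
    have hOconv : Convex ℝ O := convex_ball v ε
    have hOopen : IsOpen O := Metric.isOpen_ball
    have hOP : O ⊆ P := fun x hx => (hball hx).2
    have hstep : ∀ x ∈ O, ∀ r, mem c r x → ∀ a, c.L r x a = 0 → R r (c.nb r a) :=
      fun x hx r hm a ha => ⟨a, (hball hx).1.2 r hm a ha, rfl⟩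
    have hTA : ∀ x ∈ O, ∀ r ∈ A, mem c r x → ∀ a, c.L r x a = 0 → c.nb r a ∈ A :=
      fun x hx r hr hm a ha => Relation.ReflTransGen.tail hr (hstep x hx r hm a ha)
    have hTB : ∀ x ∈ O, ∀ r ∈ Aᶜ, mem c r x → ∀ a, c.L r x a = 0 → c.nb r a ∈ Aᶜ :=
      fun x hx r hr hm a ha hn =>
        hr (Relation.ReflTransGen.tail hn (hsymm _ _ (hstep x hx r hm a ha)))
    -- interior points
    have hint : ∀ r, mem c r v → ∃ x ∈ O, (∀ a, 0 < c.L r x a) ∧ ¬ bad c x := by
      intro r hr
      have hcs : Continuous fun e : ℝ => v + e • (c.L r).symm (fun _ => 1) := by fun_prop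
      have hne : (O ∩ {x | ∀ a, 0 < c.L r x a}).Nonempty := by
        have h5 : ∀ᶠ e : ℝ in 𝓝[>] 0, v + e • (c.L r).symm (fun _ => 1) ∈ O := by
          apply nhdsWithin_le_nhds
          have : Filter.Tendsto (fun e : ℝ => v + e • (c.L r).symm (fun _ => 1)) (𝓝 0) (𝓝 v) := by
            have := hcs.tendsto 0
            simpa using this
          exact this (hOopen.mem_nhds (Metric.mem_ball_self hε))
        obtain ⟨e, he, hepos⟩ := (h5.and self_mem_nhdsWithin).exists
        refine ⟨_, he, fun a => ?_⟩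
        rw [map_add, map_smul, LinearEquiv.apply_symm_apply]
        simp only [Pi.add_apply, Pi.smul_apply, smul_eq_mul, mul_one]
        have := hr a
        have h6 : (0 : ℝ) < e := hepos
        linarith
      have hop : IsOpen (O ∩ {x | ∀ a, 0 < c.L r x a}) := by
        refine hOopen.inter ?_
        simp only [ofPred_forall]
        exact isOpen_iInter_of_finite fun a => isOpen_lt continuous_const (cont c r a)
      obtain ⟨x, hx, hgen⟩ := generic (fun p : ι × κ =>
        ((LinearMap.proj p.2).comp (c.L p.1).toLinearMap : E →ₗ[ℝ] ℝ)) (fun p h => by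
          have := congrArg (fun f : E →ₗ[ℝ] ℝ => f ((c.L p.1).symm (Pi.single p.2 1))) h
          simp at this) _ hop hne
      refine ⟨x, hx.1, hx.2, ?_⟩
      rintro ⟨q, -, a, b, -, ha, -⟩
      exact hgen (q, a) ha
    obtain ⟨x1, hx1O, hx1, hb1⟩ := hint s hs
    obtain ⟨x2, hx2O, hx2, hb2⟩ := hint t ht
    obtain ⟨y, hyO, hy⟩ := generic (fun p : Fin 3 × {p : ι × κ × κ // p.2.1 ≠ p.2.2} =>
      ff c (![v0, x1, x2] p.1) p.2.1.1 p.2.1.2.1 p.2.1.2.2) (fun p => ff_ne c _ _ _ _ p.2.2) O hOopen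
        ⟨v, Metric.mem_ball_self hε⟩
    have hg0 := hF1 y (hOP hyO) (fun s a b hab => hy (0, ⟨(s, a, b), hab⟩))
    have hg1 : F c A y = F c A x1 := F_seg c A P O hOP hOconv hlf hTA x1 y hx1O hyO
      (seg_good c x1 y hb1 (fun s a b hab => hy (1, ⟨(s, a, b), hab⟩)))
    have hg2 : F c Aᶜ y = F c Aᶜ x2 := F_seg c Aᶜ P O hOP hOconv hlf hTB x2 y hx2O hyO
      (seg_good c x2 y hb2 (fun s a b hab => hy (2, ⟨(s, a, b), hab⟩)))
    have hA1 : 1 ≤ F c A x1 := one_le_F c P hlf A x1 (hOP hx1O) s Relation.ReflTransGen.refl hx1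
    have hA2 : 1 ≤ F c Aᶜ x2 := one_le_F c P hlf Aᶜ x2 (hOP hx2O) t hcon hx2
    have := F_add_compl c P hlf A y (hOP hyO)
    linarith

end Pool.AML
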