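import Pool.Agent.AML.X.Defs
import Pool.Agent.AML.C.C2

/-! [AML-X1a] Algebra of the section `secF Q v` (`Q` positive definite, `v ≠ 0`).

`qf Q v > 0` (positive definite quadratic form: `Q11 * (Q22 x² - 2 Q12 x y + Q11 y²) = (det) x² + (Q11 y - Q12 x)²`), so
`det (secM Q v) = 1` by direct computation, `secM Q v` has first column `v / √(qf Q v)` and `g gᵀ = Q / √(det Q)`.
`secF_gram`: for `g` of determinant one, `dtF (gram g) = 1`, `qf (gram g) (g e₁) = 1`, and the second column comes out right.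
`secF_neg`, scaling: `qf Q (c v) = c² qf Q v`, so `secF Q (c v) = ± secF Q v` (sign of `c`); `secF (c Q) v = secF Q v` for `c > 0`
(`dtF (c Q) = c² dtF Q`, `qf (c Q) v = qf Q v`). Equivariance: `secF (fa g Q) (mv g v) = g * secF Q v`: both have the same first column
and the same Gram matrix up to scaling; or use `dtF (fa g Q) = dtF Q`, `qf (fa g Q) (mv g v) = qf Q v` and compute the second column. -/

set_option linter.style.longLine false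

open Matrix Topology Set
open scoped MatrixGroups

namespace Pool.AML

theorem dtF_pos {Q : Fm} (hQ : Q ∈ PosF) : 0 < dtF Q := hQ.2

private theorem x1a_num {Q : Fm} (hQ : Q ∈ PosF) {v : ℝ × ℝ} (hv : v ≠ 0) :
    0 < Q.2.2 * v.1 ^ 2 - 2 * Q.2.1 * v.1 * v.2 + Q.1 * v.2 ^ 2 := by
  obtain ⟨h1, h2⟩ := hQ
  have h : 0 < Q.1 * (Q.2.2 * v.1 ^ 2 - 2 * Q.2.1 * v.1 * v.2 + Q.1 * v.2 ^ 2) := by
    have e : Q.1 * (Q.2.2 * v.1 ^ 2 - 2 * Q.2.1 * v.1 * v.2 + Q.1 * v.2 ^ 2) =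
        (Q.1 * Q.2.2 - Q.2.1 ^ 2) * v.1 ^ 2 + (Q.1 * v.2 - Q.2.1 * v.1) ^ 2 := by ring
    rw [e]
    by_cases hx : v.1 = 0
    · have hy : v.2 ≠ 0 := fun hy => hv (Prod.ext hx hy)
      have : 0 < (Q.1 * v.2 - Q.2.1 * v.1) ^ 2 := by
        rw [hx, mul_zero, sub_zero]
        exact sq_pos_of_ne_zero (mul_ne_zero h1.ne' hy)
      have := mul_nonneg h2.le (sq_nonneg v.1)
      linarith
    · have := mul_pos h2 (sq_pos_of_ne_zero hx)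
      have := sq_nonneg (Q.1 * v.2 - Q.2.1 * v.1)
      linarith
  exact (mul_pos_iff_of_pos_left h1).1 h

theorem qf_pos {Q : Fm} (hQ : Q ∈ PosF) {v : ℝ × ℝ} (hv : v ≠ 0) : 0 < qf Q v :=
  div_pos (x1a_num hQ hv) (Real.sqrt_pos.2 (dtF_pos hQ))

private theorem x1a_aux {Q : Fm} (hQ : Q ∈ PosF) {v : ℝ × ℝ} (hv : v ≠ 0) :
    ∃ s t : ℝ, 0 < s ∧ 0 < t ∧ Real.sqrt (dtF Q) = s ∧ Real.sqrt (qf Q v) = t ∧
      s ^ 2 = Q.1 * Q.2.2 - Q.2.1 ^ 2 ∧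
      t ^ 2 * s = Q.2.2 * v.1 ^ 2 - 2 * Q.2.1 * v.1 * v.2 + Q.1 * v.2 ^ 2 := by
  refine ⟨_, _, Real.sqrt_pos.2 (dtF_pos hQ), Real.sqrt_pos.2 (qf_pos hQ hv), rfl, rfl,
    Real.sq_sqrt (dtF_pos hQ).le, ?_⟩
  rw [Real.sq_sqrt (qf_pos hQ hv).le, qf, div_mul_cancel₀ _ (Real.sqrt_pos.2 (dtF_pos hQ)).ne']

private theorem x1a_det {Q : Fm} (hQ : Q ∈ PosF) {v : ℝ × ℝ} (hv : v ≠ 0) : (secM Q v).det = 1 := by
  obtain ⟨s, t, hs, ht, h1, h2, h3, h4⟩ := x1a_aux hQ hv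
  rw [secM, Matrix.det_fin_two_of, h1, h2]
  field_simp
  linear_combination -h4

private theorem x1a_secF_pos {Q : Fm} {v : ℝ × ℝ} (h : (secM Q v).det = 1) : secF Q v = ⟨secM Q v, h⟩ := by
  unfold secF
  exact dif_pos h

theorem secF_val {Q : Fm} (hQ : Q ∈ PosF) {v : ℝ × ℝ} (hv : v ≠ 0) : (secF Q v).1 = secM Q v := by
  rw [x1a_secF_pos (x1a_det hQ hv)]

private theorem x1a_ext {g h : SL(2, ℝ)} (h00 : g.1 0 0 = h.1 0 0) (h01 : g.1 0 1 = h.1 0 1)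
    (h10 : g.1 1 0 = h.1 1 0) (h11 : g.1 1 1 = h.1 1 1) : g = h := by
  apply Subtype.ext
  ext i j
  fin_cases i <;> fin_cases j
  · exact h00
  · exact h01
  · exact h10
  · exact h11

private theorem x1a_dt (g : SL(2, ℝ)) : g.1 0 0 * g.1 1 1 - g.1 0 1 * g.1 1 0 = 1 := by
  have := g.2
  rwa [Matrix.det_fin_two] at this

theorem gram_secF {Q : Fm} (hQ : Q ∈ PosF) {v : ℝ × ℝ} (hv : v ≠ 0) :
    gram (secF Q v) = (Real.sqrt (dtF Q))⁻¹ • Q := by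
  have h0 := secF_val hQ hv
  obtain ⟨s, t, hs, ht, h1, h2, h3, h4⟩ := x1a_aux hQ hv
  have e00 : (secF Q v).1 0 0 = v.1 / t := by rw [h0, secM, h1, h2]; rfl
  have e01 : (secF Q v).1 0 1 = (Q.2.1 * v.1 - Q.1 * v.2) / (s * t) := by rw [h0, secM, h1, h2]; rfl
  have e10 : (secF Q v).1 1 0 = v.2 / t := by rw [h0, secM, h1, h2]; rfl
  have e11 : (secF Q v).1 1 1 = (Q.2.2 * v.1 - Q.2.1 * v.2) / (s * t) := by rw [h0, secM, h1, h2]; rfl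
  rw [gram, e00, e01, e10, e11, h1]
  refine Prod.ext ?_ (Prod.ext ?_ ?_)
  · change (v.1 / t) ^ 2 + ((Q.2.1 * v.1 - Q.1 * v.2) / (s * t)) ^ 2 = s⁻¹ * Q.1
    field_simp
    linear_combination (v.1 ^ 2) * h3 - Q.1 * h4
  · change v.1 / t * (v.2 / t) + (Q.2.1 * v.1 - Q.1 * v.2) / (s * t) * ((Q.2.2 * v.1 - Q.2.1 * v.2) / (s * t)) = s⁻¹ * Q.2.1
    field_simp
    linear_combination (v.1 * v.2) * h3 - Q.2.1 * h4
  · change (v.2 / t) ^ 2 + ((Q.2.2 * v.1 - Q.2.1 * v.2) / (s * t)) ^ 2 = s⁻¹ * Q.2.2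
    field_simp
    linear_combination (v.2 ^ 2) * h3 - Q.2.2 * h4

theorem gram_mem (g : SL(2, ℝ)) : gram g ∈ PosF := by
  have hd := x1a_dt g
  refine ⟨?_, ?_⟩
  · change 0 < g.1 0 0 ^ 2 + g.1 0 1 ^ 2
    by_contra hcon
    have h0 : g.1 0 0 ^ 2 + g.1 0 1 ^ 2 = 0 := le_antisymm (not_lt.1 hcon) (by positivity)
    have h1 : g.1 0 0 = 0 := by nlinarith [sq_nonneg (g.1 0 0), sq_nonneg (g.1 0 1)]
    have h2 : g.1 0 1 = 0 := by nlinarith [sq_nonneg (g.1 0 0), sq_nonneg (g.1 0 1)]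
    rw [h1, h2] at hd
    norm_num at hd
  · change 0 < (g.1 0 0 ^ 2 + g.1 0 1 ^ 2) * (g.1 1 0 ^ 2 + g.1 1 1 ^ 2) - (g.1 0 0 * g.1 1 0 + g.1 0 1 * g.1 1 1) ^ 2
    have e : (g.1 0 0 ^ 2 + g.1 0 1 ^ 2) * (g.1 1 0 ^ 2 + g.1 1 1 ^ 2) - (g.1 0 0 * g.1 1 0 + g.1 0 1 * g.1 1 1) ^ 2
        = (g.1 0 0 * g.1 1 1 - g.1 0 1 * g.1 1 0) ^ 2 := by ring
    rw [e, hd]
    norm_num

private theorem x1a_ne (g : SL(2, ℝ)) : ((g.1 0 0, g.1 1 0) : ℝ × ℝ) ≠ 0 := by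
  intro h
  have h1 : g.1 0 0 = 0 := congrArg Prod.fst h
  have h2 : g.1 1 0 = 0 := congrArg Prod.snd h
  have hd := x1a_dt g
  rw [h1, h2] at hd
  norm_num at hd

theorem secF_gram (g : SL(2, ℝ)) : secF (gram g) (g.1 0 0, g.1 1 0) = g := by
  have h0 := secF_val (gram_mem g) (x1a_ne g)
  have hd := x1a_dt g
  have h1 : dtF (gram g) = 1 := by
    change (g.1 0 0 ^ 2 + g.1 0 1 ^ 2) * (g.1 1 0 ^ 2 + g.1 1 1 ^ 2) - (g.1 0 0 * g.1 1 0 + g.1 0 1 * g.1 1 1) ^ 2 = 1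
    linear_combination (g.1 0 0 * g.1 1 1 - g.1 0 1 * g.1 1 0 + 1) * hd
  have h2 : qf (gram g) (g.1 0 0, g.1 1 0) = 1 := by
    rw [qf, h1, Real.sqrt_one, div_one]
    change (g.1 1 0 ^ 2 + g.1 1 1 ^ 2) * g.1 0 0 ^ 2 - 2 * (g.1 0 0 * g.1 1 0 + g.1 0 1 * g.1 1 1) * g.1 0 0 * g.1 1 0 +
      (g.1 0 0 ^ 2 + g.1 0 1 ^ 2) * g.1 1 0 ^ 2 = 1
    linear_combination (g.1 0 0 * g.1 1 1 - g.1 0 1 * g.1 1 0 + 1) * hd
  apply x1a_ext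
  · rw [h0, secM, h1, h2, Real.sqrt_one]
    change g.1 0 0 / 1 = g.1 0 0
    rw [div_one]
  · rw [h0, secM, h1, h2, Real.sqrt_one]
    change ((g.1 0 0 * g.1 1 0 + g.1 0 1 * g.1 1 1) * g.1 0 0 - (g.1 0 0 ^ 2 + g.1 0 1 ^ 2) * g.1 1 0) / (1 * 1) = g.1 0 1
    rw [mul_one, div_one]
    linear_combination (g.1 0 1) * hd
  · rw [h0, secM, h1, h2, Real.sqrt_one]
    change g.1 1 0 / 1 = g.1 1 0
    rw [div_one]
  · rw [h0, secM, h1, h2, Real.sqrt_one]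
    change ((g.1 1 0 ^ 2 + g.1 1 1 ^ 2) * g.1 0 0 - (g.1 0 0 * g.1 1 0 + g.1 0 1 * g.1 1 1) * g.1 1 0) / (1 * 1) = g.1 1 1
    rw [mul_one, div_one]
    linear_combination (g.1 1 1) * hd

private theorem x1a_secF_congr {Q Q' : Fm} {v v' : ℝ × ℝ} (h : secM Q v = secM Q' v') : secF Q v = secF Q' v' := by
  by_cases h1 : (secM Q v).det = 1
  · have h2 : (secM Q' v').det = 1 := h ▸ h1
    rw [x1a_secF_pos h1, x1a_secF_pos h2]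
    exact Subtype.ext h
  · have h2 : ¬ (secM Q' v').det = 1 := h ▸ h1
    have e1 : secF Q v = 1 := by
      unfold secF
      exact dif_neg h1
    have e2 : secF Q' v' = 1 := by
      unfold secF
      exact dif_neg h2
    rw [e1, e2]

theorem secF_smul_vec {Q : Fm} (hQ : Q ∈ PosF) {v : ℝ × ℝ} (hv : v ≠ 0) {c : ℝ} (hc : 0 < c) :
    secF Q (c • v) = secF Q v := by
  apply x1a_secF_congr
  have h1 : Real.sqrt (qf Q (c • v)) = c * Real.sqrt (qf Q v) := by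
    have e : qf Q (c • v) = c ^ 2 * qf Q v := by
      rw [qf, qf, ← mul_div_assoc]
      congr 1
      change Q.2.2 * (c * v.1) ^ 2 - 2 * Q.2.1 * (c * v.1) * (c * v.2) + Q.1 * (c * v.2) ^ 2 = _
      ring
    rw [e, Real.sqrt_mul (sq_nonneg c), Real.sqrt_sq hc.le]
  have ht := Real.sqrt_pos.2 (qf_pos hQ hv)
  have hs := Real.sqrt_pos.2 (dtF_pos hQ)
  rw [secM, secM, h1]
  change !![c * v.1 / (c * _), (Q.2.1 * (c * v.1) - Q.1 * (c * v.2)) / (_ * (c * _));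
     c * v.2 / (c * _), (Q.2.2 * (c * v.1) - Q.2.1 * (c * v.2)) / (_ * (c * _))] = _
  have k : ∀ x y : ℝ, (c * x) / (c * y) = x / y := fun x y => mul_div_mul_left _ _ hc.ne'
  have k1 : Q.2.1 * (c * v.1) - Q.1 * (c * v.2) = c * (Q.2.1 * v.1 - Q.1 * v.2) := by ring
  have k2 : Q.2.2 * (c * v.1) - Q.2.1 * (c * v.2) = c * (Q.2.2 * v.1 - Q.2.1 * v.2) := by ring
  have k3 : ∀ x y : ℝ, x * (c * y) = c * (x * y) := fun x y => by ring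
  rw [k1, k2, k3 (Real.sqrt (dtF Q)), k, k, k, k]

theorem secF_neg {Q : Fm} (hQ : Q ∈ PosF) {v : ℝ × ℝ} (hv : v ≠ 0) : secF Q (-v) = -secF Q v := by
  have hv' : -v ≠ 0 := neg_ne_zero.2 hv
  have e : qf Q (-v) = qf Q v := by
    rw [qf, qf]
    congr 1
    change Q.2.2 * (-v.1) ^ 2 - 2 * Q.2.1 * (-v.1) * (-v.2) + Q.1 * (-v.2) ^ 2 = _
    ring
  have h0 : (-secF Q v).1 = -(secF Q v).1 := rfl
  apply x1a_ext
  · rw [h0, secF_val hQ hv', Matrix.neg_apply, secF_val hQ hv, secM, secM, e]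
    change (-v.1) / _ = -(v.1 / _)
    ring
  · rw [h0, secF_val hQ hv', Matrix.neg_apply, secF_val hQ hv, secM, secM, e]
    change (Q.2.1 * (-v.1) - Q.1 * (-v.2)) / _ = -((Q.2.1 * v.1 - Q.1 * v.2) / _)
    ring
  · rw [h0, secF_val hQ hv', Matrix.neg_apply, secF_val hQ hv, secM, secM, e]
    change (-v.2) / _ = -(v.2 / _)
    ring
  · rw [h0, secF_val hQ hv', Matrix.neg_apply, secF_val hQ hv, secM, secM, e]
    change (Q.2.2 * (-v.1) - Q.2.1 * (-v.2)) / _ = -((Q.2.2 * v.1 - Q.2.1 * v.2) / _)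
    ring

theorem secF_smul {Q : Fm} (hQ : Q ∈ PosF) (v : ℝ × ℝ) {c : ℝ} (hc : 0 < c) : secF (c • Q) v = secF Q v := by
  apply x1a_secF_congr
  have hs := Real.sqrt_pos.2 (dtF_pos hQ)
  have h1 : Real.sqrt (dtF (c • Q)) = c * Real.sqrt (dtF Q) := by
    have e : dtF (c • Q) = c ^ 2 * dtF Q := by
      change (c * Q.1) * (c * Q.2.2) - (c * Q.2.1) ^ 2 = c ^ 2 * (Q.1 * Q.2.2 - Q.2.1 ^ 2)
      ring
    rw [e, Real.sqrt_mul (sq_nonneg c), Real.sqrt_sq hc.le]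
  have h2 : qf (c • Q) v = qf Q v := by
    rw [qf, qf, h1]
    change ((c * Q.2.2) * v.1 ^ 2 - 2 * (c * Q.2.1) * v.1 * v.2 + (c * Q.1) * v.2 ^ 2) / _ = _
    field_simp
  rw [secM, secM, h1, h2]
  change !![_, ((c * Q.2.1) * v.1 - (c * Q.1) * v.2) / (c * _ * _);
     _, ((c * Q.2.2) * v.1 - (c * Q.2.1) * v.2) / (c * _ * _)] = _
  have k : ∀ x y z : ℝ, (c * x) / (c * y * z) = x / (y * z) := fun x y z => by
    rw [mul_assoc, mul_div_mul_left _ _ hc.ne']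
  have k1 : (c * Q.2.1) * v.1 - (c * Q.1) * v.2 = c * (Q.2.1 * v.1 - Q.1 * v.2) := by ring
  have k2 : (c * Q.2.2) * v.1 - (c * Q.2.1) * v.2 = c * (Q.2.2 * v.1 - Q.2.1 * v.2) := by ring
  rw [k1, k2, k, k]

private theorem x1a_dtfa (g : SL(2, ℝ)) (Q : Fm) : dtF (fa g Q) = dtF Q := by
  have hd := x1a_dt g
  have e : dtF (fa g Q) = (g.1 0 0 * g.1 1 1 - g.1 0 1 * g.1 1 0) ^ 2 * dtF Q := by
    simp only [dtF, fa]
    ring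
  rw [e, hd, one_pow, one_mul]

theorem fa_mem (g : SL(2, ℝ)) {Q : Fm} (hQ : Q ∈ PosF) : fa g Q ∈ PosF := by
  refine ⟨?_, ?_⟩
  · have hv : ((g.1 0 1, -g.1 0 0) : ℝ × ℝ) ≠ 0 := by
      intro h
      have h1 : g.1 0 1 = 0 := congrArg Prod.fst h
      have h2 : -g.1 0 0 = 0 := congrArg Prod.snd h
      have h3 : g.1 0 0 = 0 := neg_eq_zero.1 h2
      have hd := x1a_dt g
      rw [h1, h3] at hd
      norm_num at hd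
    have h := x1a_num hQ hv
    change 0 < Q.2.2 * g.1 0 1 ^ 2 - 2 * Q.2.1 * g.1 0 1 * (-g.1 0 0) + Q.1 * (-g.1 0 0) ^ 2 at h
    change 0 < g.1 0 0 ^ 2 * Q.1 + 2 * g.1 0 0 * g.1 0 1 * Q.2.1 + g.1 0 1 ^ 2 * Q.2.2
    have e : g.1 0 0 ^ 2 * Q.1 + 2 * g.1 0 0 * g.1 0 1 * Q.2.1 + g.1 0 1 ^ 2 * Q.2.2 =
      Q.2.2 * g.1 0 1 ^ 2 - 2 * Q.2.1 * g.1 0 1 * (-g.1 0 0) + Q.1 * (-g.1 0 0) ^ 2 := by ring
    rw [e]
    exact h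
  · have h : 0 < dtF (fa g Q) := by
      rw [x1a_dtfa]
      exact dtF_pos hQ
    exact h

private theorem x1a_mul (g h : SL(2, ℝ)) :
    (g * h).1 0 0 = g.1 0 0 * h.1 0 0 + g.1 0 1 * h.1 1 0 ∧ (g * h).1 0 1 = g.1 0 0 * h.1 0 1 + g.1 0 1 * h.1 1 1 ∧
    (g * h).1 1 0 = g.1 1 0 * h.1 0 0 + g.1 1 1 * h.1 1 0 ∧ (g * h).1 1 1 = g.1 1 0 * h.1 0 1 + g.1 1 1 * h.1 1 1 := by
  have e : (g * h).1 = g.1 * h.1 := rfl
  rw [e]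
  refine ⟨?_, ?_, ?_, ?_⟩ <;> rw [Matrix.mul_apply, Fin.sum_univ_two]

theorem fa_mul (g h : SL(2, ℝ)) (Q : Fm) : fa (g * h) Q = fa g (fa h Q) := by
  obtain ⟨e1, e2, e3, e4⟩ := x1a_mul g h
  simp only [fa, e1, e2, e3, e4]
  refine Prod.ext ?_ (Prod.ext ?_ ?_) <;> (dsimp only; ring)

theorem fa_one (Q : Fm) : fa 1 Q = Q := by
  have e1 : (1 : SL(2, ℝ)).1 0 0 = 1 := rfl
  have e2 : (1 : SL(2, ℝ)).1 0 1 = 0 := rfl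
  have e3 : (1 : SL(2, ℝ)).1 1 0 = 0 := rfl
  have e4 : (1 : SL(2, ℝ)).1 1 1 = 1 := rfl
  simp only [fa, e1, e2, e3, e4]
  refine Prod.ext ?_ (Prod.ext ?_ ?_) <;> (dsimp only; ring)

theorem fa_smul (g : SL(2, ℝ)) (c : ℝ) (Q : Fm) : fa g (c • Q) = c • fa g Q := by
  refine Prod.ext ?_ (Prod.ext ?_ ?_)
  · change g.1 0 0 ^ 2 * (c * Q.1) + 2 * g.1 0 0 * g.1 0 1 * (c * Q.2.1) + g.1 0 1 ^ 2 * (c * Q.2.2) =
      c * (g.1 0 0 ^ 2 * Q.1 + 2 * g.1 0 0 * g.1 0 1 * Q.2.1 + g.1 0 1 ^ 2 * Q.2.2)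
    ring
  · change g.1 0 0 * g.1 1 0 * (c * Q.1) + (g.1 0 0 * g.1 1 1 + g.1 0 1 * g.1 1 0) * (c * Q.2.1) + g.1 0 1 * g.1 1 1 * (c * Q.2.2) =
      c * (g.1 0 0 * g.1 1 0 * Q.1 + (g.1 0 0 * g.1 1 1 + g.1 0 1 * g.1 1 0) * Q.2.1 + g.1 0 1 * g.1 1 1 * Q.2.2)
    ring
  · change g.1 1 0 ^ 2 * (c * Q.1) + 2 * g.1 1 0 * g.1 1 1 * (c * Q.2.1) + g.1 1 1 ^ 2 * (c * Q.2.2) =
      c * (g.1 1 0 ^ 2 * Q.1 + 2 * g.1 1 0 * g.1 1 1 * Q.2.1 + g.1 1 1 ^ 2 * Q.2.2)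
    ring

theorem fa_add (g : SL(2, ℝ)) (Q Q' : Fm) : fa g (Q + Q') = fa g Q + fa g Q' := by
  refine Prod.ext ?_ (Prod.ext ?_ ?_)
  · change g.1 0 0 ^ 2 * (Q.1 + Q'.1) + 2 * g.1 0 0 * g.1 0 1 * (Q.2.1 + Q'.2.1) + g.1 0 1 ^ 2 * (Q.2.2 + Q'.2.2) =
      (g.1 0 0 ^ 2 * Q.1 + 2 * g.1 0 0 * g.1 0 1 * Q.2.1 + g.1 0 1 ^ 2 * Q.2.2) +
      (g.1 0 0 ^ 2 * Q'.1 + 2 * g.1 0 0 * g.1 0 1 * Q'.2.1 + g.1 0 1 ^ 2 * Q'.2.2)
    ring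
  · change g.1 0 0 * g.1 1 0 * (Q.1 + Q'.1) + (g.1 0 0 * g.1 1 1 + g.1 0 1 * g.1 1 0) * (Q.2.1 + Q'.2.1) + g.1 0 1 * g.1 1 1 * (Q.2.2 + Q'.2.2) =
      (g.1 0 0 * g.1 1 0 * Q.1 + (g.1 0 0 * g.1 1 1 + g.1 0 1 * g.1 1 0) * Q.2.1 + g.1 0 1 * g.1 1 1 * Q.2.2) +
      (g.1 0 0 * g.1 1 0 * Q'.1 + (g.1 0 0 * g.1 1 1 + g.1 0 1 * g.1 1 0) * Q'.2.1 + g.1 0 1 * g.1 1 1 * Q'.2.2)
    ring
  · change g.1 1 0 ^ 2 * (Q.1 + Q'.1) + 2 * g.1 1 0 * g.1 1 1 * (Q.2.1 + Q'.2.1) + g.1 1 1 ^ 2 * (Q.2.2 + Q'.2.2) =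
      (g.1 1 0 ^ 2 * Q.1 + 2 * g.1 1 0 * g.1 1 1 * Q.2.1 + g.1 1 1 ^ 2 * Q.2.2) +
      (g.1 1 0 ^ 2 * Q'.1 + 2 * g.1 1 0 * g.1 1 1 * Q'.2.1 + g.1 1 1 ^ 2 * Q'.2.2)
    ring

theorem fa_nf (g : SL(2, ℝ)) (v : ℝ × ℝ) : fa g (nf v) = nf (mv g v) := by
  simp only [fa, nf, mv]
  refine Prod.ext ?_ (Prod.ext ?_ ?_) <;> (dsimp only; ring)

theorem gram_mul (g h : SL(2, ℝ)) : gram (g * h) = fa g (gram h) := by
  obtain ⟨e1, e2, e3, e4⟩ := x1a_mul g h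
  simp only [fa, gram, e1, e2, e3, e4]
  refine Prod.ext ?_ (Prod.ext ?_ ?_) <;> (dsimp only; ring)

theorem secF_fa (g : SL(2, ℝ)) {Q : Fm} (hQ : Q ∈ PosF) {v : ℝ × ℝ} (hv : v ≠ 0) :
    secF (fa g Q) (mv g v) = g * secF Q v := by
  have hd := x1a_dt g
  have hv' : mv g v ≠ 0 := mv_ne_zero g hv
  have hQ' := fa_mem g hQ
  have h1 : dtF (fa g Q) = dtF Q := x1a_dtfa g Q
  have h2 : qf (fa g Q) (mv g v) = qf Q v := by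
    rw [qf, qf, h1]
    congr 1
    have e : (fa g Q).2.2 * (mv g v).1 ^ 2 - 2 * (fa g Q).2.1 * (mv g v).1 * (mv g v).2 + (fa g Q).1 * (mv g v).2 ^ 2 =
        (g.1 0 0 * g.1 1 1 - g.1 0 1 * g.1 1 0) ^ 2 *
          (Q.2.2 * v.1 ^ 2 - 2 * Q.2.1 * v.1 * v.2 + Q.1 * v.2 ^ 2) := by
      simp only [fa, mv]
      ring
    rw [e, hd, one_pow, one_mul]
  obtain ⟨e1, e2, e3, e4⟩ := x1a_mul g (secF Q v)
  have hs := Real.sqrt_pos.2 (dtF_pos hQ)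
  have ht := Real.sqrt_pos.2 (qf_pos hQ hv)
  have k1 : (fa g Q).2.1 * (mv g v).1 - (fa g Q).1 * (mv g v).2 =
      (g.1 0 0 * g.1 1 1 - g.1 0 1 * g.1 1 0) *
        (g.1 0 0 * (Q.2.1 * v.1 - Q.1 * v.2) + g.1 0 1 * (Q.2.2 * v.1 - Q.2.1 * v.2)) := by
    simp only [fa, mv]
    ring
  have k2 : (fa g Q).2.2 * (mv g v).1 - (fa g Q).2.1 * (mv g v).2 =
      (g.1 0 0 * g.1 1 1 - g.1 0 1 * g.1 1 0) *
        (g.1 1 0 * (Q.2.1 * v.1 - Q.1 * v.2) + g.1 1 1 * (Q.2.2 * v.1 - Q.2.1 * v.2)) := by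
    simp only [fa, mv]
    ring
  apply x1a_ext
  · rw [e1, secF_val hQ' hv', secF_val hQ hv, secM, secM, h1, h2]
    change (g.1 0 0 * v.1 + g.1 0 1 * v.2) / _ = g.1 0 0 * (v.1 / _) + g.1 0 1 * (v.2 / _)
    ring
  · rw [e2, secF_val hQ' hv', secF_val hQ hv, secM, secM, h1, h2, k1, hd]
    change (1 * (g.1 0 0 * (Q.2.1 * v.1 - Q.1 * v.2) + g.1 0 1 * (Q.2.2 * v.1 - Q.2.1 * v.2))) / _ =
      g.1 0 0 * ((Q.2.1 * v.1 - Q.1 * v.2) / _) + g.1 0 1 * ((Q.2.2 * v.1 - Q.2.1 * v.2) / _)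
    ring
  · rw [e3, secF_val hQ' hv', secF_val hQ hv, secM, secM, h1, h2]
    change (g.1 1 0 * v.1 + g.1 1 1 * v.2) / _ = g.1 1 0 * (v.1 / _) + g.1 1 1 * (v.2 / _)
    ring
  · rw [e4, secF_val hQ' hv', secF_val hQ hv, secM, secM, h1, h2, k2, hd]
    change (1 * (g.1 1 0 * (Q.2.1 * v.1 - Q.1 * v.2) + g.1 1 1 * (Q.2.2 * v.1 - Q.2.1 * v.2))) / _ =
      g.1 1 0 * ((Q.2.1 * v.1 - Q.1 * v.2) / _) + g.1 1 1 * ((Q.2.2 * v.1 - Q.2.1 * v.2) / _)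
    ring

theorem continuousOn_secF : ContinuousOn (fun p : Fm × (ℝ × ℝ) => secF p.1 p.2) {p | p.1 ∈ PosF ∧ p.2 ≠ 0} := by
  have hind : Topology.IsInducing (fun g : SL(2, ℝ) => g.1) := ⟨rfl⟩
  rw [hind.continuousOn_iff]
  have hD : Continuous fun p : Fm × (ℝ × ℝ) => Real.sqrt (dtF p.1) := by
    unfold dtF
    fun_prop
  have hDne : ∀ p ∈ {p : Fm × (ℝ × ℝ) | p.1 ∈ PosF ∧ p.2 ≠ 0}, Real.sqrt (dtF p.1) ≠ 0 :=
    fun p hp => (Real.sqrt_pos.2 (dtF_pos hp.1)).ne'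
  have hq : ContinuousOn (fun p : Fm × (ℝ × ℝ) => Real.sqrt (qf p.1 p.2)) {p | p.1 ∈ PosF ∧ p.2 ≠ 0} := by
    apply Real.continuous_sqrt.comp_continuousOn
    unfold qf
    exact ContinuousOn.div (by fun_prop) hD.continuousOn hDne
  have hqne : ∀ p ∈ {p : Fm × (ℝ × ℝ) | p.1 ∈ PosF ∧ p.2 ≠ 0}, Real.sqrt (qf p.1 p.2) ≠ 0 :=
    fun p hp => (Real.sqrt_pos.2 (qf_pos hp.1 hp.2)).ne'
  have hM : ContinuousOn (fun p : Fm × (ℝ × ℝ) => secM p.1 p.2) {p | p.1 ∈ PosF ∧ p.2 ≠ 0} := by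
    apply continuousOn_pi.2
    intro i
    apply continuousOn_pi.2
    intro j
    have h00 : ContinuousOn (fun p : Fm × (ℝ × ℝ) => p.2.1 / Real.sqrt (qf p.1 p.2)) {p | p.1 ∈ PosF ∧ p.2 ≠ 0} :=
      ContinuousOn.div (by fun_prop) hq hqne
    have h10 : ContinuousOn (fun p : Fm × (ℝ × ℝ) => p.2.2 / Real.sqrt (qf p.1 p.2)) {p | p.1 ∈ PosF ∧ p.2 ≠ 0} :=
      ContinuousOn.div (by fun_prop) hq hqne
    have h01 : ContinuousOn (fun p : Fm × (ℝ × ℝ) =>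
        (p.1.2.1 * p.2.1 - p.1.1 * p.2.2) / (Real.sqrt (dtF p.1) * Real.sqrt (qf p.1 p.2))) {p | p.1 ∈ PosF ∧ p.2 ≠ 0} :=
      ContinuousOn.div (by fun_prop) (hD.continuousOn.mul hq) fun p hp => mul_ne_zero (hDne p hp) (hqne p hp)
    have h11 : ContinuousOn (fun p : Fm × (ℝ × ℝ) =>
        (p.1.2.2 * p.2.1 - p.1.2.1 * p.2.2) / (Real.sqrt (dtF p.1) * Real.sqrt (qf p.1 p.2))) {p | p.1 ∈ PosF ∧ p.2 ≠ 0} :=
      ContinuousOn.div (by fun_prop) (hD.continuousOn.mul hq) fun p hp => mul_ne_zero (hDne p hp) (hqne p hp)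
    fin_cases i <;> fin_cases j
    · exact h00
    · exact h01
    · exact h10
    · exact h11
  exact hM.congr fun p hp => secF_val hp.1 hp.2

end Pool.AML
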