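import Pool.Agent.AML.X.X1a

/-! [AML-X1b] The map `pt : PosF × (ℝ ∪ {∞}) → T1M`.

`pt Q (cls v) = cl (secF Q v)` for every `v ≠ 0`: `rep (cls v)` is a non zero multiple of `v`, `secF_smul_vec`, `secF_neg`, and
`cl (-g) = cl g` because `-1` is in the image of `SL(2,ℤ)`. (`cl g = cl h ↔ h * g⁻¹ ∈ SL2Z`: `Quotient.eq`, `QuotientGroup.rightRel_apply`.)
`pt_gram`: `secF_gram`, `mob_infty`. `pt_act`: `secF_fa`, `cl (iR γ * g) = cl g`. `pt_eq`: `cl (secF Q v) = cl (secF Q' v')` gives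
`γ` with `secF Q' v' = iR γ * secF Q v`; compare Gram matrices (`gram_mul`, `gram_secF`) and first columns (`mob`).
Continuity: `pt` composed with the open quotient map `PosF × {v ≠ 0} → PosF × OnePoint ℝ` (`isOpenMap_cls`, product with the identity) is
`cl ∘ secF`, continuous. Quotient map: `pt (gram g) (mob g ∞) = cl g`, and `cl` is a quotient map, `g ↦ (gram g, mob g ∞)` is continuous
(`IsQuotientMap.of_comp` / `IsQuotientMap.of_comp_isQuotientMap`). -/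

set_option linter.style.longLine false

open Matrix Topology Set
open scoped MatrixGroups

namespace Pool.AML

theorem cl_eq_iff (g h : SL(2, ℝ)) : cl g = cl h ↔ ∃ γ : SL(2, ℤ), h = iR γ * g := by
  have h1 : cl g = cl h ↔ h * g⁻¹ ∈ SL2Z := by
    rw [← QuotientGroup.rightRel_apply (s := SL2Z)]
    exact Quotient.eq
  rw [h1]
  constructor
  · rintro ⟨γ, hγ⟩
    refine ⟨γ, ?_⟩
    have h2 : iR γ = h * g⁻¹ := hγ
    rw [h2, inv_mul_cancel_right]
  · rintro ⟨γ, rfl⟩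
    refine ⟨γ, ?_⟩
    rw [mul_inv_cancel_right]
    rfl

private theorem x1b_neg (g : SL(2, ℝ)) : cl (-g) = cl g := by
  symm
  rw [cl_eq_iff]
  refine ⟨-1, ?_⟩
  apply Subtype.ext
  ext i j
  have e : (iR (-1 : SL(2, ℤ))).1 = -1 := by
    ext i j
    change ((-1 : SL(2, ℤ)).1 i j : ℝ) = (-1 : Matrix (Fin 2) (Fin 2) ℝ) i j
    fin_cases i <;> fin_cases j <;> simp
  have e2 : (iR (-1 : SL(2, ℤ)) * g).1 = (iR (-1 : SL(2, ℤ))).1 * g.1 := rfl
  rw [e2, e, neg_mul, one_mul]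
  rfl

private theorem x1b_rep {v : ℝ × ℝ} (hv : v ≠ 0) : ∃ c : ℝ, c ≠ 0 ∧ rep (cls v) = c • v := by
  by_cases h : v.2 = 0
  · have hx : v.1 ≠ 0 := fun hx => hv (Prod.ext hx h)
    refine ⟨v.1⁻¹, inv_ne_zero hx, ?_⟩
    rw [cls, if_pos h]
    refine Prod.ext ?_ ?_
    · change (1 : ℝ) = v.1⁻¹ * v.1
      rw [inv_mul_cancel₀ hx]
    · change (0 : ℝ) = v.1⁻¹ * v.2
      rw [h, mul_zero]
  · refine ⟨v.2⁻¹, inv_ne_zero h, ?_⟩
    rw [cls, if_neg h]
    refine Prod.ext ?_ ?_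
    · change v.1 / v.2 = v.2⁻¹ * v.1
      rw [div_eq_inv_mul]
    · change (1 : ℝ) = v.2⁻¹ * v.2
      rw [inv_mul_cancel₀ h]

theorem pt_cls {Q : Fm} (hQ : Q ∈ PosF) {v : ℝ × ℝ} (hv : v ≠ 0) : pt Q (cls v) = cl (secF Q v) := by
  obtain ⟨c, hc, h⟩ := x1b_rep hv
  rw [pt, h]
  rcases lt_or_gt_of_ne hc with h1 | h1
  · have e : c • v = (-c) • (-v) := by rw [neg_smul, smul_neg, neg_neg]
    rw [e, secF_smul_vec hQ (neg_ne_zero.2 hv) (neg_pos.2 h1), secF_neg hQ hv, x1b_neg]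
  · rw [secF_smul_vec hQ hv h1]

private theorem x1b_col (g : SL(2, ℝ)) : ((g.1 0 0, g.1 1 0) : ℝ × ℝ) ≠ 0 := by
  intro h
  have h1 : g.1 0 0 = 0 := congrArg Prod.fst h
  have h2 : g.1 1 0 = 0 := congrArg Prod.snd h
  have hd := g.2
  rw [Matrix.det_fin_two, h1, h2] at hd
  norm_num at hd

theorem pt_gram (g : SL(2, ℝ)) : pt (gram g) (mob g OnePoint.infty) = cl g := by
  rw [mob_infty, pt_cls (gram_mem g) (x1b_col g), secF_gram]

theorem pt_smul {Q : Fm} (hQ : Q ∈ PosF) (f : OnePoint ℝ) {c : ℝ} (hc : 0 < c) : pt (c • Q) f = pt Q f := by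
  rw [pt, pt, secF_smul hQ _ hc]

theorem pt_act (γ : SL(2, ℤ)) {Q : Fm} (hQ : Q ∈ PosF) (f : OnePoint ℝ) :
    pt (fa (iR γ) Q) (mob (iR γ) f) = pt Q f := by
  rw [mob, pt_cls (fa_mem _ hQ) (mv_ne_zero _ (rep_ne_zero f)), secF_fa _ hQ (rep_ne_zero f), pt]
  symm
  rw [cl_eq_iff]
  exact ⟨γ, rfl⟩

private theorem x1b_mob {Q : Fm} (hQ : Q ∈ PosF) (f : OnePoint ℝ) :
    mob (secF Q (rep f)) OnePoint.infty = f := by
  have hv := rep_ne_zero f
  have ht := Real.sqrt_pos.2 (qf_pos hQ hv)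
  rw [mob_infty, secF_val hQ hv]
  have e : ((secM Q (rep f) 0 0, secM Q (rep f) 1 0) : ℝ × ℝ) = (Real.sqrt (qf Q (rep f)))⁻¹ • rep f := by
    refine Prod.ext ?_ ?_
    · change (rep f).1 / _ = _⁻¹ * (rep f).1
      rw [div_eq_inv_mul]
    · change (rep f).2 / _ = _⁻¹ * (rep f).2
      rw [div_eq_inv_mul]
  rw [e, cls_smul (inv_ne_zero ht.ne'), cls_rep]

theorem pt_eq {Q Q' : Fm} (hQ : Q ∈ PosF) (hQ' : Q' ∈ PosF) {f f' : OnePoint ℝ} (h : pt Q f = pt Q' f') :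
    ∃ γ : SL(2, ℤ), ∃ c : ℝ, 0 < c ∧ Q' = c • fa (iR γ) Q ∧ f' = mob (iR γ) f := by
  obtain ⟨γ, hγ⟩ := (cl_eq_iff _ _).1 h
  have hD := Real.sqrt_pos.2 (dtF_pos hQ)
  have hD' := Real.sqrt_pos.2 (dtF_pos hQ')
  refine ⟨γ, Real.sqrt (dtF Q') * (Real.sqrt (dtF Q))⁻¹, mul_pos hD' (inv_pos.2 hD), ?_, ?_⟩
  · have h1 := congrArg gram hγ
    rw [gram_secF hQ' (rep_ne_zero f'), gram_mul, gram_secF hQ (rep_ne_zero f), fa_smul] at h1
    rw [mul_smul, ← h1, smul_smul, mul_inv_cancel₀ hD'.ne', one_smul]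
  · have h1 := congrArg (fun g => mob g OnePoint.infty) hγ
    rwa [x1b_mob hQ', mob_mul, x1b_mob hQ] at h1

theorem pt_surj (x : T1M) : ∃ Q ∈ PosF, ∃ f : OnePoint ℝ, pt Q f = x := by
  induction x using Quotient.inductionOn with
  | _ g => exact ⟨gram g, gram_mem g, mob g OnePoint.infty, pt_gram g⟩

private theorem x1b_cl : IsQuotientMap (cl : SL(2, ℝ) → T1M) := isQuotientMap_quot_mk

theorem continuous_pt : Continuous (fun p : PosF × OnePoint ℝ => pt p.1.1 p.2) := by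
  have hq : IsQuotientMap (Prod.map (id : PosF → PosF) (fun v : {v : ℝ × ℝ // v ≠ 0} => cls v.1)) :=
    (IsOpenMap.id.prodMap isOpenMap_cls).isQuotientMap
      (continuous_id.prodMap isQuotientMap_cls.continuous)
      (Function.surjective_id.prodMap isQuotientMap_cls.surjective)
  rw [hq.continuous_iff]
  have e : (fun p : PosF × OnePoint ℝ => pt p.1.1 p.2) ∘
      (Prod.map (id : PosF → PosF) (fun v : {v : ℝ × ℝ // v ≠ 0} => cls v.1)) =
      fun p : PosF × {v : ℝ × ℝ // v ≠ 0} => cl (secF p.1.1 p.2.1) := by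
    funext p
    exact pt_cls p.1.2 p.2.2
  rw [e]
  apply x1b_cl.continuous.comp
  have h1 := continuousOn_secF
  exact h1.comp_continuous (f := fun p : PosF × {v : ℝ × ℝ // v ≠ 0} => ((p.1.1, p.2.1) : Fm × (ℝ × ℝ)))
    (by fun_prop) (fun p => ⟨p.1.2, p.2.2⟩)

theorem isQuotientMap_pt : IsQuotientMap (fun p : PosF × OnePoint ℝ => pt p.1.1 p.2) := by
  have hval : Continuous (fun g : SL(2, ℝ) => g.1) := by
    have hind : Topology.IsInducing (fun g : SL(2, ℝ) => g.1) := ⟨rfl⟩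
    exact hind.continuous
  have hent : ∀ i j, Continuous (fun g : SL(2, ℝ) => g.1 i j) := fun i j =>
    (continuous_apply j).comp ((continuous_apply i).comp hval)
  have hg : Continuous (fun g : SL(2, ℝ) => gram g) := by
    unfold gram
    have h00 := hent 0 0
    have h01 := hent 0 1
    have h10 := hent 1 0
    have h11 := hent 1 1
    exact ((h00.pow 2).add (h01.pow 2)).prodMk (((h00.mul h10).add (h01.mul h11)).prodMk ((h10.pow 2).add (h11.pow 2)))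
  have hs : Continuous (fun g : SL(2, ℝ) => ((⟨gram g, gram_mem g⟩, mob g OnePoint.infty) : PosF × OnePoint ℝ)) :=
    (hg.subtype_mk _).prodMk continuous_mob_infty
  refine IsQuotientMap.of_comp hs continuous_pt ?_
  have e : (fun p : PosF × OnePoint ℝ => pt p.1.1 p.2) ∘
      (fun g : SL(2, ℝ) => ((⟨gram g, gram_mem g⟩, mob g OnePoint.infty) : PosF × OnePoint ℝ)) = cl := by
    funext g
    exact pt_gram g
  rw [e]
  exact x1b_cl

end Pool.AML
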