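import Pool.Agent.AML.X.X1b

/-! [AML-X1c] The modular link in terms of forms.

Let `B ∈ SL(2,ℤ)`, trace `> 2`, entries `(a, b; c, d)`; `c ≠ 0` (otherwise `a d = 1`, trace `±2`), the eigenvalues are `l, 1/l` with
`l = (t + √(t² - 4))/2 > 1`, and `attr = (l - d)/c`: eigenvector `(attr, 1)` for `l`. For a vector `v`:
`Lb (tup B) (nf v) = c x² - (a - d) x y - b y² = det (v, B v)`, zero iff `v` is an eigenvector.
`link_g`: for `g ∈ SL(2,ℝ)`: (∃ l > 1, `B g = g diag(l, 1/l)`) iff (`mob g ∞ = attr (tup B)` and `Lb (tup B) (gram g) = 0`).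
`→`: the first column is an eigenvector for `l > 1` so proportional to `(attr, 1)`; `gram g = nf col₁ + nf col₂`, both columns are eigenvectors.
`←`: `col₁` is an eigenvector for `l`, so `Lb (nf col₁) = 0` hence `Lb (nf col₂) = 0`, `col₂` is an eigenvector, independent of `col₁`, with
eigenvalue `1/l` (determinant).
`pt_link`: `cl g ∈ lift A` iff `g = iR γ⁻¹ * g'`, `A g' = g' diag` for some `γ`, i.e. `B g = g diag` for a conjugate `B = γ A γ⁻¹`. -/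

set_option linter.style.longLine false

open Matrix Topology Set
open scoped MatrixGroups

namespace Pool.AML

private theorem x1c_detZ (γ : SL(2, ℤ)) : γ.1 0 0 * γ.1 1 1 - γ.1 0 1 * γ.1 1 0 = 1 := by
  have := γ.2
  rwa [Matrix.det_fin_two] at this

private theorem x1c_detR (γ : SL(2, ℤ)) :
    (γ.1 0 0 : ℝ) * (γ.1 1 1 : ℝ) - (γ.1 0 1 : ℝ) * (γ.1 1 0 : ℝ) = 1 := by
  have := x1c_detZ γ
  exact_mod_cast this

private theorem x1c_ent (γ A : SL(2, ℤ)) :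
    (γ * A * γ⁻¹).1 0 0 = (γ.1 0 0 * A.1 0 0 + γ.1 0 1 * A.1 1 0) * γ.1 1 1 - (γ.1 0 0 * A.1 0 1 + γ.1 0 1 * A.1 1 1) * γ.1 1 0 ∧
    (γ * A * γ⁻¹).1 0 1 = -(γ.1 0 0 * A.1 0 0 + γ.1 0 1 * A.1 1 0) * γ.1 0 1 + (γ.1 0 0 * A.1 0 1 + γ.1 0 1 * A.1 1 1) * γ.1 0 0 ∧
    (γ * A * γ⁻¹).1 1 0 = (γ.1 1 0 * A.1 0 0 + γ.1 1 1 * A.1 1 0) * γ.1 1 1 - (γ.1 1 0 * A.1 0 1 + γ.1 1 1 * A.1 1 1) * γ.1 1 0 ∧
    (γ * A * γ⁻¹).1 1 1 = -(γ.1 1 0 * A.1 0 0 + γ.1 1 1 * A.1 1 0) * γ.1 0 1 + (γ.1 1 0 * A.1 0 1 + γ.1 1 1 * A.1 1 1) * γ.1 0 0 := by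
  have e : (γ * A * γ⁻¹).1 = γ.1 * A.1 * Matrix.adjugate γ.1 := rfl
  rw [e, Matrix.adjugate_fin_two]
  refine ⟨?_, ?_, ?_, ?_⟩ <;>
    simp only [Matrix.mul_apply, Fin.sum_univ_two, Matrix.of_apply, Matrix.cons_val', Matrix.cons_val_zero,
      Matrix.cons_val_one, Matrix.cons_val_fin_one] <;> ring

theorem Lb_conj (γ A : SL(2, ℤ)) (Q : Fm) : Lb (tup (γ * A * γ⁻¹)) (fa (iR γ) Q) = Lb (tup A) Q := by
  obtain ⟨e1, e2, e3, e4⟩ := x1c_ent γ A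
  have hd := x1c_detR γ
  have i00 : (iR γ).1 0 0 = (γ.1 0 0 : ℝ) := rfl
  have i01 : (iR γ).1 0 1 = (γ.1 0 1 : ℝ) := rfl
  have i10 : (iR γ).1 1 0 = (γ.1 1 0 : ℝ) := rfl
  have i11 : (iR γ).1 1 1 = (γ.1 1 1 : ℝ) := rfl
  have e : Lb (tup (γ * A * γ⁻¹)) (fa (iR γ) Q) =
      ((γ.1 0 0 : ℝ) * (γ.1 1 1 : ℝ) - (γ.1 0 1 : ℝ) * (γ.1 1 0 : ℝ)) ^ 2 * Lb (tup A) Q := by
    simp only [Lb, tup, fa, e1, e2, e3, e4, i00, i01, i10, i11]
    push_cast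
    ring
  rw [e, hd, one_pow, one_mul]

theorem Lb_smul (m : ℤ × ℤ × ℤ × ℤ) (c : ℝ) (Q : Fm) : Lb m (c • Q) = c * Lb m Q := by
  simp only [Lb]
  change (m.2.2.1 : ℝ) * (c * Q.1) - ((m.1 : ℝ) - m.2.2.2) * (c * Q.2.1) - (m.2.1 : ℝ) * (c * Q.2.2) = _
  ring

theorem Lb_add (m : ℤ × ℤ × ℤ × ℤ) (Q Q' : Fm) : Lb m (Q + Q') = Lb m Q + Lb m Q' := by
  simp only [Lb]
  change (m.2.2.1 : ℝ) * (Q.1 + Q'.1) - ((m.1 : ℝ) - m.2.2.2) * (Q.2.1 + Q'.2.1) - (m.2.1 : ℝ) * (Q.2.2 + Q'.2.2) = _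
  ring

private theorem x1c_cne (B : SL(2, ℤ)) (hB : 2 < B.1 0 0 + B.1 1 1) : B.1 1 0 ≠ 0 := by
  intro h
  have hd := x1c_detZ B
  rw [h, mul_zero, sub_zero] at hd
  rcases Int.eq_one_or_neg_one_of_mul_eq_one hd with h1 | h1
  · rw [h1] at hd hB
    omega
  · rw [h1] at hd hB
    omega

private theorem x1c_mat (B : SL(2, ℤ)) (g : SL(2, ℝ)) (l m : ℝ) :
    (B.1.map (Int.cast : ℤ → ℝ)) * g.1 = g.1 * !![l, 0; 0, m] ↔
      ((B.1 0 0 : ℝ) * g.1 0 0 + (B.1 0 1 : ℝ) * g.1 1 0 = g.1 0 0 * l ∧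
       (B.1 0 0 : ℝ) * g.1 0 1 + (B.1 0 1 : ℝ) * g.1 1 1 = g.1 0 1 * m ∧
       (B.1 1 0 : ℝ) * g.1 0 0 + (B.1 1 1 : ℝ) * g.1 1 0 = g.1 1 0 * l ∧
       (B.1 1 0 : ℝ) * g.1 0 1 + (B.1 1 1 : ℝ) * g.1 1 1 = g.1 1 1 * m) := by
  have hL : ∀ i j, ((B.1.map (Int.cast : ℤ → ℝ)) * g.1) i j = (B.1 i 0 : ℝ) * g.1 0 j + (B.1 i 1 : ℝ) * g.1 1 j := by
    intro i j
    rw [Matrix.mul_apply, Fin.sum_univ_two]
    rfl
  have hR0 : ∀ i, (g.1 * !![l, 0; 0, m]) i 0 = g.1 i 0 * l := by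
    intro i
    rw [Matrix.mul_apply, Fin.sum_univ_two]
    change g.1 i 0 * l + g.1 i 1 * 0 = _
    ring
  have hR1 : ∀ i, (g.1 * !![l, 0; 0, m]) i 1 = g.1 i 1 * m := by
    intro i
    rw [Matrix.mul_apply, Fin.sum_univ_two]
    change g.1 i 0 * 0 + g.1 i 1 * m = _
    ring
  constructor
  · intro h
    refine ⟨?_, ?_, ?_, ?_⟩
    · rw [← hL, h, hR0]
    · rw [← hL, h, hR1]
    · rw [← hL, h, hR0]
    · rw [← hL, h, hR1]
  · rintro ⟨h1, h2, h3, h4⟩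
    ext i j
    fin_cases i <;> fin_cases j
    · exact (hL 0 0).trans (h1.trans (hR0 0).symm)
    · exact (hL 0 1).trans (h2.trans (hR1 0).symm)
    · exact (hL 1 0).trans (h3.trans (hR0 1).symm)
    · exact (hL 1 1).trans (h4.trans (hR1 1).symm)

theorem link_g (B : SL(2, ℤ)) (hB : 2 < B.1 0 0 + B.1 1 1) (g : SL(2, ℝ)) :
    (∃ l : ℝ, 1 < l ∧ (B.1.map (Int.cast : ℤ → ℝ)) * g.1 = g.1 * !![l, 0; 0, l⁻¹]) ↔
      (mob g OnePoint.infty = ((attr (tup B) : ℝ) : OnePoint ℝ) ∧ Lb (tup B) (gram g) = 0) := by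
  have hcZ := x1c_cne B hB
  have hc : (B.1 1 0 : ℝ) ≠ 0 := by exact_mod_cast hcZ
  have hdB := x1c_detR B
  have hBR : (2 : ℝ) < (B.1 0 0 : ℝ) + (B.1 1 1 : ℝ) := by exact_mod_cast hB
  have hg : g.1 0 0 * g.1 1 1 - g.1 0 1 * g.1 1 0 = 1 := by
    have := g.2
    rwa [Matrix.det_fin_two] at this
  have hattr : attr (tup B) = ((B.1 0 0 : ℝ) - (B.1 1 1 : ℝ) + Real.sqrt (((B.1 0 0 : ℝ) + (B.1 1 1 : ℝ)) ^ 2 - 4)) / (2 * (B.1 1 0 : ℝ)) := rfl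
  have hLb : Lb (tup B) (gram g) = (B.1 1 0 : ℝ) * (g.1 0 0 ^ 2 + g.1 0 1 ^ 2) -
      ((B.1 0 0 : ℝ) - (B.1 1 1 : ℝ)) * (g.1 0 0 * g.1 1 0 + g.1 0 1 * g.1 1 1) -
      (B.1 0 1 : ℝ) * (g.1 1 0 ^ 2 + g.1 1 1 ^ 2) := rfl
  rw [hattr, hLb, mob_infty]
  simp only [x1c_mat]
  generalize (B.1 0 0 : ℝ) = a at *
  generalize (B.1 0 1 : ℝ) = b at *
  generalize (B.1 1 0 : ℝ) = c at *
  generalize (B.1 1 1 : ℝ) = d at *
  generalize g.1 0 0 = p at *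
  generalize g.1 0 1 = q at *
  generalize g.1 1 0 = r at *
  generalize g.1 1 1 = s at *
  constructor
  · rintro ⟨l, hl, h1, h2, h3, h4⟩
    have hl0 : l ≠ 0 := by positivity
    have htr : a + d = l + l⁻¹ := by
      have e1 : a * (p * s - q * r) = l * (p * s) - l⁻¹ * (q * r) := by linear_combination s * h1 - r * h2
      have e2 : d * (p * s - q * r) = l⁻¹ * (p * s) - l * (q * r) := by linear_combination p * h4 - q * h3
      rw [hg, mul_one] at e1 e2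
      rw [e1, e2]
      linear_combination (l + l⁻¹) * hg
    have hr : r ≠ 0 := by
      intro hr
      rw [hr] at h3 hg
      have h5 : c * p = 0 := by linear_combination h3
      have h6 : p = 0 := (mul_eq_zero.1 h5).resolve_left hc
      rw [h6] at hg
      norm_num at hg
    have hinv : l⁻¹ < 1 := inv_lt_one_of_one_lt₀ hl
    have hw : Real.sqrt ((a + d) ^ 2 - 4) = l - l⁻¹ := by
      have e : (a + d) ^ 2 - 4 = (l - l⁻¹) ^ 2 := by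
        rw [htr]
        have : l * l⁻¹ = 1 := mul_inv_cancel₀ hl0
        linear_combination 4 * this
      rw [e, Real.sqrt_sq]
      linarith
    refine ⟨?_, ?_⟩
    · rw [cls, if_neg hr]
      congr 1
      change p / r = _
      rw [hw, div_eq_div_iff hr (mul_ne_zero two_ne_zero hc)]
      linear_combination 2 * h3 - r * htr
    · linear_combination p * h3 - r * h1 + q * h4 - s * h2
  · rintro ⟨h1, h2⟩
    have hr : r ≠ 0 := by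
      intro hr
      rw [cls, if_pos hr] at h1
      exact OnePoint.infty_ne_coe _ h1
    rw [cls, if_neg hr] at h1
    have h3 : p / r = (a - d + Real.sqrt ((a + d) ^ 2 - 4)) / (2 * c) := OnePoint.coe_injective h1
    have hpos : 0 < (a + d) ^ 2 - 4 := by nlinarith
    have hw0 := Real.sqrt_pos.2 hpos
    have hw2 := Real.sq_sqrt hpos.le
    generalize Real.sqrt ((a + d) ^ 2 - 4) = w at *
    rw [div_eq_div_iff hr (mul_ne_zero two_ne_zero hc)] at h3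
    obtain ⟨l, hl⟩ : ∃ l, l = (a + d + w) / 2 := ⟨_, rfl⟩
    have hl1 : 1 < l := by rw [hl]; linarith
    have hl0 : l ≠ 0 := by positivity
    have hchar : l ^ 2 - (a + d) * l + 1 = 0 := by
      rw [hl]
      linear_combination hw2 / 4
    have k3 : c * p + d * r = r * l := by
      rw [hl]
      linear_combination h3 / 2
    have k1 : a * p + b * r = p * l := by
      apply mul_left_cancel₀ hc
      linear_combination (a - l) * k3 - r * hchar - r * hdB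
    obtain ⟨X, hX⟩ : ∃ X, X = a * q + b * s := ⟨_, rfl⟩
    obtain ⟨Y, hY⟩ : ∃ Y, Y = c * q + d * s := ⟨_, rfl⟩
    have h5 : q * Y = s * X := by
      rw [hX, hY]
      linear_combination h2 - p * k3 + r * k1
    have hm : l * (p * Y - r * X) = 1 := by
      rw [hX, hY]
      linear_combination (-(c * q + d * s)) * k1 + (a * q + b * s) * k3 + (p * s - q * r) * hdB + hg
    have hm' : p * Y - r * X = l⁻¹ := eq_inv_of_mul_eq_one_right hm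
    refine ⟨l, hl1, k1, ?_, k3, ?_⟩
    · rw [← hX, ← hm']
      linear_combination (-X) * hg - p * h5
    · rw [← hY, ← hm']
      linear_combination (-Y) * hg - r * h5

private theorem x1c_tr (γ A : SL(2, ℤ)) : (γ * A * γ⁻¹).1 0 0 + (γ * A * γ⁻¹).1 1 1 = A.1 0 0 + A.1 1 1 := by
  obtain ⟨e1, e2, e3, e4⟩ := x1c_ent γ A
  have hd := x1c_detZ γ
  rw [e1, e4]
  linear_combination (A.1 0 0 + A.1 1 1) * hd

private theorem x1c_mob {Q : Fm} (hQ : Q ∈ PosF) (f : OnePoint ℝ) :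
    mob (secF Q (rep f)) OnePoint.infty = f := by
  have hv := rep_ne_zero f
  have ht := Real.sqrt_pos.2 (qf_pos hQ hv)
  rw [mob_infty, secF_val hQ hv]
  have e : ((secM Q (rep f) 0 0, secM Q (rep f) 1 0) : ℝ × ℝ) = (Real.sqrt (qf Q (rep f)))⁻¹ • rep f := by
    refine Prod.ext ?_ ?_
    · change (rep f).1 / _ = _⁻¹ * (rep f).1
      rw [div_eq_inv_mul]
    · change (rep f).2 / _ = _⁻¹ * (rep f).2
      rw [div_eq_inv_mul]
  rw [e, cls_smul (inv_ne_zero ht.ne'), cls_rep]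

theorem pt_link (S : Finset SL(2, ℤ)) (hS : ∀ A ∈ S, 2 < A.1 0 0 + A.1 1 1) {Q : Fm} (hQ : Q ∈ PosF) (f : OnePoint ℝ) :
    pt Q f ∈ modularLink S ↔ ∃ A ∈ S, ∃ γ : SL(2, ℤ),
      f = ((attr (tup (γ * A * γ⁻¹)) : ℝ) : OnePoint ℝ) ∧ Lb (tup (γ * A * γ⁻¹)) Q = 0 := by
  have hmob := x1c_mob hQ f
  have hgram := gram_secF hQ (rep_ne_zero f)
  have hD := Real.sqrt_pos.2 (dtF_pos hQ)
  have hpt : pt Q f = cl (secF Q (rep f)) := rfl
  rw [hpt]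
  generalize secF Q (rep f) = g0 at *
  have hLb : ∀ m, Lb m (gram g0) = 0 ↔ Lb m Q = 0 := by
    intro m
    rw [hgram, Lb_smul, mul_eq_zero]
    constructor
    · rintro (h | h)
      · exact absurd h (inv_ne_zero hD.ne')
      · exact h
    · exact Or.inr
  have hmem : cl g0 ∈ modularLink S ↔ ∃ A ∈ S, ∃ g : SL(2, ℝ), ∃ l : ℝ, 1 < l ∧ cl g0 = cl g ∧
      (A.1.map (Int.cast : ℤ → ℝ)) * g.1 = g.1 * !![l, 0; 0, l⁻¹] := by
    simp only [modularLink, Set.mem_iUnion, exists_prop]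
    rfl
  rw [hmem]
  constructor
  · rintro ⟨A, hA, g, l, hl, hcl, hAg⟩
    obtain ⟨γ, hγ⟩ := (cl_eq_iff g g0).1 hcl.symm
    refine ⟨A, hA, γ, ?_⟩
    have hB : 2 < (γ * A * γ⁻¹).1 0 0 + (γ * A * γ⁻¹).1 1 1 := by
      rw [x1c_tr]
      exact hS A hA
    have h1 : ((γ * A * γ⁻¹).1.map (Int.cast : ℤ → ℝ)) * g0.1 = g0.1 * !![l, 0; 0, l⁻¹] := by
      have e1 : ((γ * A * γ⁻¹).1.map (Int.cast : ℤ → ℝ)) * g0.1 = (iR (γ * A * γ⁻¹) * g0).1 := rfl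
      have e2 : iR (γ * A * γ⁻¹) * g0 = iR γ * (iR A * g) := by
        rw [hγ, map_mul, map_mul, map_inv]
        group
      rw [e1, e2]
      have e3 : (iR γ * (iR A * g)).1 = (iR γ).1 * ((A.1.map (Int.cast : ℤ → ℝ)) * g.1) := rfl
      have e4 : g0.1 = (iR γ).1 * g.1 := by rw [hγ]; rfl
      rw [e3, hAg, e4, Matrix.mul_assoc]
    obtain ⟨h2, h3⟩ := (link_g _ hB g0).1 ⟨l, hl, h1⟩
    exact ⟨hmob.symm.trans h2, (hLb _).1 h3⟩
  · rintro ⟨A, hA, γ, hf, hL⟩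
    have hB : 2 < (γ * A * γ⁻¹).1 0 0 + (γ * A * γ⁻¹).1 1 1 := by
      rw [x1c_tr]
      exact hS A hA
    obtain ⟨l, hl, h1⟩ := (link_g _ hB g0).2 ⟨hmob.trans hf, (hLb _).2 hL⟩
    refine ⟨A, hA, (iR γ)⁻¹ * g0, l, hl, ?_, ?_⟩
    · symm
      rw [cl_eq_iff]
      exact ⟨γ, by rw [mul_inv_cancel_left]⟩
    · have e1 : ((γ * A * γ⁻¹).1.map (Int.cast : ℤ → ℝ)) * g0.1 = (iR (γ * A * γ⁻¹) * g0).1 := rfl
      rw [e1] at h1
      have e2 : (A.1.map (Int.cast : ℤ → ℝ)) * ((iR γ)⁻¹ * g0).1 = (iR A * ((iR γ)⁻¹ * g0)).1 := rfl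
      have e3 : iR A * ((iR γ)⁻¹ * g0) = (iR γ)⁻¹ * (iR (γ * A * γ⁻¹) * g0) := by
        rw [map_mul, map_mul, map_inv]
        group
      have e4 : ((iR γ)⁻¹ * (iR (γ * A * γ⁻¹) * g0)).1 = ((iR γ)⁻¹).1 * (iR (γ * A * γ⁻¹) * g0).1 := rfl
      have e5 : ((iR γ)⁻¹ * g0).1 = ((iR γ)⁻¹).1 * g0.1 := rfl
      rw [e2, e3, e4, h1, e5, Matrix.mul_assoc]

end Pool.AML
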