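import Pool.Agent.AML.X.Defs
import Pool.Agent.AML.C.C1
import Pool.Agent.AML.F.F1
import Pool.Agent.AML.F.F2

/-! [AML-X2a] Existence of the crossing heights `τ` on the circle.

`ht_pos`: for crossing `k` the end points `lev k`, `rept (levMat k)` have opposite signs: `lev k * rept = -b/c` (product of the roots of
`c z² - (a - d) z - b`) and `b c > 0` (decide on the table), `c ≠ 0`. `ht_sg`: `ht (sg k) = (ht k)⁻¹` since `rept (levMat (sg k)) = -1 / rept (levMat k)` (or from
`lev * rept = -b/c` and the table: `levMat (sg k) = (d, -c, -b, a)`).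
`exists_tau`: the finite set `{lev k}` of the compact Hausdorff (normal) space `OnePoint ℝ` is closed and discrete; Tietze
(`ContinuousMap.exists_restrict_eq`, or `exists_extension` for functions on a closed set) gives a continuous `σ₁` with
`σ₁ (lev k) = log (ht k)` for all crossing `k` (`lev_inj`). Put `σ f = (σ₁ f - σ₁ (SS f)) / 2`, `τ = exp ∘ σ`: `σ (SS f) = -σ f` (`SS_SS`),
and `σ (lev k) = (log (ht k) - log (ht (sg k))) / 2 = log (ht k)` (`SS (lev k) = lev (sg k)` by `SS_coe`, `lev_sg`). -/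

set_option linter.style.longLine false

open Topology Set

namespace Pool.AML

theorem X2a_tab : ∀ k : Fin 54,
    (levMat k).1 * (levMat k).2.2.2 - (levMat k).2.1 * (levMat k).2.2.1 = 1 ∧
    (levMat k).2.2.1 ≠ 0 ∧
    ((levMat k).1 + (levMat k).2.2.2 = 4 ∨ (levMat k).1 + (levMat k).2.2.2 = 10) := by decide

theorem X2a_cr : ∀ k : Fin 54, cr k = true →
    0 < (levMat k).2.1 * (levMat k).2.2.1 ∧
    levMat (sg k) = ((levMat k).2.2.2, -(levMat k).2.2.1, -(levMat k).2.1, (levMat k).1) ∧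
    cr (sg k) = true := by decide

theorem X2a_c (k : Fin 54) : ((levMat k).2.2.1 : ℝ) ≠ 0 := by
  exact_mod_cast (X2a_tab k).2.1

theorem X2a_det (k : Fin 54) :
    ((levMat k).1 : ℝ) * (levMat k).2.2.2 - (levMat k).2.1 * (levMat k).2.2.1 = 1 := by
  exact_mod_cast (X2a_tab k).1

theorem X2a_disc (k : Fin 54) : (0 : ℝ) ≤ (((levMat k).1 : ℝ) + (levMat k).2.2.2) ^ 2 - 4 := by
  rcases (X2a_tab k).2.2 with h | h
  · have h' : ((levMat k).1 : ℝ) + (levMat k).2.2.2 = 4 := by exact_mod_cast h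
    rw [h']; norm_num
  · have h' : ((levMat k).1 : ℝ) + (levMat k).2.2.2 = 10 := by exact_mod_cast h
    rw [h']; norm_num

theorem lev_mul_rept (k : Fin 54) : lev k * rept (levMat k) = -((levMat k).2.1 : ℝ) / (levMat k).2.2.1 := by
  have hc := X2a_c k
  have hd := X2a_det k
  have hs := Real.mul_self_sqrt (X2a_disc k)
  unfold lev attr rept
  set s := Real.sqrt ((((levMat k).1 : ℝ) + (levMat k).2.2.2) ^ 2 - 4) with hsdef
  rw [div_mul_div_comm, div_eq_div_iff (by positivity) hc]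
  have e : (((levMat k).1 : ℝ) - (levMat k).2.2.2 + s) * (((levMat k).1 : ℝ) - (levMat k).2.2.2 - s)
      = -(4 * ((levMat k).2.1 * (levMat k).2.2.1)) := by
    have : (((levMat k).1 : ℝ) - (levMat k).2.2.2 + s) * (((levMat k).1 : ℝ) - (levMat k).2.2.2 - s)
      = (((levMat k).1 : ℝ) - (levMat k).2.2.2) ^ 2 - s * s := by ring
    rw [this, hs]
    linear_combination (-4) * hd
  rw [e]
  ring

theorem lev_add_rept (k : Fin 54) :
    lev k + rept (levMat k) = (((levMat k).1 : ℝ) - (levMat k).2.2.2) / (levMat k).2.2.1 := by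
  have hc := X2a_c k
  unfold lev attr rept
  field_simp
  ring

theorem X2a_val (k : Fin 54) :
    -(lev k * rept (levMat k)) = ((levMat k).2.1 : ℝ) / (levMat k).2.2.1 := by
  rw [lev_mul_rept]; ring

theorem X2a_pos (k : Fin 54) (hk : cr k = true) : 0 < -(lev k * rept (levMat k)) := by
  rw [X2a_val]
  have h : (0 : ℝ) < ((levMat k).2.1 : ℝ) * (levMat k).2.2.1 := by exact_mod_cast (X2a_cr k hk).1
  rcases mul_pos_iff.1 h with ⟨h1, h2⟩ | ⟨h1, h2⟩
  · exact div_pos h1 h2
  · exact div_pos_of_neg_of_neg h1 h2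

theorem ht_pos (k : Fin 54) (hk : cr k = true) : 0 < ht k := Real.sqrt_pos.2 (X2a_pos k hk)

theorem ht_sq (k : Fin 54) (hk : cr k = true) : ht k ^ 2 = -(lev k * rept (levMat k)) :=
  Real.sq_sqrt (X2a_pos k hk).le

theorem ht_sg (k : Fin 54) (hk : cr k = true) : ht (sg k) = (ht k)⁻¹ := by
  unfold ht
  rw [← Real.sqrt_inv]
  congr 1
  rw [X2a_val, X2a_val, (X2a_cr k hk).2.1]
  push_cast
  rw [neg_div_neg_eq, inv_div]

/-- a continuous function with prescribed values at the levels. -/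
theorem exists_prescribed (c : Fin 54 → ℝ) :
    ∃ σ : OnePoint ℝ → ℝ, Continuous σ ∧ ∀ k : Fin 54, σ ((lev k : ℝ) : OnePoint ℝ) = c k := by
  classical
  set S : Set (OnePoint ℝ) := Set.range (fun k : Fin 54 => ((lev k : ℝ) : OnePoint ℝ)) with hS
  have hfin : S.Finite := Set.finite_range _
  have hcl : IsClosed S := hfin.isClosed
  have : Finite S := hfin
  have : DiscreteTopology S := inferInstance
  let f : C(S, ℝ) := ⟨fun x => c x.2.choose, continuous_of_discreteTopology⟩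
  obtain ⟨g, hg⟩ := ContinuousMap.exists_restrict_eq hcl f
  refine ⟨g, g.continuous, fun k => ?_⟩
  have hk : ((lev k : ℝ) : OnePoint ℝ) ∈ S := ⟨k, rfl⟩
  have h1 : g ((lev k : ℝ) : OnePoint ℝ) = f ⟨_, hk⟩ := by
    rw [← hg]; rfl
  rw [h1]
  change c (hk.choose) = c k
  have h2 : (((lev hk.choose : ℝ)) : OnePoint ℝ) = ((lev k : ℝ) : OnePoint ℝ) := hk.choose_spec
  rw [lev_inj (OnePoint.coe_injective h2)]

theorem exists_tau : ∃ τ : OnePoint ℝ → ℝ, Continuous τ ∧ (∀ f, 0 < τ f) ∧ (∀ f, τ (SS f) = (τ f)⁻¹) ∧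
    ∀ k : Fin 54, cr k = true → τ ((lev k : ℝ) : OnePoint ℝ) = ht k := by
  obtain ⟨σ, hσ, hv⟩ := exists_prescribed (fun k => Real.log (ht k))
  refine ⟨fun f => Real.exp ((σ f - σ (SS f)) / 2), ?_, fun f => Real.exp_pos _, fun f => ?_,
    fun k hk => ?_⟩
  · exact Real.continuous_exp.comp ((hσ.sub (hσ.comp continuous_SS)).div_const 2)
  · change Real.exp ((σ (SS f) - σ (SS (SS f))) / 2) = (Real.exp ((σ f - σ (SS f)) / 2))⁻¹
    rw [SS_SS, ← Real.exp_neg]
    congr 1
    ring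
  · change Real.exp ((σ ((lev k : ℝ) : OnePoint ℝ) - σ (SS ((lev k : ℝ) : OnePoint ℝ))) / 2) = ht k
    rw [SS_coe (lev_ne_zero k), ← lev_sg k hk, hv, hv, ht_sg k hk, Real.log_inv]
    have : (Real.log (ht k) - -Real.log (ht k)) / 2 = Real.log (ht k) := by ring
    rw [this, Real.exp_log (ht_pos k hk)]

end Pool.AML
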