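import Pool.Agent.AML.X.X2a

/-! [AML-X2b] Existence of the centres `w : ℝ ∪ {∞} → (0,∞)³` (coordinates `β∞, β0, β1`).

`wl_rho`: `wl (k + 36) = ((wl k).2.1, (wl k).2.2, (wl k).1)`: from the definitions, using (decide over `Fin 54`):
`cr (k + 36) = true ↔ tinv (k + 36 + 36 ...)`: precisely: `tinv (k + 36) = some j ↔ (cr k = true ∧ j = sg k)`, and `cr (k + 72) = cr (k + 18)`,
`tinv k = some j ↔ cr (k + 18) ... ` etc.; the three edges are permuted by `ρ`; and `ht_sg`. (Suggested: prove by `decide` the statements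
`∀ k, (tinv (k + 36) = if cr k then some (sg k) else none)` and `∀ k, (tinv k = if cr (k + 18) then some (sg (k + 18)) else none)`; then everything is in terms of
`cr k, cr (k + 18), cr (k + 36)`, `ht (sg _) = (ht _)⁻¹`, and `(k + 36) + 18 = k`.)
`wl_pos`: exactly two of the three numbers `cr k`, `tinv k ≠ none`, `cr (k + 36)` hold (decide) and `ht_pos`.
`exists_w`: choose continuous `u₁ u₂ u₃` with values `log` of the coordinates of `wl k` at `lev k` (`exists_prescribed`), `W₁ = (exp u₁, exp u₂, exp u₃)`. For a triple put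
`r (a, b, c) = (b, c, a)`; `R = TT ∘ SS` satisfies `R³ = id` (`TS3`), `R (lev k) = lev (k + 36)` (`lev_rho` twice, or `lev_tt`/..: `TT (SS x) = 1 - 1/x`). Define the coordinates of `w f` as the
geometric mean of the corresponding coordinates of `W₁ f`, `r⁻¹ (W₁ (R f))`, `r⁻² (W₁ (R (R f)))`. Then `w (R f) = r (w f)`, `w (lev k) = wl k` because all three are equal to
`wl k` (`wl_rho`). Continuity: `continuous_TT`, `continuous_SS`. -/

set_option linter.style.longLine false

open Topology Set

namespace Pool.AML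

theorem X2b_tinv36 : ∀ k : Fin 54, tinv (k + 36) = if cr k then some (sg k) else none := by decide +kernel

theorem X2b_tinv : ∀ k : Fin 54, tinv k = if cr (k + 18) then some (sg (k + 18)) else none := by decide +kernel

theorem X2b_cr : ∀ k : Fin 54, (cr k && cr (k + 18)) || (cr k && cr (k + 36)) || (cr (k + 18) && cr (k + 36)) := by
  decide +kernel

theorem X2b_add (k : Fin 54) : k + 36 + 36 = k + 18 := by revert k; decide +kernel

theorem X2b_add' (k : Fin 54) : k + 36 + 18 = k := by revert k; decide +kernel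

/-- the coordinates of `wl k` in terms of `cr` and `ht`. -/
theorem X2b_wl (k : Fin 54) : wl k =
    ((if cr k then ht k else 0) + (if cr (k + 18) then (ht (k + 18))⁻¹ else 0),
     (if cr k then (ht k)⁻¹ else 0) + (if cr (k + 36) then ht (k + 36) else 0),
     (if cr (k + 18) then ht (k + 18) else 0) + (if cr (k + 36) then (ht (k + 36))⁻¹ else 0)) := by
  unfold wl
  rw [X2b_tinv k]
  by_cases h : cr (k + 18) = true
  · have e := ht_sg (k + 18) h
    simp only [h, if_true, e, inv_inv]
  · simp only [h, if_false, Bool.false_eq_true]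

theorem wl_rho (k : Fin 54) : wl (k + 36) = ((wl k).2.1, (wl k).2.2, (wl k).1) := by
  rw [X2b_wl (k + 36), X2b_wl k, X2b_add, X2b_add']
  ext <;> simp only [] <;> ring

theorem wl_pos (k : Fin 54) : 0 < (wl k).1 ∧ 0 < (wl k).2.1 ∧ 0 < (wl k).2.2 := by
  rw [X2b_wl k]
  have h := X2b_cr k
  have p0 : cr k = true → 0 < ht k := fun h => ht_pos k h
  have p1 : cr (k + 18) = true → 0 < ht (k + 18) := fun h => ht_pos _ h
  have p2 : cr (k + 36) = true → 0 < ht (k + 36) := fun h => ht_pos _ h
  by_cases h0 : cr k = true <;> by_cases h1 : cr (k + 18) = true <;> by_cases h2 : cr (k + 36) = true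
  · have := p0 h0; have := p1 h1; have := p2 h2
    simp only [h0, h1, h2, if_true]
    exact ⟨by positivity, by positivity, by positivity⟩
  · have := p0 h0; have := p1 h1
    simp only [h0, h1, h2, if_true, Bool.false_eq_true, if_false, add_zero]
    exact ⟨by positivity, by positivity, by positivity⟩
  · have := p0 h0; have := p2 h2
    simp only [h0, h1, h2, if_true, Bool.false_eq_true, if_false, add_zero, zero_add]
    exact ⟨by positivity, by positivity, by positivity⟩
  · simp [h0, h1, h2] at h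
  · have := p1 h1; have := p2 h2
    simp only [h0, h1, h2, if_true, Bool.false_eq_true, if_false, zero_add]
    exact ⟨by positivity, by positivity, by positivity⟩
  · simp [h0, h1, h2] at h
  · simp [h0, h1, h2] at h
  · simp [h0, h1, h2] at h

theorem TS_lev (k : Fin 54) : TT (SS ((lev k : ℝ) : OnePoint ℝ)) = ((lev (k + 36) : ℝ) : OnePoint ℝ) := by
  have h0 := lev_ne_zero k
  have h1 := lev_rho (k + 36)
  rw [X2b_add'] at h1
  -- lev k = 1 / (1 - lev (k+36))
  have h2 : 1 - lev (k + 36) ≠ 0 := by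
    intro h
    rw [h, div_zero] at h1
    exact h0 h1
  rw [SS_coe h0, TT_coe]
  congr 1
  rw [h1]
  field_simp
  ring

theorem X2b_R3 (f : OnePoint ℝ) : TT (SS (TT (SS (TT (SS f))))) = f := TS3 f

theorem exists_w : ∃ w : OnePoint ℝ → ℝ × ℝ × ℝ, Continuous w ∧ (∀ f, 0 < (w f).1 ∧ 0 < (w f).2.1 ∧ 0 < (w f).2.2) ∧
    (∀ f, w (TT (SS f)) = ((w f).2.1, (w f).2.2, (w f).1)) ∧
    ∀ k : Fin 54, w ((lev k : ℝ) : OnePoint ℝ) = wl k := by
  obtain ⟨u1, hu1, v1⟩ := exists_prescribed (fun k => Real.log (wl k).1)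
  obtain ⟨u2, hu2, v2⟩ := exists_prescribed (fun k => Real.log (wl k).2.1)
  obtain ⟨u3, hu3, v3⟩ := exists_prescribed (fun k => Real.log (wl k).2.2)
  have cR : Continuous (fun f => TT (SS f)) := continuous_TT.comp continuous_SS
  have cRR : Continuous (fun f => TT (SS (TT (SS f)))) := cR.comp cR
  -- coordinates: `r (a, b, c) = (b, c, a)`; `w (R f) = r (w f)`
  let g1 : OnePoint ℝ → ℝ := fun f => (u1 f + u3 (TT (SS f)) + u2 (TT (SS (TT (SS f))))) / 3
  let g2 : OnePoint ℝ → ℝ := fun f => (u2 f + u1 (TT (SS f)) + u3 (TT (SS (TT (SS f))))) / 3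
  let g3 : OnePoint ℝ → ℝ := fun f => (u3 f + u2 (TT (SS f)) + u1 (TT (SS (TT (SS f))))) / 3
  have c1 : Continuous g1 := ((hu1.add (hu3.comp cR)).add (hu2.comp cRR)).div_const 3
  have c2 : Continuous g2 := ((hu2.add (hu1.comp cR)).add (hu3.comp cRR)).div_const 3
  have c3 : Continuous g3 := ((hu3.add (hu2.comp cR)).add (hu1.comp cRR)).div_const 3
  refine ⟨fun f => (Real.exp (g1 f), Real.exp (g2 f), Real.exp (g3 f)),
    (Real.continuous_exp.comp c1).prodMk ((Real.continuous_exp.comp c2).prodMk
      (Real.continuous_exp.comp c3)),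
    fun f => ⟨Real.exp_pos _, Real.exp_pos _, Real.exp_pos _⟩, fun f => ?_, fun k => ?_⟩
  · have e1 : g1 (TT (SS f)) = g2 f := by
      simp only [g1, g2, X2b_R3]
      ring
    have e2 : g2 (TT (SS f)) = g3 f := by
      simp only [g2, g3, X2b_R3]
      ring
    have e3 : g3 (TT (SS f)) = g1 f := by
      simp only [g3, g1, X2b_R3]
      ring
    simp only [e1, e2, e3]
  · have p := wl_pos k
    have r1 := wl_rho k
    have r2 := wl_rho (k + 36)
    have e1 : g1 ((lev k : ℝ) : OnePoint ℝ) = Real.log (wl k).1 := by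
      simp only [g1, TS_lev, v1, v2, v3, r2, r1]
      ring
    have e2 : g2 ((lev k : ℝ) : OnePoint ℝ) = Real.log (wl k).2.1 := by
      simp only [g2, TS_lev, v1, v2, v3, r2, r1]
      ring
    have e3 : g3 ((lev k : ℝ) : OnePoint ℝ) = Real.log (wl k).2.2 := by
      simp only [g3, TS_lev, v1, v2, v3, r2, r1]
      ring
    simp only [e1, e2, e3, Real.exp_log p.1, Real.exp_log p.2.1, Real.exp_log p.2.2]

end Pool.AML
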