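import Pool.Agent.AML.X.X1a

/-! [AML-X3] Local finiteness of the Farey triangles: a compact set `K` of positive definite forms meets `γ Tri` for finitely many `γ ∈ SL(2,ℤ)` only.

Let `Q ∈ K`, `Q' = fa (iR γ⁻¹) Q ∈ Tri`, `Q' = β∞ N(1,0) + β0 N(0,1) + β1 N(1,1)`, `β ≥ 0`. Then `Q = β∞ N(γe∞) + β0 N(γe0) + β1 N(γe1)` with the integral vectors
`γ(1,0), γ(0,1), γ(1,1)`. On `K`: `tr Q = Q11 + Q22 ≤ M`, `det Q ≥ δ > 0`. `tr Q = Σ β_i |u_i|²`, `|u_i|² ≥ 1`, so `β_i ≤ M / |u_i|² ≤ M`, and `det Q = Σ_{i<j} β_i β_j`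
(all `|det(u_i, u_j)| = 1`). If two of the three vectors had `|u|² > R := 3 M²/δ` then all three products would be `< M · M/R = δ/3`. So at least two of the
vectors `γe∞, γe0, γe1` have `|u|² ≤ R`; they determine `γ`, finitely many possibilities (entries bounded by an explicit constant: the entries of `γ` are
bounded by `2 √R`; finiteness of integral matrices with bounded entries). -/

set_option linter.style.longLine false

open Matrix Topology Set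
open scoped MatrixGroups

namespace Pool.AML

theorem isOpen_PosF : IsOpen PosF := by
  have h1 : IsOpen {Q : Fm | 0 < Q.1} := isOpen_lt continuous_const continuous_fst
  have h2 : IsOpen {Q : Fm | 0 < Q.1 * Q.2.2 - Q.2.1 ^ 2} :=
    isOpen_lt continuous_const (by fun_prop)
  exact h1.inter h2

theorem X3_conv {a b P1 P2 P3 Q1 Q2 Q3 : ℝ} (ha : 0 ≤ a) (hb : 0 ≤ b) (hab : a + b = 1)
    (hP1 : 0 < P1) (hP : 0 < P1 * P3 - P2 ^ 2) (hQ1 : 0 < Q1) (hQ : 0 < Q1 * Q3 - Q2 ^ 2) :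
    0 < a * P1 + b * Q1 ∧ 0 < (a * P1 + b * Q1) * (a * P3 + b * Q3) - (a * P2 + b * Q2) ^ 2 := by
  have hc : 0 < P1 * Q3 + P3 * Q1 - 2 * P2 * Q2 := by
    have h1 : 0 < P1 * Q1 * (P1 * Q3 + P3 * Q1 - 2 * P2 * Q2) := by
      have e : P1 * Q1 * (P1 * Q3 + P3 * Q1 - 2 * P2 * Q2) =
        P1 ^ 2 * (Q1 * Q3 - Q2 ^ 2) + Q1 ^ 2 * (P1 * P3 - P2 ^ 2) + (P1 * Q2 - Q1 * P2) ^ 2 := by
        ring
      rw [e]
      have := mul_pos (pow_pos hP1 2) hQ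
      have := mul_pos (pow_pos hQ1 2) hP
      positivity
    exact (pos_iff_pos_of_mul_pos h1).1 (mul_pos hP1 hQ1)
  rcases eq_or_lt_of_le ha with h0 | h0
  · have hb1 : b = 1 := by linarith
    subst hb1
    rw [← h0]
    constructor
    · simpa using hQ1
    · simpa using hQ
  · constructor
    · have := mul_pos h0 hP1
      have := mul_nonneg hb hQ1.le
      linarith
    · have e : (a * P1 + b * Q1) * (a * P3 + b * Q3) - (a * P2 + b * Q2) ^ 2 =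
        a ^ 2 * (P1 * P3 - P2 ^ 2) + b ^ 2 * (Q1 * Q3 - Q2 ^ 2) +
          a * b * (P1 * Q3 + P3 * Q1 - 2 * P2 * Q2) := by ring
      rw [e]
      have h1 := mul_pos (pow_pos h0 2) hP
      have h2 := mul_nonneg (sq_nonneg b) hQ.le
      have h3 := mul_nonneg (mul_nonneg ha hb) hc.le
      linarith

theorem convex_PosF : Convex ℝ PosF := by
  intro P hP Q hQ a b ha hb hab
  obtain ⟨P1, P2, P3⟩ := P
  obtain ⟨Q1, Q2, Q3⟩ := Q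
  simp only [PosF, Set.mem_ofPred_eq, Prod.smul_mk, Prod.mk_add_mk, smul_eq_mul] at hP hQ ⊢
  exact X3_conv ha hb hab hP.1 hP.2 hQ.1 hQ.2

theorem finite_SLZ (N : ℤ) : {γ : SL(2, ℤ) | ∀ i j, |γ.1 i j| ≤ N}.Finite := by
  have h1 : (Set.pi Set.univ (fun _ : Fin 2 => Set.pi Set.univ (fun _ : Fin 2 => Set.Icc (-N) N))).Finite :=
    Set.Finite.pi' (fun _ => Set.Finite.pi' (fun _ => Set.finite_Icc (-N) N)) |>.subset (by
      intro x hx i j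
      exact hx i (Set.mem_univ _) j (Set.mem_univ _))
  have h2 : ((fun γ : SL(2, ℤ) => (fun i j => γ.1 i j : Fin 2 → Fin 2 → ℤ)) ⁻¹'
      (Set.pi Set.univ (fun _ : Fin 2 => Set.pi Set.univ (fun _ : Fin 2 => Set.Icc (-N) N)))).Finite := by
    refine Set.Finite.preimage ?_ h1
    intro γ _ δ _ h
    apply Subtype.ext
    exact h
  refine h2.subset ?_
  intro γ hγ
  simp only [Set.mem_preimage, Set.mem_pi, Set.mem_univ, forall_true_left, Set.mem_Icc]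
  intro i j
  exact abs_le.1 (hγ i j)

theorem X3_iR (γ : SL(2, ℤ)) (i j : Fin 2) : (iR γ).1 i j = (γ.1 i j : ℝ) := rfl

theorem X3_bound {x y z A B C M δ : ℝ} (hx : 0 ≤ x) (hy : 0 ≤ y) (hz : 0 ≤ z) (hA : 1 ≤ A) (hB : 1 ≤ B)
    (hC : 1 ≤ C) (hδ : 0 < δ) (hM : x * A + y * B + z * C ≤ M) (hd : δ ≤ x * y + x * z + y * z) :
    (A ≤ 3 * M ^ 2 / δ ∧ B ≤ 3 * M ^ 2 / δ) ∨ (A ≤ 3 * M ^ 2 / δ ∧ C ≤ 3 * M ^ 2 / δ) ∨
      (B ≤ 3 * M ^ 2 / δ ∧ C ≤ 3 * M ^ 2 / δ) := by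
  have hxA : 0 ≤ x * A := mul_nonneg hx (by linarith)
  have hyB : 0 ≤ y * B := mul_nonneg hy (by linarith)
  have hzC : 0 ≤ z * C := mul_nonneg hz (by linarith)
  have hxM : x ≤ M := by nlinarith
  have hyM : y ≤ M := by nlinarith
  have hzM : z ≤ M := by nlinarith
  have hM0 : 0 ≤ M := by linarith
  have key : ∀ {u v D : ℝ}, 0 ≤ u → 0 ≤ v → u * D ≤ M → v ≤ M → 1 ≤ D → δ / 3 ≤ u * v →
      D ≤ 3 * M ^ 2 / δ := by
    intro u v D hu hv h1 h2 h3 h4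
    rw [le_div_iff₀ hδ]
    have h5 : δ / 3 * D ≤ (u * v) * D := mul_le_mul_of_nonneg_right h4 (by linarith)
    have h6 : (u * D) * v ≤ M * M := mul_le_mul h1 h2 hv hM0
    nlinarith
  have hxA' : x * A ≤ M := by linarith
  have hyB' : y * B ≤ M := by linarith
  have hzC' : z * C ≤ M := by linarith
  by_cases h1 : δ / 3 ≤ x * y
  · exact Or.inl ⟨key hx hy hxA' hyM hA h1, key hy hx hyB' hxM hB (by linarith [mul_comm x y])⟩
  by_cases h2 : δ / 3 ≤ x * z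
  · exact Or.inr (Or.inl ⟨key hx hz hxA' hzM hA h2, key hz hx hzC' hxM hC (by linarith [mul_comm x z])⟩)
  have h3 : δ / 3 ≤ y * z := by
    push Not at h1 h2
    linarith
  exact Or.inr (Or.inr ⟨key hy hz hyB' hzM hB h3, key hz hy hzC' hyM hC (by linarith [mul_comm y z])⟩)

theorem X3_one_le {a b c d : ℤ} (h : a * d - b * c = 1) :
    (1 : ℝ) ≤ (a : ℝ) ^ 2 + (c : ℝ) ^ 2 := by
  have h1 : (1 : ℤ) ≤ a ^ 2 + c ^ 2 := by
    by_contra hcon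
    have h2 : a ^ 2 + c ^ 2 = 0 := by
      have := sq_nonneg a
      have := sq_nonneg c
      omega
    have ha : a = 0 := by
      have := sq_nonneg a
      have := sq_nonneg c
      exact pow_eq_zero_iff (two_ne_zero) |>.1 (by omega)
    have hc : c = 0 := by
      have := sq_nonneg a
      have := sq_nonneg c
      exact pow_eq_zero_iff (two_ne_zero) |>.1 (by omega)
    rw [ha, hc] at h
    simp at h
  exact_mod_cast h1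

theorem X3_abs {a c : ℤ} {R : ℝ} (h : (a : ℝ) ^ 2 + (c : ℝ) ^ 2 ≤ R) :
    |(a : ℝ)| ≤ R ∧ |(c : ℝ)| ≤ R := by
  have key : ∀ x : ℤ, |(x : ℝ)| ≤ (x : ℝ) ^ 2 := by
    intro x
    have : |x| ≤ x ^ 2 := by
      rw [← sq_abs]
      have h0 := abs_nonneg x
      rcases lt_or_ge 0 |x| with h1 | h1
      · nlinarith
      · have : |x| = 0 := le_antisymm h1 h0
        rw [this]; norm_num
    exact_mod_cast this
  exact ⟨by nlinarith [key a, sq_nonneg (c : ℝ)], by nlinarith [key c, sq_nonneg (a : ℝ)]⟩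

/-- formulas for `Q` in terms of the barycentric coordinates of `fa (iR γ⁻¹) Q`. -/
theorem X3_formula (γ : SL(2, ℤ)) (Q : Fm) {x y z : ℝ}
    (hx : (fa (iR γ⁻¹) Q).1 - (fa (iR γ⁻¹) Q).2.1 = x) (hy : (fa (iR γ⁻¹) Q).2.2 - (fa (iR γ⁻¹) Q).2.1 = y)
    (hz : (fa (iR γ⁻¹) Q).2.1 = z) :
    Q.1 = x * (γ.1 0 0 : ℝ) ^ 2 + y * (γ.1 0 1 : ℝ) ^ 2 + z * ((γ.1 0 0 : ℝ) + γ.1 0 1) ^ 2 ∧
    Q.2.2 = x * (γ.1 1 0 : ℝ) ^ 2 + y * (γ.1 1 1 : ℝ) ^ 2 + z * ((γ.1 1 0 : ℝ) + γ.1 1 1) ^ 2 ∧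
    Q.1 * Q.2.2 - Q.2.1 ^ 2 = x * y + x * z + y * z := by
  have hQ : Q = fa (iR γ) (fa (iR γ⁻¹) Q) := by
    rw [← fa_mul, ← map_mul, mul_inv_cancel, map_one, fa_one]
  have hdet : (γ.1 0 0 : ℝ) * γ.1 1 1 - γ.1 0 1 * γ.1 1 0 = 1 := by
    have h := γ.2
    rw [Matrix.det_fin_two] at h
    exact_mod_cast h
  generalize fa (iR γ⁻¹) Q = Q' at hx hy hz hQ
  obtain ⟨P1, P2, P3⟩ := Q'
  simp only at hx hy hz
  have hP2 : P2 = z := hz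
  have hP1 : P1 = x + z := by linarith
  have hP3 : P3 = y + z := by linarith
  subst hP2
  subst hP1
  subst hP3
  rw [hQ]
  simp only [fa, X3_iR]
  refine ⟨by ring, by ring, ?_⟩
  have : ∀ a b c d : ℝ, a * d - b * c = 1 →
      (a ^ 2 * (x + P2) + 2 * a * b * P2 + b ^ 2 * (y + P2)) *
        (c ^ 2 * (x + P2) + 2 * c * d * P2 + d ^ 2 * (y + P2)) -
      (a * c * (x + P2) + (a * d + b * c) * P2 + b * d * (y + P2)) ^ 2 = x * y + x * P2 + y * P2 := by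
    intro a b c d h
    have e : (a ^ 2 * (x + P2) + 2 * a * b * P2 + b ^ 2 * (y + P2)) *
        (c ^ 2 * (x + P2) + 2 * c * d * P2 + d ^ 2 * (y + P2)) -
      (a * c * (x + P2) + (a * d + b * c) * P2 + b * d * (y + P2)) ^ 2 =
      (a * d - b * c) ^ 2 * (x * y + x * P2 + y * P2) := by ring
    rw [e, h]; ring
  exact this _ _ _ _ hdet

theorem X3_entries {a b c d : ℤ} {x y z M δ : ℝ} (h : a * d - b * c = 1) (hx : 0 ≤ x) (hy : 0 ≤ y) (hz : 0 ≤ z)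
    (hδ : 0 < δ)
    (hM : (x * (a : ℝ) ^ 2 + y * (b : ℝ) ^ 2 + z * ((a : ℝ) + b) ^ 2) +
      (x * (c : ℝ) ^ 2 + y * (d : ℝ) ^ 2 + z * ((c : ℝ) + d) ^ 2) ≤ M)
    (hd : δ ≤ x * y + x * z + y * z) :
    (|(a : ℝ)| ≤ 2 * (3 * M ^ 2 / δ) ∧ |(b : ℝ)| ≤ 2 * (3 * M ^ 2 / δ)) ∧
      |(c : ℝ)| ≤ 2 * (3 * M ^ 2 / δ) ∧ |(d : ℝ)| ≤ 2 * (3 * M ^ 2 / δ) := by
  have hA : (1 : ℝ) ≤ (a : ℝ) ^ 2 + (c : ℝ) ^ 2 := X3_one_le h
  have hB : (1 : ℝ) ≤ (b : ℝ) ^ 2 + (d : ℝ) ^ 2 := by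
    have : b * (-c) - (-a) * d = 1 := by linarith
    have h1 := X3_one_le (a := b) (b := -a) (c := d) (d := -c) (by linarith)
    exact h1
  have hC : (1 : ℝ) ≤ (((a + b : ℤ)) : ℝ) ^ 2 + (((c + d : ℤ)) : ℝ) ^ 2 := by
    exact X3_one_le (a := a + b) (b := b) (c := c + d) (d := d) (by linarith)
  have hC' : (1 : ℝ) ≤ ((a : ℝ) + b) ^ 2 + ((c : ℝ) + d) ^ 2 := by
    push_cast at hC
    exact hC
  have hM' : x * ((a : ℝ) ^ 2 + (c : ℝ) ^ 2) + y * ((b : ℝ) ^ 2 + (d : ℝ) ^ 2) +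
      z * (((a : ℝ) + b) ^ 2 + ((c : ℝ) + d) ^ 2) ≤ M := by
    linarith
  have hR0 : 0 ≤ 3 * M ^ 2 / δ := by positivity
  rcases X3_bound hx hy hz hA hB hC' hδ hM' hd with ⟨h1, h2⟩ | ⟨h1, h2⟩ | ⟨h1, h2⟩
  · obtain ⟨p1, p2⟩ := X3_abs h1
    obtain ⟨q1, q2⟩ := X3_abs h2
    exact ⟨⟨by linarith, by linarith⟩, by linarith, by linarith⟩
  · obtain ⟨p1, p2⟩ := X3_abs h1
    have h2' : (((a + b : ℤ)) : ℝ) ^ 2 + (((c + d : ℤ)) : ℝ) ^ 2 ≤ 3 * M ^ 2 / δ := by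
      push_cast; exact h2
    obtain ⟨q1, q2⟩ := X3_abs h2'
    push_cast at q1 q2
    have e1 : |(b : ℝ)| ≤ |(a : ℝ) + b| + |(a : ℝ)| := by
      have := abs_sub ((a : ℝ) + b) (a : ℝ)
      simpa using this
    have e2 : |(d : ℝ)| ≤ |(c : ℝ) + d| + |(c : ℝ)| := by
      have := abs_sub ((c : ℝ) + d) (c : ℝ)
      simpa using this
    exact ⟨⟨by linarith, by linarith⟩, by linarith, by linarith⟩
  · obtain ⟨p1, p2⟩ := X3_abs h1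
    have h2' : (((a + b : ℤ)) : ℝ) ^ 2 + (((c + d : ℤ)) : ℝ) ^ 2 ≤ 3 * M ^ 2 / δ := by
      push_cast; exact h2
    obtain ⟨q1, q2⟩ := X3_abs h2'
    push_cast at q1 q2
    have e1 : |(a : ℝ)| ≤ |(a : ℝ) + b| + |(b : ℝ)| := by
      have := abs_sub ((a : ℝ) + b) (b : ℝ)
      simpa using this
    have e2 : |(c : ℝ)| ≤ |(c : ℝ) + d| + |(d : ℝ)| := by
      have := abs_sub ((c : ℝ) + d) (d : ℝ)
      simpa using this
    exact ⟨⟨by linarith, by linarith⟩, by linarith, by linarith⟩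

theorem tri_finite (K : Set Fm) (hK : IsCompact K) (hP : K ⊆ PosF) :
    {γ : SL(2, ℤ) | ∃ Q ∈ K, fa (iR γ⁻¹) Q ∈ Tri}.Finite := by
  rcases K.eq_empty_or_nonempty with h0 | hne
  · subst h0
    simp
  obtain ⟨Qm, hQm, hmax⟩ := hK.exists_isMaxOn hne
    (f := fun Q : Fm => Q.1 + Q.2.2) (by fun_prop)
  obtain ⟨Qd, hQd, hmin⟩ := hK.exists_isMinOn hne
    (f := fun Q : Fm => Q.1 * Q.2.2 - Q.2.1 ^ 2) (by fun_prop)
  have hδ0 : 0 < Qd.1 * Qd.2.2 - Qd.2.1 ^ 2 := (hP hQd).2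
  obtain ⟨N, hN⟩ := exists_int_gt (2 * (3 * (Qm.1 + Qm.2.2) ^ 2 / (Qd.1 * Qd.2.2 - Qd.2.1 ^ 2)))
  refine (finite_SLZ N).subset ?_
  rintro γ ⟨Q, hQ, hT⟩
  have hdet : γ.1 0 0 * γ.1 1 1 - γ.1 0 1 * γ.1 1 0 = 1 := by
    have h := γ.2
    rw [Matrix.det_fin_two] at h
    exact h
  obtain ⟨hT1, hT2, hT3⟩ := hT
  obtain ⟨f1, f2, f3⟩ := X3_formula γ Q rfl rfl rfl
  have hM : Q.1 + Q.2.2 ≤ Qm.1 + Qm.2.2 := isMaxOn_iff.1 hmax Q hQ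
  have hD : Qd.1 * Qd.2.2 - Qd.2.1 ^ 2 ≤ Q.1 * Q.2.2 - Q.2.1 ^ 2 := isMinOn_iff.1 hmin Q hQ
  have hmain := X3_entries (M := Qm.1 + Qm.2.2) (δ := Qd.1 * Qd.2.2 - Qd.2.1 ^ 2) hdet (sub_nonneg.2 hT2) (sub_nonneg.2 hT3) hT1 hδ0
    (by rw [← f1, ← f2]; exact hM) (by rw [← f3]; exact hD)
  obtain ⟨⟨h1, h2⟩, h3, h4⟩ := hmain
  have key : ∀ t : ℤ, |(t : ℝ)| ≤ 2 * (3 * (Qm.1 + Qm.2.2) ^ 2 / (Qd.1 * Qd.2.2 - Qd.2.1 ^ 2)) → |t| ≤ N := by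
    intro t ht
    have : |(t : ℝ)| ≤ (N : ℝ) := le_trans ht hN.le
    exact_mod_cast this
  intro i j
  fin_cases i <;> fin_cases j
  · exact key _ h1
  · exact key _ h2
  · exact key _ h3
  · exact key _ h4

/-- open neighbourhood version. -/
theorem tri_locallyFinite {Q : Fm} (hQ : Q ∈ PosF) :
    ∃ U ∈ 𝓝 Q, {γ : SL(2, ℤ) | ∃ Q' ∈ U, fa (iR γ⁻¹) Q' ∈ Tri}.Finite := by
  obtain ⟨K, hK, hKP, hKc⟩ := local_compact_nhds (isOpen_PosF.mem_nhds hQ)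
  exact ⟨K, hK, tri_finite K hKc hKP⟩

end Pool.AML
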