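import Pool.Agent.AML.X.FDefs

/-! [AML-X4a] Algebra of the flag coordinates.

In barycentric coordinates `β∞ = Q11 - Q12`, `β0 = Q22 - Q12`, `β1 = Q12`; the coordinates `μ = crd s f Q` are characterised by
`Q = μ0 N∞ + μ1 T0v f + μ2 wF f` (left), `Q = μ0 N∞ + μ1 T1v f + μ2 wF f` (right). `crd_b0`: direct. `crd_tri`: `μ ≥ 0 → Q ∈ Tri`.
Neighbours in the frame of the flag (`τ = tau f`, `w = wv f`, `β = bary` coordinates of `Q`):
* type 1: `μ1^R = -(τ' w1 / (w0 τ)) μ1^L`, `τ' = tau (TTi f)`, and if `μ1 = 0` all coordinates agree;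
* type 0, left: `Q' = fa ρ Q` has `β' = (β0, β1, β∞)`, level `f' = TT (SS f)`, `wv f' = (w0, w1, w∞)`, `TTi f' = SS f`, `tau (SS f) = 1/τ`, so
  `μ2' = β0'/w0' = β1/w1 = μ2`, `μ1' = (1/τ)(β∞ - w∞ μ2) = μ1 + μ0/τ`, `μ0' = -μ0/τ²`; type 0, right: inverse;
* type 2, left: `Q' = fa T Q` has `β' = (β∞ + 2β1, -β1, β0 + 2β1)`, level `f' = TT f`: `μ2' = -(w1(f)/w0(f')) μ2`; if `μ2 = 0`, `β1 = 0`: `μ1' = τ β0 = μ1`, `μ0' = μ0`; type 2, right: inverse.
`crg_nbX_*`: `crg f (nbX p a) Q` is computed in the frame of `p` because `iR (γ ρ⁻¹)⁻¹ = iR ρ * iR γ⁻¹` etc. (`fa_mul`, `mob_mul`), `mob (iR Rz) f = TT (SS f)`,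
`mob (iR Tz) f = TT f`. -/

set_option linter.style.longLine false

open Matrix Topology Set
open scoped MatrixGroups

namespace Pool.AML

theorem X4a_iR_apply (γ : SL(2, ℤ)) (i j : Fin 2) : (iR γ).1 i j = ((γ.1 i j : ℤ) : ℝ) := rfl

theorem X4a_iR_Tz : (iR Tz).1 = !![1, 1; 0, 1] := by
  ext i j
  rw [X4a_iR_apply]
  fin_cases i <;> fin_cases j <;> simp [Tz]

theorem X4a_iR_Rz : (iR Rz).1 = !![1, -1; 1, 0] := by
  ext i j
  rw [X4a_iR_apply]
  fin_cases i <;> fin_cases j <;> simp [Rz]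

theorem X4a_mv_Tz (v : ℝ × ℝ) : mv (iR Tz) v = (v.1 + v.2, v.2) := by
  unfold mv; rw [X4a_iR_Tz]; simp

theorem X4a_mv_Rz (v : ℝ × ℝ) : mv (iR Rz) v = (v.1 - v.2, v.1) := by
  unfold mv; rw [X4a_iR_Rz]; simp; ring

theorem X4a_fa_Tz (Q : Fm) : fa (iR Tz) Q = (Q.1 + 2 * Q.2.1 + Q.2.2, Q.2.1 + Q.2.2, Q.2.2) := by
  unfold fa; rw [X4a_iR_Tz]; simp

theorem X4a_fa_Rz (Q : Fm) : fa (iR Rz) Q = (Q.1 - 2 * Q.2.1 + Q.2.2, Q.1 - Q.2.1, Q.1) := by
  unfold fa; rw [X4a_iR_Rz]; simp; constructor <;> ring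

theorem mob_Tz (f : OnePoint ℝ) : mob (iR Tz) f = TT f := by
  unfold mob
  rw [X4a_mv_Tz]
  conv_rhs => rw [← cls_rep f]
  rw [TT_cls (rep_ne_zero f)]

theorem mob_Rz (f : OnePoint ℝ) : mob (iR Rz) f = TT (SS f) := by
  unfold mob
  rw [X4a_mv_Rz]
  conv_rhs => rw [← cls_rep f]
  rw [SS_cls (rep_ne_zero f), TT_cls]
  · congr 1
    ext
    · simp; ring
    · rfl
  · intro h
    apply rep_ne_zero f
    have h1 := congrArg Prod.fst h
    have h2 := congrArg Prod.snd h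
    simp at h1 h2
    exact Prod.ext h2 h1

theorem X4a_tau (f : OnePoint ℝ) : 0 < tau f := tau_spec.2.1 f
theorem X4a_w (f : OnePoint ℝ) : 0 < (wv f).1 ∧ 0 < (wv f).2.1 ∧ 0 < (wv f).2.2 := wv_spec.2.1 f

theorem crd_left (f : OnePoint ℝ) (Q : Fm) :
    Q = crd true f Q 0 • Ninf + crd true f Q 1 • T0v f + crd true f Q 2 • wF f := by
  have ht := (X4a_tau f).ne'
  obtain ⟨ha, hb, hc⟩ := X4a_w f
  obtain ⟨q1, q2, q3⟩ := Q
  have e0 : crd true f (q1, q2, q3) 0 = (q1 - q2) - tau f * (tau f * ((q3 - q2) - (wv f).2.1 * (q2 / (wv f).2.2))) - (wv f).1 * (q2 / (wv f).2.2) := rfl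
  have e1 : crd true f (q1, q2, q3) 1 = tau f * ((q3 - q2) - (wv f).2.1 * (q2 / (wv f).2.2)) := rfl
  have e2 : crd true f (q1, q2, q3) 2 = q2 / (wv f).2.2 := rfl
  rw [e0, e1, e2]
  have hc' := hc.ne'
  ext
  · simp only [Ninf, T0v, wF, bary, Prod.smul_mk, Prod.mk_add_mk, smul_eq_mul]
    field_simp
    ring
  · simp only [Ninf, T0v, wF, bary, Prod.smul_mk, Prod.mk_add_mk, smul_eq_mul]
    field_simp
    ring
  · simp only [Ninf, T0v, wF, bary, Prod.smul_mk, Prod.mk_add_mk, smul_eq_mul]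
    field_simp
    ring

theorem crd_right (f : OnePoint ℝ) (Q : Fm) :
    Q = crd false f Q 0 • Ninf + crd false f Q 1 • T1v f + crd false f Q 2 • wF f := by
  have ht := (X4a_tau (TTi f)).ne'
  obtain ⟨ha, hb, hc⟩ := X4a_w f
  obtain ⟨q1, q2, q3⟩ := Q
  have e0 : crd false f (q1, q2, q3) 0 = (q1 - q2) - tau (TTi f) * (tau (TTi f) * (q2 - (wv f).2.2 * ((q3 - q2) / (wv f).2.1))) -
        (wv f).1 * ((q3 - q2) / (wv f).2.1) := rfl
  have e1 : crd false f (q1, q2, q3) 1 = tau (TTi f) * (q2 - (wv f).2.2 * ((q3 - q2) / (wv f).2.1)) := rfl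
  have e2 : crd false f (q1, q2, q3) 2 = (q3 - q2) / (wv f).2.1 := rfl
  rw [e0, e1, e2]
  have hb' := hb.ne'
  ext
  · simp only [Ninf, T1v, wF, bary, Prod.smul_mk, Prod.mk_add_mk, smul_eq_mul]
    field_simp
    ring
  · simp only [Ninf, T1v, wF, bary, Prod.smul_mk, Prod.mk_add_mk, smul_eq_mul]
    field_simp
    ring
  · simp only [Ninf, T1v, wF, bary, Prod.smul_mk, Prod.mk_add_mk, smul_eq_mul]
    field_simp
    ring

theorem crd_comb_left (f : OnePoint ℝ) (μ : Fin 3 → ℝ) :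
    crd true f (μ 0 • Ninf + μ 1 • T0v f + μ 2 • wF f) = μ := by
  have ht := (X4a_tau f).ne'
  obtain ⟨ha, hb, hc⟩ := X4a_w f
  have hc' := hc.ne'
  have key : μ 0 • Ninf + μ 1 • T0v f + μ 2 • wF f =
      (μ 0 + μ 1 * tau f + μ 2 * ((wv f).1 + (wv f).2.2), μ 2 * (wv f).2.2, μ 1 * (tau f)⁻¹ + μ 2 * ((wv f).2.1 + (wv f).2.2)) := by
    simp only [Ninf, T0v, wF, bary, Prod.smul_mk, Prod.mk_add_mk, smul_eq_mul]
    ext <;> simp
  rw [key]
  have e2 : μ 2 * (wv f).2.2 / (wv f).2.2 = μ 2 := by field_simp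
  have e1 : tau f * ((μ 1 * (tau f)⁻¹ + μ 2 * ((wv f).2.1 + (wv f).2.2) - μ 2 * (wv f).2.2) - (wv f).2.1 * μ 2) = μ 1 := by
    field_simp
    ring
  have e0 : (μ 0 + μ 1 * tau f + μ 2 * ((wv f).1 + (wv f).2.2) - μ 2 * (wv f).2.2) - tau f * μ 1 - (wv f).1 * μ 2 = μ 0 := by ring
  unfold crd
  simp only [if_true, e2, e1, e0]
  funext i
  fin_cases i <;> rfl

theorem crd_comb_right (f : OnePoint ℝ) (μ : Fin 3 → ℝ) :
    crd false f (μ 0 • Ninf + μ 1 • T1v f + μ 2 • wF f) = μ := by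
  have ht := (X4a_tau (TTi f)).ne'
  obtain ⟨ha, hb, hc⟩ := X4a_w f
  have hb' := hb.ne'
  have key : μ 0 • Ninf + μ 1 • T1v f + μ 2 • wF f =
      (μ 0 + μ 1 * (tau (TTi f) + (tau (TTi f))⁻¹) + μ 2 * ((wv f).1 + (wv f).2.2),
        μ 1 * (tau (TTi f))⁻¹ + μ 2 * (wv f).2.2, μ 1 * (tau (TTi f))⁻¹ + μ 2 * ((wv f).2.1 + (wv f).2.2)) := by
    simp only [Ninf, T1v, wF, bary, Prod.smul_mk, Prod.mk_add_mk, smul_eq_mul]
    ext <;> simp
  rw [key]
  have e2 : ((μ 1 * (tau (TTi f))⁻¹ + μ 2 * ((wv f).2.1 + (wv f).2.2)) - (μ 1 * (tau (TTi f))⁻¹ + μ 2 * (wv f).2.2)) / (wv f).2.1 = μ 2 := by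
    field_simp
    ring
  have e1 : tau (TTi f) * ((μ 1 * (tau (TTi f))⁻¹ + μ 2 * (wv f).2.2) - (wv f).2.2 * μ 2) = μ 1 := by
    field_simp
    ring
  have e0 : (μ 0 + μ 1 * (tau (TTi f) + (tau (TTi f))⁻¹) + μ 2 * ((wv f).1 + (wv f).2.2) -
      (μ 1 * (tau (TTi f))⁻¹ + μ 2 * (wv f).2.2)) - tau (TTi f) * μ 1 - (wv f).1 * μ 2 = μ 0 := by ring
  unfold crd
  simp only [Bool.false_eq_true, if_false, e2, e1, e0]
  funext i
  fin_cases i <;> rfl

theorem crd_tri {s : Bool} {f : OnePoint ℝ} {Q : Fm} (h : ∀ a, 0 ≤ crd s f Q a) : Q ∈ Tri := by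
  obtain ⟨ha, hb, hc⟩ := X4a_w f
  cases s with
  | true =>
    have ht := X4a_tau f
    have hti := inv_pos.2 ht
    have e := crd_left f Q
    have h0 := h 0
    have h1 := h 1
    have h2 := h 2
    generalize crd true f Q 0 = m0 at *
    generalize crd true f Q 1 = m1 at *
    generalize crd true f Q 2 = m2 at *
    simp only [Ninf, T0v, wF, bary, Prod.smul_mk, Prod.mk_add_mk, smul_eq_mul] at e
    subst e
    have p1 := mul_nonneg h1 ht.le
    have p2 := mul_nonneg h1 hti.le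
    have p3 := mul_nonneg h2 ha.le
    have p4 := mul_nonneg h2 hb.le
    have p5 := mul_nonneg h2 hc.le
    refine ⟨?_, ?_, ?_⟩ <;> simp only <;> nlinarith
  | false =>
    have ht := X4a_tau (TTi f)
    have hti := inv_pos.2 ht
    have e := crd_right f Q
    have h0 := h 0
    have h1 := h 1
    have h2 := h 2
    generalize crd false f Q 0 = m0 at *
    generalize crd false f Q 1 = m1 at *
    generalize crd false f Q 2 = m2 at *
    simp only [Ninf, T1v, wF, bary, Prod.smul_mk, Prod.mk_add_mk, smul_eq_mul] at e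
    subst e
    have p1 := mul_nonneg h1 ht.le
    have p2 := mul_nonneg h1 hti.le
    have p3 := mul_nonneg h2 ha.le
    have p4 := mul_nonneg h2 hb.le
    have p5 := mul_nonneg h2 hc.le
    refine ⟨?_, ?_, ?_⟩ <;> simp only <;> nlinarith

theorem X4a_crd_add (s : Bool) (f : OnePoint ℝ) (Q Q' : Fm) : crd s f (Q + Q') = crd s f Q + crd s f Q' := by
  obtain ⟨q1, q2, q3⟩ := Q
  obtain ⟨r1, r2, r3⟩ := Q'
  funext i
  cases s <;> fin_cases i <;>
    simp only [crd, if_true, Bool.false_eq_true, if_false, Prod.mk_add_mk, Pi.add_apply, Matrix.cons_val_zero, Matrix.cons_val_one,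
      Matrix.cons_val, Fin.zero_eta, Fin.mk_one, Fin.reduceFinMk] <;> ring

theorem X4a_crd_smul (s : Bool) (f : OnePoint ℝ) (c : ℝ) (Q : Fm) : crd s f (c • Q) = c • crd s f Q := by
  obtain ⟨q1, q2, q3⟩ := Q
  funext i
  cases s <;> fin_cases i <;>
    simp only [crd, if_true, Bool.false_eq_true, if_false, Prod.smul_mk, smul_eq_mul, Pi.smul_apply, Matrix.cons_val_zero, Matrix.cons_val_one,
      Matrix.cons_val, Fin.zero_eta, Fin.mk_one, Fin.reduceFinMk] <;> ring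

/-- `crd s f` as a linear equivalence. -/
noncomputable def X4a_crdL (s : Bool) (f : OnePoint ℝ) : Fm ≃ₗ[ℝ] (Fin 3 → ℝ) where
  toFun := crd s f
  invFun μ := μ 0 • Ninf + μ 1 • (if s then T0v f else T1v f) + μ 2 • wF f
  map_add' := X4a_crd_add s f
  map_smul' := fun c Q => X4a_crd_smul s f c Q
  left_inv := fun Q => by
    cases s
    · exact (crd_right f Q).symm
    · exact (crd_left f Q).symm
  right_inv := fun μ => by
    cases s
    · exact crd_comb_right f μ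
    · exact crd_comb_left f μ

/-- `fa g` as a linear equivalence. -/
noncomputable def X4a_faL (g : SL(2, ℝ)) : Fm ≃ₗ[ℝ] Fm where
  toFun := fa g
  invFun := fa g⁻¹
  map_add' := fa_add g
  map_smul' := fun c Q => fa_smul g c Q
  left_inv := fun Q => by rw [← fa_mul, inv_mul_cancel, fa_one]
  right_inv := fun Q => by rw [← fa_mul, mul_inv_cancel, fa_one]

/-- `crg f p` as a linear equivalence. -/
theorem crg_linear (f : OnePoint ℝ) (p : SL(2, ℤ) × Bool) :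
    ∃ L : Fm ≃ₗ[ℝ] (Fin 3 → ℝ), ∀ Q, L Q = crg f p Q :=
  ⟨(X4a_faL (iR p.1⁻¹)).trans (X4a_crdL p.2 (mob (iR p.1⁻¹) f)), fun _ => rfl⟩

theorem X4a_iR_neg (γ : SL(2, ℤ)) : iR (-γ) = -iR γ := by
  ext i j
  simp [iR]

theorem X4a_fa_neg (g : SL(2, ℝ)) (Q : Fm) : fa (-g) Q = fa g Q := by
  unfold fa
  have h : ∀ i j, (-g).1 i j = -(g.1 i j) := fun i j => by
    have : (-g).1 = -g.1 := rfl
    rw [this, Matrix.neg_apply]
  simp only [h]
  ext
  · ring
  · ring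
  · ring

theorem crg_neg (f : OnePoint ℝ) (γ : SL(2, ℤ)) (s : Bool) (Q : Fm) : crg f (-γ, s) Q = crg f (γ, s) Q := by
  unfold crg
  have h : ((-γ : SL(2, ℤ)))⁻¹ = -(γ⁻¹) := by
    rw [inv_eq_iff_mul_eq_one]
    ext i j
    simp
  simp only
  rw [h, X4a_iR_neg, mob_neg, X4a_fa_neg]

theorem nbX_nbX (p : SL(2, ℤ) × Bool) (a : Fin 3) : nbX (nbX p a) a = p := by
  obtain ⟨γ, s⟩ := p
  fin_cases a <;> cases s <;> simp [nbX]

/-- relation across the side of type `0`. -/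
theorem X4a_rel0 (f : OnePoint ℝ) (Q : Fm) :
    crd false (TT (SS f)) (fa (iR Rz) Q) 0 = -(((tau f) ^ 2)⁻¹ * crd true f Q 0) ∧
    crd false (TT (SS f)) (fa (iR Rz) Q) 1 = crd true f Q 1 + (tau f)⁻¹ * crd true f Q 0 ∧
    crd false (TT (SS f)) (fa (iR Rz) Q) 2 = crd true f Q 2 := by
  have ht := (X4a_tau f).ne'
  obtain ⟨ha, hb, hc⟩ := X4a_w f
  have ha' := ha.ne'
  have hb' := hb.ne'
  have hc' := hc.ne'
  obtain ⟨q1, q2, q3⟩ := Q
  rw [X4a_fa_Rz]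
  have ew := wv_spec.2.2.1 f
  have et : tau (TTi (TT (SS f))) = (tau f)⁻¹ := by rw [TTi_TT]; exact tau_spec.2.2.1 f
  refine ⟨?_, ?_, ?_⟩ <;>
  · simp only [crd, if_true, Bool.false_eq_true, if_false, ew, et, Matrix.cons_val_zero, Matrix.cons_val_one, Matrix.cons_val]
    field_simp
    try ring

/-- relation across the side of type `1`. -/
theorem X4a_rel1 (f : OnePoint ℝ) (Q : Fm) :
    crd false f Q 1 = -(tau (TTi f) * (wv f).2.2 / ((wv f).2.1 * tau f)) * crd true f Q 1 ∧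
    (crd true f Q 1 = 0 → crd false f Q = crd true f Q) := by
  have ht := (X4a_tau f).ne'
  have ht' := (X4a_tau (TTi f)).ne'
  obtain ⟨ha, hb, hc⟩ := X4a_w f
  have ha' := ha.ne'
  have hb' := hb.ne'
  have hc' := hc.ne'
  obtain ⟨q1, q2, q3⟩ := Q
  constructor
  · simp only [crd, if_true, Bool.false_eq_true, if_false, Matrix.cons_val_zero, Matrix.cons_val_one, Matrix.cons_val]
    field_simp
    ring
  · intro h
    have h1 : tau f * ((q3 - q2) - (wv f).2.1 * (q2 / (wv f).2.2)) = 0 := h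
    have h2 : (q3 - q2) = (wv f).2.1 * (q2 / (wv f).2.2) := by
      rcases mul_eq_zero.1 h1 with h | h
      · exact absurd h ht
      · linarith
    have h3 : (q3 - q2) / (wv f).2.1 = q2 / (wv f).2.2 := by
      rw [h2]; field_simp
    have h4 : q2 - (wv f).2.2 * (q2 / (wv f).2.2) = 0 := by
      field_simp; ring
    funext i
    fin_cases i
    · simp only [crd, if_true, Bool.false_eq_true, if_false, Matrix.cons_val_zero, Fin.zero_eta, h3, h4, h1]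
      ring
    · simp only [crd, if_true, Bool.false_eq_true, if_false, Matrix.cons_val_one, Fin.mk_one, h3, h4, h1]
      ring
    · simp only [crd, if_true, Bool.false_eq_true, if_false, Matrix.cons_val, Fin.reduceFinMk, h3]

/-- relation across the side of type `2`. -/
theorem X4a_rel2 (f : OnePoint ℝ) (Q : Fm) :
    crd false (TT f) (fa (iR Tz) Q) 2 = -((wv f).2.2 / (wv (TT f)).2.1) * crd true f Q 2 ∧
    (crd true f Q 2 = 0 → crd false (TT f) (fa (iR Tz) Q) = crd true f Q) := by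
  have ht := (X4a_tau f).ne'
  obtain ⟨ha, hb, hc⟩ := X4a_w f
  obtain ⟨ha1, hb1, hc1⟩ := X4a_w (TT f)
  have ha' := ha.ne'
  have hb' := hb.ne'
  have hc' := hc.ne'
  have hb1' := hb1.ne'
  obtain ⟨q1, q2, q3⟩ := Q
  rw [X4a_fa_Tz]
  have et : tau (TTi (TT f)) = tau f := by rw [TTi_TT]
  constructor
  · simp only [crd, if_true, Bool.false_eq_true, if_false, Matrix.cons_val]
    field_simp
    ring
  · intro h
    have h1 : q2 / (wv f).2.2 = 0 := h
    have h2 : q2 = 0 := by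
      rcases div_eq_zero_iff.1 h1 with h | h
      · exact h
      · exact absurd h hc'
    subst h2
    funext i
    fin_cases i
    · simp only [crd, if_true, Bool.false_eq_true, if_false, Matrix.cons_val_zero, Fin.zero_eta, et]
      ring
    · simp only [crd, if_true, Bool.false_eq_true, if_false, Matrix.cons_val_one, Fin.mk_one, et]
      ring
    · simp only [crd, if_true, Bool.false_eq_true, if_false, Matrix.cons_val, Fin.reduceFinMk]
      ring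

theorem X4a_crg0L (f : OnePoint ℝ) (γ : SL(2, ℤ)) (Q : Fm) :
    crg f (nbX (γ, true) 0) Q = crd false (TT (SS (mob (iR γ⁻¹) f))) (fa (iR Rz) (fa (iR γ⁻¹) Q)) := by
  have h : nbX (γ, true) 0 = (γ * Rz⁻¹, false) := rfl
  rw [h]
  unfold crg
  simp only [_root_.mul_inv_rev, inv_inv]
  rw [map_mul, mob_mul, fa_mul, mob_Rz]

theorem X4a_crg2L (f : OnePoint ℝ) (γ : SL(2, ℤ)) (Q : Fm) :
    crg f (nbX (γ, true) 2) Q = crd false (TT (mob (iR γ⁻¹) f)) (fa (iR Tz) (fa (iR γ⁻¹) Q)) := by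
  have h : nbX (γ, true) 2 = (γ * Tz⁻¹, false) := rfl
  rw [h]
  unfold crg
  simp only [_root_.mul_inv_rev, inv_inv]
  rw [map_mul, mob_mul, fa_mul, mob_Tz]

theorem X4a_shareL (f : OnePoint ℝ) (γ : SL(2, ℤ)) (a : Fin 3) (Q : Fm) (h : crg f (γ, true) Q a = 0) :
    crg f (nbX (γ, true) a) Q = crg f (γ, true) Q := by
  fin_cases a
  · change crg f (γ, true) Q 0 = 0 at h
    change crg f (nbX (γ, true) 0) Q = crg f (γ, true) Q
    rw [X4a_crg0L]
    obtain ⟨r0, r1, r2⟩ := X4a_rel0 (mob (iR γ⁻¹) f) (fa (iR γ⁻¹) Q)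
    have h' : crd true (mob (iR γ⁻¹) f) (fa (iR γ⁻¹) Q) 0 = 0 := h
    funext i
    fin_cases i
    · change _ = crd true (mob (iR γ⁻¹) f) (fa (iR γ⁻¹) Q) 0
      change crd false _ _ 0 = _
      rw [r0, h']; simp
    · change crd false _ _ 1 = crd true (mob (iR γ⁻¹) f) (fa (iR γ⁻¹) Q) 1
      rw [r1, h']; simp
    · exact r2
  · change crg f (γ, true) Q 1 = 0 at h
    exact (X4a_rel1 (mob (iR γ⁻¹) f) (fa (iR γ⁻¹) Q)).2 h
  · change crg f (γ, true) Q 2 = 0 at h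
    change crg f (nbX (γ, true) 2) Q = crg f (γ, true) Q
    rw [X4a_crg2L]
    exact (X4a_rel2 (mob (iR γ⁻¹) f) (fa (iR γ⁻¹) Q)).2 h

theorem X4a_sideL (f : OnePoint ℝ) (γ : SL(2, ℤ)) (a : Fin 3) :
    ∃ k : ℝ, 0 < k ∧ ∀ Q, crg f (nbX (γ, true) a) Q a = -k * crg f (γ, true) Q a := by
  fin_cases a
  · refine ⟨((tau (mob (iR γ⁻¹) f)) ^ 2)⁻¹, inv_pos.2 (pow_pos (X4a_tau _) 2), fun Q => ?_⟩
    change crg f (nbX (γ, true) 0) Q 0 = _ * crd true (mob (iR γ⁻¹) f) (fa (iR γ⁻¹) Q) 0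
    rw [X4a_crg0L, (X4a_rel0 (mob (iR γ⁻¹) f) (fa (iR γ⁻¹) Q)).1]
    ring
  · refine ⟨tau (TTi (mob (iR γ⁻¹) f)) * (wv (mob (iR γ⁻¹) f)).2.2 / ((wv (mob (iR γ⁻¹) f)).2.1 * tau (mob (iR γ⁻¹) f)), ?_, fun Q => ?_⟩
    · have h1 := X4a_tau (TTi (mob (iR γ⁻¹) f))
      have h2 := X4a_tau (mob (iR γ⁻¹) f)
      obtain ⟨h3, h4, h5⟩ := X4a_w (mob (iR γ⁻¹) f)
      positivity
    · exact (X4a_rel1 (mob (iR γ⁻¹) f) (fa (iR γ⁻¹) Q)).1
  · refine ⟨(wv (mob (iR γ⁻¹) f)).2.2 / (wv (TT (mob (iR γ⁻¹) f))).2.1, ?_, fun Q => ?_⟩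
    · obtain ⟨h3, h4, h5⟩ := X4a_w (mob (iR γ⁻¹) f)
      obtain ⟨h6, h7, h8⟩ := X4a_w (TT (mob (iR γ⁻¹) f))
      positivity
    · change crg f (nbX (γ, true) 2) Q 2 = _ * crd true (mob (iR γ⁻¹) f) (fa (iR γ⁻¹) Q) 2
      rw [X4a_crg2L, (X4a_rel2 (mob (iR γ⁻¹) f) (fa (iR γ⁻¹) Q)).1]

theorem X4a_nb_snd (p : SL(2, ℤ) × Bool) (a : Fin 3) : (nbX p a).2 = !p.2 := by
  obtain ⟨γ, s⟩ := p
  fin_cases a <;> cases s <;> rfl

theorem crg_share (f : OnePoint ℝ) (p : SL(2, ℤ) × Bool) (a : Fin 3) (Q : Fm) (h : crg f p Q a = 0) :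
    crg f (nbX p a) Q = crg f p Q := by
  obtain ⟨γ, s⟩ := p
  cases s with
  | true => exact X4a_shareL f γ a Q h
  | false =>
    have hs := X4a_nb_snd (γ, false) a
    rcases hn : nbX (γ, false) a with ⟨δ, t⟩
    rw [hn] at hs
    have ht : t = true := hs
    subst ht
    have hb : nbX (δ, true) a = (γ, false) := by rw [← hn, nbX_nbX]
    obtain ⟨k, hk, hk'⟩ := X4a_sideL f δ a
    have h1 := hk' Q
    rw [hb, h] at h1
    have h2 : crg f (δ, true) Q a = 0 := by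
      rcases mul_eq_zero.1 h1.symm with h | h
      · exact absurd h (neg_ne_zero.2 hk.ne')
      · exact h
    have h3 := X4a_shareL f δ a Q h2
    rw [hb] at h3
    exact h3.symm

theorem crg_side (f : OnePoint ℝ) (p : SL(2, ℤ) × Bool) (a : Fin 3) :
    ∃ k : ℝ, 0 < k ∧ ∀ Q, crg f (nbX p a) Q a = -k * crg f p Q a := by
  obtain ⟨γ, s⟩ := p
  cases s with
  | true => exact X4a_sideL f γ a
  | false =>
    have hs := X4a_nb_snd (γ, false) a
    rcases hn : nbX (γ, false) a with ⟨δ, t⟩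
    rw [hn] at hs
    have ht : t = true := hs
    subst ht
    have hb : nbX (δ, true) a = (γ, false) := by rw [← hn, nbX_nbX]
    obtain ⟨k, hk, hk'⟩ := X4a_sideL f δ a
    refine ⟨k⁻¹, inv_pos.2 hk, fun Q => ?_⟩
    have h1 := hk' Q
    rw [hb] at h1
    rw [h1]
    field_simp

end Pool.AML
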