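import Pool.Agent.AML.X.X4a
import Pool.Agent.AML.X.X3

/-! [AML-X4b] A form contained in exactly one flag cone (up to sign of `γ`), for every level `f`.

`tau` and the three coordinates of `wv` are continuous and positive on the compact circle: `m ≤ · ≤ M`, `0 < m ≤ 1 ≤ M`. Fix `f` and let
`Q = H • N∞ + T0v f + wF f`, `H` large. Put `q = Q22 = 1/τ + w0 + w1 > 0` (independent of `H`), `det Q → ∞` as `H → ∞` (`det Q = H q + det (T0v f + wF f) ≥ H q`).
Suppose all coordinates of `Q` in the flag `(γ, s)` are `≥ 0`. Let `u∞ = γ(1,0), u0 = γ(0,1), u1 = γ(1,1)`, `Q = β∞ N(u∞) + β0 N(u0) + β1 N(u1)`, `β ≥ 0`, with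
`β∞ = μ0 + τ μ1 + w∞ μ2`, and (left) `β0 = μ1/τ + w0 μ2`, `β1 = w1 μ2`, (right) `β0 = w0 μ2`, `β1 = μ1/τ' + w1 μ2`. Comparing the entries `22`: `Σ β_i y_i² = q`, `y_i` = second entry of `u_i`.
If `y∞ ≠ 0`: then `β∞ ≤ q`, hence `μ1 ≤ q/m`, `μ2 ≤ q/m`, so all `β_i ≤ C q` with `C = 1 + 2M/m²`, and `det Q = Σ_{i<j} β_i β_j ≤ 3 C² q²`, which is false for `H > 3 C² q`. So `y∞ = 0`,
`γ = ± T^n`, and `γ⁻¹ Q` has `Q12' / Q22' = Q12 / Q22 - n`, which must be in `[0, 1]` (`Tri`: `0 ≤ Q12' ≤ Q22'`), while `0 < Q12 < Q22` (`Q12 = w1`); so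
`n = 0`. Finally `s = true` because the coordinate of type `1` on the right side is negative (`crg_side`, `a = 1`, or directly). -/

set_option linter.style.longLine false

open Matrix Topology Set
open scoped MatrixGroups

namespace Pool.AML

/-- common bound for `tau`, `1/tau`, `wv`. -/
theorem X4b_bound : ∃ K : ℝ, 1 ≤ K ∧ ∀ g : OnePoint ℝ, 1 ≤ K * tau g ∧ tau g ≤ K ∧ (tau g)⁻¹ ≤ K ∧
    1 ≤ K * (wv g).1 ∧ (wv g).2.1 ≤ K ∧ (wv g).2.2 ≤ K := by
  obtain ⟨ct, pt, -, -⟩ := tau_spec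
  obtain ⟨cw, pw, -, -⟩ := wv_spec
  have c1 : Continuous (fun g => (tau g)⁻¹) := ct.inv₀ (fun g => (pt g).ne')
  have c2 : Continuous (fun g => ((wv g).1)⁻¹) := cw.fst.inv₀ (fun g => (pw g).1.ne')
  obtain ⟨K1, h1⟩ := (isCompact_range ct).bddAbove
  obtain ⟨K2, h2⟩ := (isCompact_range c1).bddAbove
  obtain ⟨K3, h3⟩ := (isCompact_range c2).bddAbove
  obtain ⟨K4, h4⟩ := (isCompact_range cw.snd.fst).bddAbove
  obtain ⟨K5, h5⟩ := (isCompact_range cw.snd.snd).bddAbove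
  refine ⟨1 + |K1| + |K2| + |K3| + |K4| + |K5|, by
    have := abs_nonneg K1
    have := abs_nonneg K2
    have := abs_nonneg K3
    have := abs_nonneg K4
    have := abs_nonneg K5
    linarith, ?_⟩
  intro g
  have a1 := abs_nonneg K1
  have a2 := abs_nonneg K2
  have a3 := abs_nonneg K3
  have a4 := abs_nonneg K4
  have a5 := abs_nonneg K5
  have b1 := le_abs_self K1
  have b2 := le_abs_self K2
  have b3 := le_abs_self K3
  have b4 := le_abs_self K4
  have b5 := le_abs_self K5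
  have g1 : tau g ≤ K1 := h1 (Set.mem_range_self g)
  have g2 : (tau g)⁻¹ ≤ K2 := h2 (Set.mem_range_self g)
  have g3 : ((wv g).1)⁻¹ ≤ K3 := h3 (Set.mem_range_self g)
  have g4 : (wv g).2.1 ≤ K4 := h4 (Set.mem_range_self g)
  have g5 : (wv g).2.2 ≤ K5 := h5 (Set.mem_range_self g)
  have key : ∀ {x K : ℝ}, 0 < x → x⁻¹ ≤ K → 1 ≤ K * x := by
    intro x K hx h
    have := mul_le_mul_of_nonneg_right h hx.le
    rwa [inv_mul_cancel₀ hx.ne'] at this
  exact ⟨key (pt g) (by linarith), by linarith, by linarith, key (pw g).1 (by linarith), by linarith, by linarith⟩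

/-- barycentric coordinates are bounded in terms of `β∞`. -/
theorem X4b_beta {K : ℝ} (hK : 1 ≤ K) (hb : ∀ g : OnePoint ℝ, 1 ≤ K * tau g ∧ tau g ≤ K ∧ (tau g)⁻¹ ≤ K ∧
    1 ≤ K * (wv g).1 ∧ (wv g).2.1 ≤ K ∧ (wv g).2.2 ≤ K) (s : Bool) (g : OnePoint ℝ) (Q : Fm)
    (h : ∀ a, 0 ≤ crd s g Q a) :
    (Q.2.2 - Q.2.1) ≤ 2 * K ^ 2 * (Q.1 - Q.2.1) ∧ Q.2.1 ≤ 2 * K ^ 2 * (Q.1 - Q.2.1) := by
  obtain ⟨ct, pt, -, -⟩ := tau_spec
  obtain ⟨cw, pw, -, -⟩ := wv_spec
  have h0 := h 0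
  have h1 := h 1
  have h2 := h 2
  obtain ⟨w1, w2, w3⟩ := pw g
  obtain ⟨k1, k2, k3, k4, k5, k6⟩ := hb g
  have main : ∀ {τ m0 m1 m2 : ℝ}, 0 < τ → 1 ≤ K * τ → 0 ≤ m0 → 0 ≤ m1 → 0 ≤ m2 →
      m1 ≤ K * (m0 + τ * m1 + (wv g).1 * m2) ∧ m2 ≤ K * (m0 + τ * m1 + (wv g).1 * m2) := by
    intro τ m0 m1 m2 ht hk h0 h1 h2
    have e1 : m1 ≤ K * τ * m1 := by nlinarith
    have e2 : m2 ≤ K * (wv g).1 * m2 := by nlinarith
    have e3 : 0 ≤ K * m0 := by positivity
    have e4 : 0 ≤ K * τ * m1 := by positivity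
    have e5 : 0 ≤ K * (wv g).1 * m2 := by positivity
    constructor <;> linarith
  have fin : ∀ {τi m1 m2 B : ℝ}, τi ≤ K → 0 ≤ m1 → 0 ≤ m2 → m1 ≤ K * B → m2 ≤ K * B →
      ∀ {w : ℝ}, w ≤ K → τi * m1 + w * m2 ≤ 2 * K ^ 2 * B := by
    intro τi m1 m2 B ht hm1 hm2 e1 e2 w hw
    have f1 : τi * m1 ≤ K * (K * B) := by
      calc τi * m1 ≤ K * m1 := mul_le_mul_of_nonneg_right ht hm1
        _ ≤ K * (K * B) := mul_le_mul_of_nonneg_left e1 (by linarith)
    have f2 : w * m2 ≤ K * (K * B) := by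
      calc w * m2 ≤ K * m2 := mul_le_mul_of_nonneg_right hw hm2
        _ ≤ K * (K * B) := mul_le_mul_of_nonneg_left e2 (by linarith)
    nlinarith
  cases s with
  | true =>
    have e := crd_left g Q
    set m0 := crd true g Q 0
    set m1 := crd true g Q 1
    set m2 := crd true g Q 2
    have q1 : Q.1 = m0 + (tau g * m1) + (wv g).1 * m2 + (wv g).2.2 * m2 := by
      have := congrArg Prod.fst e
      simp only [Ninf, T0v, wF, bary, Prod.smul_mk, Prod.mk_add_mk, smul_eq_mul] at this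
      rw [this]; ring
    have q2 : Q.2.1 = (wv g).2.2 * m2 := by
      have := congrArg (fun z : Fm => z.2.1) e
      simp only [Ninf, T0v, wF, bary, Prod.smul_mk, Prod.mk_add_mk, smul_eq_mul] at this
      rw [this]; ring
    have q3 : Q.2.2 = (tau g)⁻¹ * m1 + (wv g).2.1 * m2 + (wv g).2.2 * m2 := by
      have := congrArg (fun z : Fm => z.2.2) e
      simp only [Ninf, T0v, wF, bary, Prod.smul_mk, Prod.mk_add_mk, smul_eq_mul] at this
      rw [this]; ring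
    have b0 : Q.1 - Q.2.1 = m0 + tau g * m1 + (wv g).1 * m2 := by rw [q1, q2]; ring
    obtain ⟨e1, e2⟩ := main (pt g) k1 h0 h1 h2
    rw [b0]
    constructor
    · have := fin k3 h1 h2 e1 e2 k5
      have e3 : Q.2.2 - Q.2.1 = (tau g)⁻¹ * m1 + (wv g).2.1 * m2 := by rw [q2, q3]; ring
      rw [e3]; exact this
    · have := fin (τi := 0) (by linarith) h1 h2 e1 e2 k6
      rw [q2]; linarith
  | false =>
    have e := crd_right g Q
    set m0 := crd false g Q 0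
    set m1 := crd false g Q 1
    set m2 := crd false g Q 2
    obtain ⟨l1, l2, l3, -, -, -⟩ := hb (TTi g)
    have q1 : Q.1 = m0 + (tau (TTi g) * m1) + (wv g).1 * m2 + (wv g).2.2 * m2 + (tau (TTi g))⁻¹ * m1 := by
      have := congrArg Prod.fst e
      simp only [Ninf, T1v, wF, bary, Prod.smul_mk, Prod.mk_add_mk, smul_eq_mul] at this
      rw [this]; ring
    have q2 : Q.2.1 = (tau (TTi g))⁻¹ * m1 + (wv g).2.2 * m2 := by
      have := congrArg (fun z : Fm => z.2.1) e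
      simp only [Ninf, T1v, wF, bary, Prod.smul_mk, Prod.mk_add_mk, smul_eq_mul] at this
      rw [this]; ring
    have q3 : Q.2.2 = (tau (TTi g))⁻¹ * m1 + (wv g).2.1 * m2 + (wv g).2.2 * m2 := by
      have := congrArg (fun z : Fm => z.2.2) e
      simp only [Ninf, T1v, wF, bary, Prod.smul_mk, Prod.mk_add_mk, smul_eq_mul] at this
      rw [this]; ring
    have b0 : Q.1 - Q.2.1 = m0 + tau (TTi g) * m1 + (wv g).1 * m2 := by rw [q1, q2]; ring
    obtain ⟨e1, e2⟩ := main (pt (TTi g)) l1 h0 h1 h2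
    rw [b0]
    constructor
    · have := fin (τi := 0) (by linarith) h1 h2 e1 e2 k5
      have e3 : Q.2.2 - Q.2.1 = (wv g).2.1 * m2 := by rw [q2, q3]; ring
      rw [e3]; linarith
    · have := fin l3 h1 h2 e1 e2 k6
      rw [q2]; exact this

/-- the first column of `γ` is `(±1, 0)` if the form is deep in the cusp. -/
theorem X4b_zero {K q H x y z c d : ℝ} (hK : 1 ≤ K) (hq0 : 0 < q) (hH : H = 12 * K ^ 4 * q + 1)
    (hx0 : 0 ≤ x) (hy0 : 0 ≤ y) (hz0 : 0 ≤ z) (hc1 : 1 ≤ c ^ 2)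
    (f2 : q = x * c ^ 2 + y * d ^ 2 + z * (c + d) ^ 2)
    (f3 : H * q ≤ x * y + x * z + y * z)
    (B0 : y ≤ 2 * K ^ 2 * x) (B1 : z ≤ 2 * K ^ 2 * x) : False := by
  have hxq : x ≤ q := by
    have h1 : 0 ≤ y * d ^ 2 := mul_nonneg hy0 (sq_nonneg _)
    have h2 : 0 ≤ z * (c + d) ^ 2 := mul_nonneg hz0 (sq_nonneg _)
    have h3 : x ≤ x * c ^ 2 := le_mul_of_one_le_right hx0 hc1
    linarith
  have hK2 : 1 ≤ K ^ 2 := one_le_pow₀ hK
  have hxq' : x ≤ 2 * K ^ 2 * q := by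
    have : q ≤ K ^ 2 * q := le_mul_of_one_le_left hq0.le hK2
    linarith
  have hyq : y ≤ 2 * K ^ 2 * q := le_trans B0 (mul_le_mul_of_nonneg_left hxq (by positivity))
  have hzq : z ≤ 2 * K ^ 2 * q := le_trans B1 (mul_le_mul_of_nonneg_left hxq (by positivity))
  have hC : 0 ≤ 2 * K ^ 2 * q := by positivity
  have p1 : x * y ≤ (2 * K ^ 2 * q) * (2 * K ^ 2 * q) := mul_le_mul hxq' hyq hy0 hC
  have p2 : x * z ≤ (2 * K ^ 2 * q) * (2 * K ^ 2 * q) := mul_le_mul hxq' hzq hz0 hC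
  have p3 : y * z ≤ (2 * K ^ 2 * q) * (2 * K ^ 2 * q) := mul_le_mul hyq hzq hz0 hC
  have e : (2 * K ^ 2 * q) * (2 * K ^ 2 * q) = 4 * K ^ 4 * q * q := by ring
  rw [e] at p1 p2 p3
  have p4 : H * q ≤ 12 * K ^ 4 * q * q := by linarith
  rw [hH] at p4
  have e2 : (12 * K ^ 4 * q + 1) * q = 12 * K ^ 4 * q * q + q := by ring
  rw [e2] at p4
  linarith

theorem X4b_inv (γ : SL(2, ℤ)) : (γ⁻¹).1 0 0 = γ.1 1 1 ∧ (γ⁻¹).1 0 1 = -γ.1 0 1 ∧
    (γ⁻¹).1 1 0 = -γ.1 1 0 ∧ (γ⁻¹).1 1 1 = γ.1 0 0 := by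
  rw [Matrix.SpecialLinearGroup.coe_inv, Matrix.adjugate_fin_two]
  exact ⟨rfl, rfl, rfl, rfl⟩

theorem X4b_int {q w : ℝ} {n : ℤ} (hq : 0 < q) (hw : 0 < w) (hwq : w < q) (h1 : 0 ≤ w - (n : ℝ) * q)
    (h2 : w - (n : ℝ) * q ≤ q) : n = 0 := by
  have h3 : n < 1 := by
    by_contra h
    push Not at h
    have : (1 : ℝ) ≤ n := by exact_mod_cast h
    nlinarith
  have h4 : -1 < n := by
    by_contra h
    push Not at h
    have : (n : ℝ) ≤ -1 := by exact_mod_cast h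
    nlinarith
  omega

theorem exists_generic (f : OnePoint ℝ) : ∃ Q ∈ PosF, (∀ a, 0 < crg f (1, true) Q a) ∧
    ∀ p : SL(2, ℤ) × Bool, (∀ a, 0 ≤ crg f p Q a) → p = (1, true) ∨ p = (-1, true) := by
  obtain ⟨K, hK, hb⟩ := X4b_bound
  obtain ⟨ct, pt, -, -⟩ := tau_spec
  obtain ⟨cw, pw, -, -⟩ := wv_spec
  have ht := pt f
  obtain ⟨w1, w2, w3⟩ := pw f
  have hti : 0 < (tau f)⁻¹ := inv_pos.2 ht
  obtain ⟨q, hq⟩ : ∃ q : ℝ, q = (tau f)⁻¹ + (wv f).2.1 + (wv f).2.2 := ⟨_, rfl⟩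
  have hq0 : 0 < q := by rw [hq]; positivity
  obtain ⟨H, hH⟩ : ∃ H : ℝ, H = 12 * K ^ 4 * q + 1 := ⟨_, rfl⟩
  have hH0 : 0 < H := by rw [hH]; positivity
  obtain ⟨Q, hQ⟩ : ∃ Q : Fm, Q = (H + tau f + (wv f).1 + (wv f).2.2, (wv f).2.2, q) := ⟨_, rfl⟩
  have hQ1 : Q.1 = H + tau f + (wv f).1 + (wv f).2.2 := by rw [hQ]
  have hQ2 : Q.2.1 = (wv f).2.2 := by rw [hQ]
  have hQ3 : Q.2.2 = q := by rw [hQ]
  have hQe : Q = H • Ninf + (1 : ℝ) • T0v f + (1 : ℝ) • wF f := by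
    rw [hQ, hq]
    simp only [Ninf, T0v, wF, bary, Prod.smul_mk, Prod.mk_add_mk, smul_eq_mul]
    refine Prod.ext (by simp only; ring) (Prod.ext (by simp only; ring) (by simp only; ring))
  have hcl : crd true f Q = ![H, 1, 1] := by
    rw [hQe]; exact crd_comb_left f ![H, 1, 1]
  have hdetQ : H * q ≤ Q.1 * Q.2.2 - Q.2.1 ^ 2 := by
    rw [hQ1, hQ2, hQ3]
    have e : (H + tau f + (wv f).1 + (wv f).2.2) * q - (wv f).2.2 ^ 2 =
        H * q + (tau f + (wv f).1) * q + (wv f).2.2 * ((tau f)⁻¹ + (wv f).2.1) := by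
      rw [hq]; ring
    rw [e]
    have : 0 ≤ (tau f + (wv f).1) * q := by positivity
    have : 0 ≤ (wv f).2.2 * ((tau f)⁻¹ + (wv f).2.1) := by positivity
    linarith
  have hQP : Q ∈ PosF := by
    refine ⟨?_, lt_of_lt_of_le (mul_pos hH0 hq0) hdetQ⟩
    rw [hQ1]; positivity
  refine ⟨Q, hQP, ?_, ?_⟩
  · intro a
    have : crg f (1, true) Q = ![H, 1, 1] := by
      rw [crg]
      simp only [inv_one, map_one, mob_one, fa_one]
      exact hcl
    rw [this]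
    fin_cases a
    · exact hH0
    · exact one_pos
    · exact one_pos
  · rintro ⟨γ, s⟩ hp
    have hp' : ∀ a, 0 ≤ crd s (mob (iR γ⁻¹) f) (fa (iR γ⁻¹) Q) a := hp
    obtain ⟨hT1, hT2, hT3⟩ := crd_tri hp'
    obtain ⟨f1, f2, f3⟩ := X3_formula γ Q rfl rfl rfl
    obtain ⟨B0, B1⟩ := X4b_beta hK hb s _ _ hp'
    have hdet : γ.1 0 0 * γ.1 1 1 - γ.1 0 1 * γ.1 1 0 = 1 := by
      have h := γ.2
      rw [Matrix.det_fin_two] at h
      exact h
    have hc : γ.1 1 0 = 0 := by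
      by_contra hc
      have hc1 : (1 : ℝ) ≤ (γ.1 1 0 : ℝ) ^ 2 := by
        have : (1 : ℤ) ≤ (γ.1 1 0) ^ 2 := by
          have := sq_nonneg (γ.1 1 0)
          have h2 : (γ.1 1 0) ^ 2 ≠ 0 := pow_ne_zero 2 hc
          omega
        exact_mod_cast this
      exact X4b_zero hK hq0 hH (sub_nonneg.2 hT2) (sub_nonneg.2 hT3) hT1 hc1 (hQ3.symm.trans f2)
        (le_of_le_of_eq hdetQ f3) B0 B1
    rw [hc, mul_zero, sub_zero] at hdet
    obtain ⟨i00, i01, i10, i11⟩ := X4b_inv γ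
    have hb0 : γ.1 0 1 = 0 := by
      have t1 : (fa (iR γ⁻¹) Q).2.1 = Q.2.1 - ((γ.1 0 0 * γ.1 0 1 : ℤ) : ℝ) * q := by
        simp only [fa, X3_iR, i00, i01, i10, i11, hc, hQ3]
        have hd' : (γ.1 0 0 : ℝ) * γ.1 1 1 = 1 := by exact_mod_cast hdet
        push_cast
        linear_combination (Q.2.1) * hd'
      have t2 : (fa (iR γ⁻¹) Q).2.2 = q := by
        have ha : (γ.1 0 0 : ℝ) ^ 2 = 1 := by
          have : γ.1 0 0 ^ 2 = 1 := by
            rcases Int.eq_one_or_neg_one_of_mul_eq_one hdet with h | h <;> rw [h] <;> norm_num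
          exact_mod_cast this
        simp only [fa, X3_iR, i10, i11, hc, hQ3]
        push_cast
        linear_combination q * ha
      rw [t1, hQ2] at hT1
      rw [t1, t2, hQ2] at hT3
      have hlt : (wv f).2.2 < q := by rw [hq]; linarith
      have hn := X4b_int hq0 w3 hlt hT1 hT3
      have ha : γ.1 0 0 ≠ 0 := by
        intro h0
        rw [h0, zero_mul] at hdet
        exact absurd hdet (by norm_num)
      exact (mul_eq_zero.1 hn).resolve_left ha
    have hγ : γ = 1 ∨ γ = -1 := by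
      rcases Int.eq_one_or_neg_one_of_mul_eq_one hdet with h | h
      · left
        have hd1 : γ.1 1 1 = 1 := by rw [h, one_mul] at hdet; exact hdet
        apply Subtype.ext
        ext i j
        fin_cases i <;> fin_cases j
        · exact h
        · exact hb0
        · exact hc
        · exact hd1
      · right
        have hd1 : γ.1 1 1 = -1 := by rw [h] at hdet; linarith
        apply Subtype.ext
        rw [Matrix.SpecialLinearGroup.coe_neg]
        ext i j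
        fin_cases i <;> fin_cases j
        · simpa using h
        · simpa using hb0
        · simpa using hc
        · simpa using hd1
    have hp1 : ∀ a, 0 ≤ crd s f Q a := by
      have e1 : crg f (1, s) Q = crd s f Q := by
        rw [crg]
        simp only [inv_one, map_one, mob_one, fa_one]
      rcases hγ with h | h
      · rw [h, e1] at hp; exact hp
      · rw [h, crg_neg, e1] at hp; exact hp
    have hs : s = true := by
      cases s with
      | true => rfl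
      | false =>
        exfalso
        have h1 := hp1 1
        have e2 : crd false f Q 1 = tau (TTi f) * (Q.2.1 - (wv f).2.2 * ((Q.2.2 - Q.2.1) / (wv f).2.1)) := rfl
        rw [e2, hQ2, hQ3] at h1
        have h2 : 0 ≤ (wv f).2.2 - (wv f).2.2 * ((q - (wv f).2.2) / (wv f).2.1) :=
          (mul_nonneg_iff_of_pos_left (pt (TTi f))).1 h1
        have h3 : 1 < (q - (wv f).2.2) / (wv f).2.1 := by
          rw [lt_div_iff₀ w2, hq]
          linarith
        have h4 : (wv f).2.2 * 1 < (wv f).2.2 * ((q - (wv f).2.2) / (wv f).2.1) :=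
          mul_lt_mul_of_pos_left h3 w3
        linarith
    rcases hγ with h | h
    · left; rw [h, hs]
    · right; rw [h, hs]

end Pool.AML
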