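import Pool.Agent.AML.X.X4b
import Pool.Agent.AML.X.TessG

/-! [AML-X4c] The flag cones at the level `f` tessellate the cone of positive definite forms.

Apply `tessG` with `E = Fm`, `κ = Fin 3`, `ι = ` quotient of `SL(2,ℤ) × Bool` by `(γ, s) ~ (-γ, s)` (countable: `SL(2,ℤ)` is countable, quotient), `L` = lift of
`crg f` (`crg_linear`, `crg_neg`), `nb` = lift of `nbX` (it commutes with the sign), `P = PosF` (`isOpen_PosF`, `convex_PosF`), local finiteness from
`tri_locallyFinite` and `crd_tri`, generic form from `exists_generic`. The chain in the quotient lifts to a chain of `XStep`s, the sign changes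
being steps `q = (-p.1, p.2)`. (`crg f` is constant along the chain by `crg_share`.) -/

set_option linter.style.longLine false

open Matrix Topology Set
open scoped MatrixGroups

namespace Pool.AML

/-- flags up to sign. -/
def X4cSet : Setoid (SL(2, ℤ) × Bool) where
  r p q := q = p ∨ q = (-p.1, p.2)
  iseqv := by
    refine ⟨fun p => Or.inl rfl, ?_, ?_⟩
    · rintro p q (h | h)
      · exact Or.inl h.symm
      · right; rw [h]; simp
    · rintro p q r (h | h) (h' | h')
      · left; rw [h', h]
      · right; rw [h', h]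
      · right; rw [h', h]
      · left; rw [h', h]; simp

theorem X4c_nb_neg (p : SL(2, ℤ) × Bool) (a : Fin 3) :
    nbX (-p.1, p.2) a = (-(nbX p a).1, (nbX p a).2) := by
  obtain ⟨γ, s⟩ := p
  fin_cases a <;> cases s <;> simp [nbX]

noncomputable def X4cL (f : OnePoint ℝ) (p : SL(2, ℤ) × Bool) : Fm ≃ₗ[ℝ] (Fin 3 → ℝ) :=
  Classical.choose (crg_linear f p)

theorem X4cL_spec (f : OnePoint ℝ) (p : SL(2, ℤ) × Bool) (Q : Fm) : X4cL f p Q = crg f p Q :=
  Classical.choose_spec (crg_linear f p) Q

theorem X4cL_neg (f : OnePoint ℝ) (p q : SL(2, ℤ) × Bool) (h : X4cSet.r p q) : X4cL f p = X4cL f q := by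
  rcases h with h | h
  · rw [h]
  · apply LinearEquiv.ext
    intro Q
    rw [X4cL_spec, X4cL_spec, h, crg_neg]

instance X4c_countable : Countable (SL(2, ℤ)) := by
  have : Countable (Matrix (Fin 2) (Fin 2) ℤ) := inferInstanceAs (Countable (Fin 2 → Fin 2 → ℤ))
  exact Subtype.countable

noncomputable def X4cCells (f : OnePoint ℝ) : CellsG Fm (Fin 3) (Quotient X4cSet) where
  L := Quotient.lift (X4cL f) (fun p q h => X4cL_neg f p q h)
  nb s a := Quotient.map (fun p => nbX p a) (by
    rintro p q (h | h)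
    · left; rw [h]
    · right; rw [h]; exact X4c_nb_neg p a) s
  nb_nb := by
    intro s a
    induction s using Quotient.inductionOn with
    | h p => exact congrArg (Quotient.mk X4cSet) (nbX_nbX p a)
  share := by
    intro s a v h
    induction s using Quotient.inductionOn with
    | h p =>
      have h' : crg f p v a = 0 := by rw [← X4cL_spec]; exact h
      change X4cL f (nbX p a) v = X4cL f p v
      rw [X4cL_spec, X4cL_spec]
      exact crg_share f p a v h'
  side := by
    intro s a
    induction s using Quotient.inductionOn with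
    | h p =>
      obtain ⟨k, hk, h⟩ := crg_side f p a
      refine ⟨k, hk, fun v => ?_⟩
      change X4cL f (nbX p a) v a = -k * X4cL f p v a
      rw [X4cL_spec, X4cL_spec]
      exact h v

theorem X4c_main (f : OnePoint ℝ) :
    (∀ v ∈ PosF, ∃ s, ∀ a, 0 ≤ (X4cCells f).L s v a) ∧
    (∀ v ∈ PosF, ∀ s t, (∀ a, 0 ≤ (X4cCells f).L s v a) → (∀ a, 0 ≤ (X4cCells f).L t v a) →
      Relation.ReflTransGen (fun s t => ∃ a, (X4cCells f).L s v a = 0 ∧ t = (X4cCells f).nb s a) s t) := by
  obtain ⟨Q0, hQ0, h0, h1⟩ := exists_generic f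
  refine tessG (X4cCells f) PosF isOpen_PosF convex_PosF ?_ Q0 hQ0 (Quotient.mk X4cSet (1, true)) ?_ ?_
  · intro v hv
    obtain ⟨U, hU, hfin⟩ := tri_locallyFinite hv
    refine ⟨U, hU, ?_⟩
    have h2 : ((fun p : SL(2, ℤ) × Bool => Quotient.mk X4cSet p) ''
        ({γ : SL(2, ℤ) | ∃ Q' ∈ U, fa (iR γ⁻¹) Q' ∈ Tri} ×ˢ (Set.univ : Set Bool))).Finite :=
      (hfin.prod Set.finite_univ).image _
    refine h2.subset ?_
    rintro s ⟨w, hw, hs⟩
    induction s using Quotient.inductionOn with
    | h p =>
      have hs' : ∀ a, 0 ≤ crg f p w a := by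
        intro a
        have := hs a
        change 0 ≤ X4cL f p w a at this
        rwa [X4cL_spec] at this
      exact ⟨p, ⟨⟨w, hw, crd_tri hs'⟩, Set.mem_univ _⟩, rfl⟩
  · intro a
    change 0 < X4cL f (1, true) Q0 a
    rw [X4cL_spec]
    exact h0 a
  · intro s hs
    induction s using Quotient.inductionOn with
    | h p =>
      have hs' : ∀ a, 0 ≤ crg f p Q0 a := by
        intro a
        have := hs a
        change 0 ≤ X4cL f p Q0 a at this
        rwa [X4cL_spec] at this
      apply Quotient.sound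
      rcases h1 p hs' with h | h
      · exact Or.inl h.symm
      · right; rw [h]; simp

theorem crg_cover (f : OnePoint ℝ) {Q : Fm} (hQ : Q ∈ PosF) : ∃ p : SL(2, ℤ) × Bool, ∀ a, 0 ≤ crg f p Q a := by
  obtain ⟨s, hs⟩ := (X4c_main f).1 Q hQ
  induction s using Quotient.inductionOn with
  | h p =>
    refine ⟨p, fun a => ?_⟩
    have := hs a
    change 0 ≤ X4cL f p Q a at this
    rwa [X4cL_spec] at this

theorem X4c_lift (f : OnePoint ℝ) (Q : Fm) (p q : SL(2, ℤ) × Bool) (h : X4cSet.r p q) :
    Relation.ReflTransGen (XStep f Q) p q := by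
  rcases h with h | h
  · rw [h]
  · exact Relation.ReflTransGen.single (Or.inl h)

theorem crg_chain (f : OnePoint ℝ) {Q : Fm} (hQ : Q ∈ PosF) (p q : SL(2, ℤ) × Bool)
    (hp : ∀ a, 0 ≤ crg f p Q a) (hq : ∀ a, 0 ≤ crg f q Q a) :
    Relation.ReflTransGen (XStep f Q) p q := by
  have hmain := (X4c_main f).2 Q hQ (Quotient.mk X4cSet p) (Quotient.mk X4cSet q)
    (fun a => by
      change 0 ≤ X4cL f p Q a
      rw [X4cL_spec]; exact hp a)
    (fun a => by
      change 0 ≤ X4cL f q Q a
      rw [X4cL_spec]; exact hq a)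
  have key : ∀ t : Quotient X4cSet,
      Relation.ReflTransGen (fun s t => ∃ a, (X4cCells f).L s Q a = 0 ∧ t = (X4cCells f).nb s a)
        (Quotient.mk X4cSet p) t →
      ∀ r : SL(2, ℤ) × Bool, Quotient.mk X4cSet r = t → Relation.ReflTransGen (XStep f Q) p r := by
    intro t ht
    induction ht with
    | refl =>
      intro r hr
      exact X4c_lift f Q p r (Quotient.exact hr.symm)
    | @tail b c _ hbc ih =>
      intro r hr
      obtain ⟨a, ha, hc⟩ := hbc
      obtain ⟨p', rfl⟩ := Quotient.exists_rep b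
      have h1 := ih p' rfl
      have ha' : crg f p' Q a = 0 := by rw [← X4cL_spec]; exact ha
      have h2 : Relation.ReflTransGen (XStep f Q) p (nbX p' a) :=
        h1.tail (Or.inr ⟨a, ha', rfl⟩)
      have h3 : Quotient.mk X4cSet (nbX p' a) = Quotient.mk X4cSet r := by
        rw [hr, hc]; rfl
      exact h2.trans (X4c_lift f Q _ r (Quotient.exact h3))
  exact key _ hmain q rfl

end Pool.AML
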