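import Pool.Agent.AML.X.TW

/-! [AML-X5a] The chart `PhX`: positivity, behaviour under translation and side pairing, continuity.

Everything in coordinates `(β∞, β0, β1)`: `bary` is linear, injective, `bary (1,0,0) = N∞ = nf (1,0)`, `bary (0,1,0) = nf (0,1)`,
`bary (0,0,1) = nf (1,1)`, `dtF (bary β) = β∞ β0 + β∞ β1 + β0 β1`.
`b0_mem`: `T0v, T1v, wF ∈ PosF ∩ Tri`, convex combination plus `h N∞`.
Matrices: `T = (1,1;0,1)`: `fa T (bary (β∞, β0, 0)) = bary (β∞, 0, β0)`, `mob T f = TT f`. `ρ = (1,-1;1,0)`: `fa ρ (bary (β∞, β0, β1)) = bary (β0, β1, β∞)`,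
`mob ρ f = TT (SS f)`.
`b0_one`: `fa T (b0 0 (TTi f)) = T1v f = b0 1 f`, so the formula `PhX (x, f, h) = pt (b0 (x - n) (TTn (-n) f) + h N∞) (TTn (-n) f)` holds for all
`n ≤ x ≤ n + 1` (`PhX_eq`), by `pt_act` at the end point. Continuity: on each closed piece `n ≤ x ≤ n + 1` (`b0` is continuous: the two formulas agree at
`x = 1/2`), locally finite closed cover (`LocallyFinite.continuous`).
`PhX_T`: by `PhX_eq`. `PhX_S`: for `|x| ≤ 1/2`: let `0 ≤ x ≤ 1/2`: `fa ρ (b0 x f) = b0 (1 - x) (TT (SS f))`: `ρ·T0v f = bary (1/τ f, 0, τ f) = T1v (TT (SS f))` because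
`TTi (TT (SS f)) = SS f` and `τ (SS f) = 1/τ f`; `ρ·wF f = wF (TT (SS f))`. So `PhX (x, f, 0) = PhX (1 - x, TT (SS f), 0) = PhX (-x, SS f, 0)` (`PhX_T`). For `-1/2 ≤ x ≤ 0` apply it to
`(-x, SS f)`. -/

set_option linter.style.longLine false

open Topology Set
open scoped MatrixGroups

namespace Pool.AML

/-! ### The matrices `T`, `ρ` -/

/-- `T`. -/
def X5a_T : SL(2, ℤ) := ⟨!![1, 1; 0, 1], by simp [Matrix.det_fin_two]⟩

/-- `ρ`. -/
def X5a_R : SL(2, ℤ) := ⟨!![1, -1; 1, 0], by simp [Matrix.det_fin_two]⟩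

theorem X5a_iR_apply (γ : SL(2, ℤ)) (i j : Fin 2) : (iR γ).1 i j = ((γ.1 i j : ℤ) : ℝ) := rfl

theorem X5a_iR_T : (iR X5a_T).1 = !![1, 1; 0, 1] := by
  ext i j
  rw [X5a_iR_apply]
  fin_cases i <;> fin_cases j <;> simp [X5a_T]

theorem X5a_iR_R : (iR X5a_R).1 = !![1, -1; 1, 0] := by
  ext i j
  rw [X5a_iR_apply]
  fin_cases i <;> fin_cases j <;> simp [X5a_R]

theorem X5a_mv_T (v : ℝ × ℝ) : mv (iR X5a_T) v = (v.1 + v.2, v.2) := by
  unfold mv; rw [X5a_iR_T]; simp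

theorem X5a_mv_R (v : ℝ × ℝ) : mv (iR X5a_R) v = (v.1 - v.2, v.1) := by
  unfold mv; rw [X5a_iR_R]; simp; ring

theorem X5a_fa_T (Q : Fm) : fa (iR X5a_T) Q = (Q.1 + 2 * Q.2.1 + Q.2.2, Q.2.1 + Q.2.2, Q.2.2) := by
  unfold fa; rw [X5a_iR_T]; simp

theorem X5a_fa_R (Q : Fm) : fa (iR X5a_R) Q = (Q.1 - 2 * Q.2.1 + Q.2.2, Q.1 - Q.2.1, Q.1) := by
  unfold fa; rw [X5a_iR_R]; simp; constructor <;> ring

theorem X5a_mob_T (f : OnePoint ℝ) : mob (iR X5a_T) f = TT f := by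
  unfold mob
  rw [X5a_mv_T]
  conv_rhs => rw [← cls_rep f]
  rw [TT_cls (rep_ne_zero f)]

theorem X5a_mob_R (f : OnePoint ℝ) : mob (iR X5a_R) f = TT (SS f) := by
  unfold mob
  rw [X5a_mv_R]
  conv_rhs => rw [← cls_rep f]
  rw [SS_cls (rep_ne_zero f), TT_cls]
  · congr 1
    ext
    · simp; ring
    · rfl
  · intro h
    apply rep_ne_zero f
    have h1 := congrArg Prod.fst h
    have h2 := congrArg Prod.snd h
    simp at h1 h2
    exact Prod.ext h2 h1

theorem X5a_fa_T0v (f : OnePoint ℝ) : fa (iR X5a_T) (T0v f) = T1v (TT f) := by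
  rw [X5a_fa_T]
  unfold T0v T1v bary
  rw [TTi_TT]
  ext <;> simp

theorem X5a_fa_Ninf : fa (iR X5a_T) Ninf = Ninf := by
  rw [X5a_fa_T]
  unfold Ninf
  ext <;> simp

theorem X5a_fa_R_T0v (f : OnePoint ℝ) : fa (iR X5a_R) (T0v f) = T1v (TT (SS f)) := by
  rw [X5a_fa_R]
  unfold T0v T1v bary
  rw [TTi_TT, tau_spec.2.2.1 f, inv_inv]
  ext
  · simp; ring
  · simp
  · simp

theorem X5a_fa_R_wF (f : OnePoint ℝ) : fa (iR X5a_R) (wF f) = wF (TT (SS f)) := by
  rw [X5a_fa_R]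
  unfold wF bary
  rw [wv_spec.2.2.1 f]
  ext
  · simp; ring
  · simp
  · simp; ring

/-! ### Positivity -/

theorem X5a_mem {a b c : ℝ} (ha : 0 < a) (hb : 0 ≤ b) (hc : 0 ≤ c) (hbc : 0 < b + c) :
    bary (a, b, c) ∈ PosF ∧ bary (a, b, c) ∈ Tri := by
  unfold bary PosF Tri
  refine ⟨⟨?_, ?_⟩, ?_, ?_, ?_⟩ <;> simp only
  · linarith
  · have h : (a + c) * (b + c) - c ^ 2 = a * (b + c) + b * c := by ring
    rw [h]
    have h1 := mul_pos ha hbc
    have h2 := mul_nonneg hb hc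
    linarith
  · exact hc
  · linarith
  · linarith

theorem b0_mem {x : ℝ} (h0 : 0 ≤ x) (h1 : x ≤ 1) (f : OnePoint ℝ) {h : ℝ} (hh : 0 ≤ h) :
    b0 x f + h • Ninf ∈ PosF ∧ b0 x f + h • Ninf ∈ Tri := by
  obtain ⟨hw1, hw2, hw3⟩ := wv_spec.2.1 f
  have ht := tau_spec.2.1 f
  have ht' := tau_spec.2.1 (TTi f)
  have hti := inv_pos.2 ht
  have hti' := inv_pos.2 ht'
  unfold b0
  split_ifs with hx
  · have e : (1 - 2 * x) • T0v f + (2 * x) • wF f + h • Ninf =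
        bary ((1 - 2 * x) * tau f + 2 * x * (wv f).1 + h, (1 - 2 * x) * (tau f)⁻¹ + 2 * x * (wv f).2.1, 2 * x * (wv f).2.2) := by
      unfold T0v wF Ninf bary
      ext
      · simp; ring
      · simp
      · simp; ring
    rw [e]
    have p1 : 0 ≤ 1 - 2 * x := by linarith
    have p2 : 0 ≤ 2 * x := by linarith
    have q1 : 0 ≤ (1 - 2 * x) * tau f := mul_nonneg p1 ht.le
    have q2 : 0 ≤ (1 - 2 * x) * (tau f)⁻¹ := mul_nonneg p1 hti.le
    have q3 : 0 ≤ 2 * x * (wv f).1 := mul_nonneg p2 hw1.le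
    have q4 : 0 ≤ 2 * x * (wv f).2.1 := mul_nonneg p2 hw2.le
    have q5 : 0 ≤ 2 * x * (wv f).2.2 := mul_nonneg p2 hw3.le
    rcases p2.eq_or_lt with hz | hz
    · have hz' : x = 0 := by linarith
      subst hz'
      apply X5a_mem <;> simp <;> linarith
    · have r3 : 0 < 2 * x * (wv f).1 := mul_pos hz hw1
      have r5 : 0 < 2 * x * (wv f).2.2 := mul_pos hz hw3
      apply X5a_mem <;> linarith
  · have e : (2 * x - 1) • T1v f + (2 - 2 * x) • wF f + h • Ninf =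
        bary ((2 * x - 1) * tau (TTi f) + (2 - 2 * x) * (wv f).1 + h, (2 - 2 * x) * (wv f).2.1,
          (2 * x - 1) * (tau (TTi f))⁻¹ + (2 - 2 * x) * (wv f).2.2) := by
      unfold T1v wF Ninf bary
      ext
      · simp; ring
      · simp
      · simp; ring
    rw [e]
    have p1 : 0 < 2 * x - 1 := by linarith
    have p2 : 0 ≤ 2 - 2 * x := by linarith
    have q1 : 0 < (2 * x - 1) * tau (TTi f) := mul_pos p1 ht'
    have q2 : 0 < (2 * x - 1) * (tau (TTi f))⁻¹ := mul_pos p1 hti'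
    have q3 : 0 ≤ (2 - 2 * x) * (wv f).1 := mul_nonneg p2 hw1.le
    have q4 : 0 ≤ (2 - 2 * x) * (wv f).2.1 := mul_nonneg p2 hw2.le
    have q5 : 0 ≤ (2 - 2 * x) * (wv f).2.2 := mul_nonneg p2 hw3.le
    apply X5a_mem <;> linarith

theorem X5a_b0_zero (f : OnePoint ℝ) : b0 0 f = T0v f := by
  unfold b0
  rw [if_pos (by norm_num)]
  simp

theorem X5a_b0_one (f : OnePoint ℝ) : b0 1 f = T1v f := by
  unfold b0
  rw [if_neg (by norm_num)]
  norm_num

/-- end points of the fundamental interval. -/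
theorem X5a_end (f : OnePoint ℝ) {h : ℝ} (hh : 0 ≤ h) :
    pt (b0 1 (TT f) + h • Ninf) (TT f) = pt (b0 0 f + h • Ninf) f := by
  rw [← pt_act X5a_T (b0_mem le_rfl zero_le_one f hh).1 f, X5a_mob_T, fa_add, fa_smul, X5a_fa_Ninf, X5a_b0_zero, X5a_b0_one,
    X5a_fa_T0v]

theorem PhX_eq {x : ℝ} {n : ℤ} (h0 : n ≤ x) (h1 : x ≤ n + 1) (f : OnePoint ℝ) {h : ℝ} (hh : 0 ≤ h) :
    PhX (x, f, h) = pt (b0 (x - n) (TTn (-n) f) + h • Ninf) (TTn (-n) f) := by
  unfold PhX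
  simp only
  rcases h1.lt_or_eq with h2 | h2
  · have hf : ⌊x⌋ = n := Int.floor_eq_iff.2 ⟨h0, h2⟩
    have hf' : Int.fract x = x - n := by rw [← hf, Int.self_sub_floor]
    rw [hf, hf']
  · have hf : ⌊x⌋ = n + 1 := by
      rw [h2]; exact_mod_cast Int.floor_intCast (R := ℝ) (n + 1)
    have hf' : Int.fract x = 0 := by
      rw [← Int.self_sub_floor, hf, h2]; push_cast; ring
    have hx : x - n = 1 := by rw [h2]; ring
    rw [hf, hf', hx]
    have e : TTn (-n) f = TT (TTn (-(n + 1)) f) := by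
      rw [← TTn_one, TTn_add]
      congr 1
      ring
    rw [e, X5a_end _ hh]

theorem PhX_T (x : ℝ) (f : OnePoint ℝ) {h : ℝ} (hh : 0 ≤ h) : PhX (x + 1, TT f, h) = PhX (x, f, h) := by
  unfold PhX
  simp only
  have e : TTn (-⌊x + 1⌋) (TT f) = TTn (-⌊x⌋) f := by
    rw [← TTn_one, TTn_add, Int.floor_add_one]
    congr 1
    ring
  rw [e, Int.fract_add_one]

theorem X5a_faR_b0 {x : ℝ} (h0 : 0 ≤ x) (h1 : x ≤ 1 / 2) (f : OnePoint ℝ) :
    fa (iR X5a_R) (b0 x f) = b0 (1 - x) (TT (SS f)) := by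
  unfold b0
  rw [if_pos h1]
  rw [fa_add, fa_smul, fa_smul, X5a_fa_R_T0v, X5a_fa_R_wF]
  split_ifs with h2
  · have hx : x = 1 / 2 := by linarith
    subst hx
    norm_num
  · congr 2 <;> ring

theorem X5a_S0 {x : ℝ} (h0 : 0 ≤ x) (h1 : x ≤ 1 / 2) (f : OnePoint ℝ) : PhX (-x, SS f, 0) = PhX (x, f, 0) := by
  rw [PhX_eq (n := 0) (by simpa using h0) (by push_cast; linarith) f le_rfl]
  rw [← PhX_T (-x) (SS f) le_rfl]
  rw [PhX_eq (n := 0) (x := -x + 1) (by push_cast; linarith) (by push_cast; linarith) _ le_rfl]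
  simp only [Int.cast_zero, sub_zero, neg_zero, TTn_zero, zero_smul, add_zero]
  have hm := (b0_mem h0 (by linarith) f (h := 0) le_rfl).1
  rw [zero_smul, add_zero] at hm
  rw [← pt_act X5a_R hm f, X5a_mob_R, X5a_faR_b0 h0 h1 f]
  congr 2
  ring

theorem PhX_S {x : ℝ} (hx : |x| ≤ 1 / 2) (f : OnePoint ℝ) : PhX (-x, SS f, 0) = PhX (x, f, 0) := by
  obtain ⟨h1, h2⟩ := abs_le.1 hx
  rcases le_total 0 x with h | h
  · exact X5a_S0 h h2 f
  · have h3 := X5a_S0 (x := -x) (by linarith) (by linarith) (SS f)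
    rw [neg_neg, SS_SS] at h3
    exact h3.symm

theorem PhX_Tn (n : ℤ) (x : ℝ) (f : OnePoint ℝ) {h : ℝ} (hh : 0 ≤ h) :
    PhX (x + n, TTn n f, h) = PhX (x, f, h) := by
  unfold PhX
  simp only
  have e : TTn (-⌊x + n⌋) (TTn n f) = TTn (-⌊x⌋) f := by
    rw [TTn_add, Int.floor_add_intCast]
    congr 1
    ring
  rw [e, Int.fract_add_intCast]

/-! ### Continuity -/

theorem X5a_cont_T0v : Continuous T0v := by
  unfold T0v bary
  have h1 := tau_spec.1
  have h2 : Continuous (fun f => (tau f)⁻¹) := h1.inv₀ (fun f => (tau_spec.2.1 f).ne')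
  fun_prop

theorem X5a_cont_T1v : Continuous T1v := by
  unfold T1v bary
  have h1 : Continuous (fun f => tau (TTi f)) := tau_spec.1.comp continuous_TTi
  have h2 : Continuous (fun f => (tau (TTi f))⁻¹) := h1.inv₀ (fun f => (tau_spec.2.1 _).ne')
  fun_prop

theorem X5a_cont_wF : Continuous wF := by
  unfold wF bary
  have h1 := wv_spec.1
  fun_prop

theorem X5a_cont_b0 : Continuous (fun p : ℝ × OnePoint ℝ => b0 p.1 p.2) := by
  unfold b0
  have h0 := X5a_cont_T0v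
  have h1 := X5a_cont_T1v
  have h2 := X5a_cont_wF
  apply Continuous.if_le
  · fun_prop
  · fun_prop
  · fun_prop
  · fun_prop
  · intro p hp
    rw [hp]
    norm_num

theorem X5a_locFin : LocallyFinite (fun n : ℤ => Icc (n : ℝ) (n + 1)) := by
  intro x
  refine ⟨Ioo (x - 1) (x + 1), Ioo_mem_nhds (by linarith) (by linarith), ?_⟩
  apply (Set.finite_Icc (⌊x⌋ - 2) (⌊x⌋ + 2)).subset
  rintro n ⟨y, ⟨hy1, hy2⟩, hy3, hy4⟩
  have h1 := Int.floor_le x
  have h2 := Int.lt_floor_add_one x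
  constructor
  · have : ((⌊x⌋ - 2 : ℤ) : ℝ) < n + 1 := by push_cast; linarith
    have h3 : ⌊x⌋ - 2 < n + 1 := by exact_mod_cast this
    omega
  · have : (n : ℝ) < ((⌊x⌋ + 2 : ℤ) : ℝ) := by push_cast; linarith
    have h3 : n < ⌊x⌋ + 2 := by exact_mod_cast this
    omega

theorem continuous_PhX : Continuous (fun p : V => PhX p.1) := by
  have hx : Continuous (fun p : V => p.1.1) := continuous_fst.comp continuous_subtype_val
  have hf : Continuous (fun p : V => p.1.2.1) := (continuous_fst.comp continuous_snd).comp continuous_subtype_val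
  have hh : Continuous (fun p : V => p.1.2.2) := (continuous_snd.comp continuous_snd).comp continuous_subtype_val
  have hlf : LocallyFinite (fun n : ℤ => {p : V | (n : ℝ) ≤ p.1.1 ∧ p.1.1 ≤ n + 1}) :=
    X5a_locFin.preimage_continuous hx
  refine hlf.continuous ?_ ?_ ?_
  · rw [Set.iUnion_eq_univ_iff]
    intro p
    exact ⟨⌊p.1.1⌋, Int.floor_le _, (Int.lt_floor_add_one _).le⟩
  · intro n
    exact (isClosed_le continuous_const hx).inter (isClosed_le hx continuous_const)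
  · intro n
    rw [continuousOn_iff_continuous_restrict]
    have hmem : ∀ p : {p : V | (n : ℝ) ≤ p.1.1 ∧ p.1.1 ≤ n + 1},
        b0 (p.1.1.1 - n) (TTn (-n) p.1.1.2.1) + p.1.1.2.2 • Ninf ∈ PosF := fun p =>
      (b0_mem (by linarith [p.2.1]) (by linarith [p.2.2]) _ p.1.2.1).1
    have hc1 : Continuous (fun p : {p : V | (n : ℝ) ≤ p.1.1 ∧ p.1.1 ≤ n + 1} =>
        b0 (p.1.1.1 - n) (TTn (-n) p.1.1.2.1) + p.1.1.2.2 • Ninf) := by
      have c1 : Continuous (fun p : {p : V | (n : ℝ) ≤ p.1.1 ∧ p.1.1 ≤ n + 1} =>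
          ((p.1.1.1 - n, TTn (-n) p.1.1.2.1) : ℝ × OnePoint ℝ)) :=
        ((hx.comp continuous_subtype_val).sub continuous_const).prodMk
          ((continuous_TTn (-n)).comp (hf.comp continuous_subtype_val))
      have c2 := X5a_cont_b0.comp c1
      have c3 : Continuous (fun p : {p : V | (n : ℝ) ≤ p.1.1 ∧ p.1.1 ≤ n + 1} => p.1.1.2.2 • Ninf) :=
        (hh.comp continuous_subtype_val).smul continuous_const
      exact c2.add c3
    have hc2 : Continuous (fun p : {p : V | (n : ℝ) ≤ p.1.1 ∧ p.1.1 ≤ n + 1} =>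
        ((⟨_, hmem p⟩, TTn (-n) p.1.1.2.1) : PosF × OnePoint ℝ)) :=
      (hc1.subtype_mk hmem).prodMk ((continuous_TTn (-n)).comp (hf.comp continuous_subtype_val))
    have hc3 := continuous_pt.comp hc2
    refine hc3.congr fun p => ?_
    exact (PhX_eq p.2.1 p.2.2 p.1.1.2.1 p.1.2.1).symm

end Pool.AML
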