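import Pool.Agent.AML.X.X5a

/-! [AML-X6d] The chart meets the link exactly in the slits at the bottom.

By `PhX_eq`, `PhX_Tn` and translation invariance of `slit` we may assume `0 ≤ x ≤ 1`. By `link_tri` (X6a) `PhX (x, f, h)` is on the link iff `f = lev k` and
`Lb (levMat k) Q = 0` for some `k`, `Q = b0 x f + h N∞`. Let `c = (levMat k).2.2.1 ≠ 0` and `ℓ = Lb (levMat k) / c`, i.e.
`ℓ(Q) = Q11 - (f + b) Q12 + f b Q22`, `b = rept (levMat k)` (`lev_mul_rept`, `lev_add_rept`). Then `ℓ(N∞) = 1`;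
`ℓ(T0v f) = τ + f b / τ`, which is `0` if `cr k` (`τ² = -f b`, `tau_spec`, `ht_sq`) and `> 0` if not `cr k` (then `f b > 0`: table `b c < 0`, decide);
`ℓ(T1v f) = τ' + (1 - f)(1 - b)/τ'`, `τ' = tau (TTi f)`: `0` if `tinv k = some j` (then `f - 1 = lev j`, `b - 1 = rept (levMat j)`), and `> 0` otherwise;
`ℓ(wF f) = 0`: `wF (lev k) = bary (wl k)` is the sum of the crossing forms of two of the three edges, each with `ℓ = 0` (third edge: `bary (0, τ'', 1/τ'')`,
`τ'' = ht (k + 36)`; `ℓ = τ'' f b + (1 - f)(1 - b)/τ'' = 0` because `τ''² = -lev (k+36) * rept (levMat (k+36))`, `lev (k+36) = 1 - 1/f`, `rept .. = 1 - 1/b`). So for `x ≤ 1/2`,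
`ℓ(Q) = (1 - 2x) ℓ(T0v) + h`, and it is zero iff `h = 0` and (`x = 1/2` or `cr k`); for `x ≥ 1/2`: iff `h = 0` and (`x = 1/2` or `tinv k = some j`). Compare with `slit x f`
(`n = 0`: `x ≤ 1/2`, `cr k`; `n = 1`: `x ≥ 1/2`, `f = lev j + 1 = lev (tt j)`; at `x = 1/2` every `k` has `cr k` or `tinv k ≠ none`, decide). -/

set_option linter.style.longLine false

open Topology Set
open scoped MatrixGroups

namespace Pool.AML

theorem X6d_tab1 : ∀ k : Fin 54, (levMat k).2.2.1 ≠ 0 ∧ (levMat k).2.1 ≠ 0 ∧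
    (cr k = false → (levMat k).2.1 * (levMat k).2.2.1 < 0) ∧
    ((tinv k).isSome = false → 0 < ((levMat k).2.2.1 + (levMat k).2.2.2 - (levMat k).1 - (levMat k).2.1) * (levMat k).2.2.1) ∧
    (cr k = true → (tinv (tt k)).isSome = true) ∧ (cr k = true ∨ (tinv k).isSome = true) ∧
    (levMat (k + 36)) = ((levMat k).2.2.2 - (levMat k).2.1, (levMat k).1 + (levMat k).2.1 - (levMat k).2.2.1 - (levMat k).2.2.2,
      -(levMat k).2.1, (levMat k).1 + (levMat k).2.1) := by
  decide +kernel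

theorem X6d_tab2 : ∀ k : Fin 54, ∀ j : Fin 54, tinv k = some j → cr j = true ∧ tt j = k ∧
    (levMat k).2.2.1 = (levMat j).2.2.1 ∧ (levMat k).1 = (levMat j).1 + (levMat j).2.2.1 ∧
    (levMat k).2.2.2 = (levMat j).2.2.2 - (levMat j).2.2.1 := by
  decide +kernel

theorem X6d_c (k : Fin 54) : ((levMat k).2.2.1 : ℝ) ≠ 0 := by
  exact_mod_cast (X6d_tab1 k).1

theorem X6d_b (k : Fin 54) : ((levMat k).2.1 : ℝ) ≠ 0 := by
  exact_mod_cast (X6d_tab1 k).2.1

/-- the normalised linear form. -/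
theorem X6d_ell (k : Fin 54) (Q : Fm) : Lb (levMat k) Q / (levMat k).2.2.1 =
    Q.1 - (lev k + rept (levMat k)) * Q.2.1 + lev k * rept (levMat k) * Q.2.2 := by
  have hc := X6d_c k
  rw [lev_mul_rept, lev_add_rept]
  unfold Lb
  field_simp
  ring

theorem X6d_ell_bary (k : Fin 54) (b : ℝ × ℝ × ℝ) : Lb (levMat k) (bary b) / (levMat k).2.2.1 =
    b.1 + lev k * rept (levMat k) * b.2.1 + (1 - lev k) * (1 - rept (levMat k)) * b.2.2 := by
  rw [X6d_ell]
  unfold bary
  ring

theorem X6d_one (k : Fin 54) : (1 - lev k) * (1 - rept (levMat k)) =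
    (((levMat k).2.2.1 : ℝ) + (levMat k).2.2.2 - (levMat k).1 - (levMat k).2.1) / (levMat k).2.2.1 := by
  have hc := X6d_c k
  have h1 := lev_mul_rept k
  have h2 := lev_add_rept k
  have : (1 - lev k) * (1 - rept (levMat k)) = 1 - (lev k + rept (levMat k)) + lev k * rept (levMat k) := by ring
  rw [this, h1, h2]
  field_simp
  ring

theorem X6d_rept (k j : Fin 54) (h : tinv k = some j) : lev k = lev j + 1 ∧ rept (levMat k) = rept (levMat j) + 1 := by
  obtain ⟨h1, h2, h3, h4, h5⟩ := X6d_tab2 k j h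
  have e1 : lev k = lev j + 1 := by
    rw [← h2]; exact lev_tt j h1
  refine ⟨e1, ?_⟩
  have a1 := lev_add_rept k
  have a2 := lev_add_rept j
  have hc := X6d_c j
  rw [h3, h4, h5] at a1
  push_cast at a1
  have : (((levMat j).1 : ℝ) + (levMat j).2.2.1 - ((levMat j).2.2.2 - (levMat j).2.2.1)) / (levMat j).2.2.1 =
      (((levMat j).1 : ℝ) - (levMat j).2.2.2) / (levMat j).2.2.1 + 2 := by
    field_simp
    ring
  rw [this, ← a2] at a1
  linarith

/-- the edge `(1, ∞)`. -/
theorem X6d_edge1 (k j : Fin 54) (h : tinv k = some j) :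
    ht j + (1 - lev k) * (1 - rept (levMat k)) * (ht j)⁻¹ = 0 := by
  obtain ⟨h1, h2⟩ := X6d_rept k j h
  have hj := (X6d_tab2 k j h).1
  have hp := ht_pos j hj
  have hs := ht_sq j hj
  rw [h1, h2]
  have : (1 - (lev j + 1)) * (1 - (rept (levMat j) + 1)) = lev j * rept (levMat j) := by ring
  rw [this]
  have e : lev j * rept (levMat j) = -(ht j ^ 2) := by linarith
  rw [e]
  field_simp
  ring

theorem X6d_edge0 (k : Fin 54) (h : cr k = true) :
    ht k + lev k * rept (levMat k) * (ht k)⁻¹ = 0 := by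
  have hp := ht_pos k h
  have hs := ht_sq k h
  have e : lev k * rept (levMat k) = -(ht k ^ 2) := by linarith
  rw [e]
  field_simp
  ring

theorem X6d_edge2 (k : Fin 54) (h : cr (k + 36) = true) :
    lev k * rept (levMat k) * ht (k + 36) + (1 - lev k) * (1 - rept (levMat k)) * (ht (k + 36))⁻¹ = 0 := by
  have hp := ht_pos (k + 36) h
  have hs := ht_sq (k + 36) h
  have hc := X6d_c k
  have hb := X6d_b k
  have ht36 := (X6d_tab1 k).2.2.2.2.2.2
  rw [lev_mul_rept, ht36] at hs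
  push_cast at hs
  rw [X6d_one, lev_mul_rept]
  have e : -((levMat k).2.1 : ℝ) / (levMat k).2.2.1 * ht (k + 36) ^ 2 +
      (((levMat k).2.2.1 : ℝ) + (levMat k).2.2.2 - (levMat k).1 - (levMat k).2.1) / (levMat k).2.2.1 = 0 := by
    rw [hs]
    field_simp
    ring
  have : -((levMat k).2.1 : ℝ) / (levMat k).2.2.1 * ht (k + 36) +
      (((levMat k).2.2.1 : ℝ) + (levMat k).2.2.2 - (levMat k).1 - (levMat k).2.1) / (levMat k).2.2.1 * (ht (k + 36))⁻¹ =
      (-((levMat k).2.1 : ℝ) / (levMat k).2.2.1 * ht (k + 36) ^ 2 +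
      (((levMat k).2.2.1 : ℝ) + (levMat k).2.2.2 - (levMat k).1 - (levMat k).2.1) / (levMat k).2.2.1) * (ht (k + 36))⁻¹ := by
    have hne := hp.ne'
    field_simp
  rw [this, e, zero_mul]

theorem slit_TTn (n : ℤ) (x : ℝ) (f : OnePoint ℝ) : slit (x + n) (TTn n f) ↔ slit x f := by
  induction f using OnePoint.rec with
  | infty =>
    rw [TTn_infty]
    constructor
    · rintro ⟨m, -, k, -, h⟩
      exact absurd h.symm (OnePoint.coe_ne_infty _)
    · rintro ⟨m, -, k, -, h⟩
      exact absurd h.symm (OnePoint.coe_ne_infty _)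
  | coe y =>
    rw [TTn_coe]
    constructor
    · rintro ⟨m, hm, k, hk, h⟩
      refine ⟨m - n, ?_, k, hk, ?_⟩
      · rw [Int.cast_sub]
        have : x - ((m : ℝ) - n) = x + n - m := by ring
        rw [this]; exact hm
      · rw [OnePoint.coe_eq_coe] at h ⊢
        rw [Int.cast_sub]
        linarith
    · rintro ⟨m, hm, k, hk, h⟩
      refine ⟨m + n, ?_, k, hk, ?_⟩
      · rw [Int.cast_add]
        have : x + n - ((m : ℝ) + n) = x - m := by ring
        rw [this]; exact hm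
      · rw [OnePoint.coe_eq_coe] at h ⊢
        rw [Int.cast_add]
        linarith


theorem Lb_Ninf (k : Fin 54) : Lb (levMat k) Ninf / (levMat k).2.2.1 = 1 := by
  rw [X6d_ell]
  unfold Ninf
  ring


theorem Lb_T0v (k : Fin 54) : 0 ≤ Lb (levMat k) (T0v ((lev k : ℝ) : OnePoint ℝ)) / (levMat k).2.2.1 ∧
    (Lb (levMat k) (T0v ((lev k : ℝ) : OnePoint ℝ)) / (levMat k).2.2.1 = 0 ↔ cr k = true) := by
  unfold T0v
  rw [X6d_ell_bary]
  simp only [mul_zero, add_zero]
  obtain ⟨-, htp, -, hth⟩ := tau_spec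
  cases hcr : cr k
  · have hp := htp ((lev k : ℝ) : OnePoint ℝ)
    have hfr : 0 < lev k * rept (levMat k) := by
      rw [lev_mul_rept]
      have h := (X6d_tab1 k).2.2.1 hcr
      have h' : ((levMat k).2.1 : ℝ) * (levMat k).2.2.1 < 0 := by exact_mod_cast h
      have hc := X6d_c k
      have : -((levMat k).2.1 : ℝ) / (levMat k).2.2.1 = -(((levMat k).2.1 : ℝ) * (levMat k).2.2.1) / ((levMat k).2.2.1 : ℝ) ^ 2 := by
        field_simp
      rw [this]
      have hc2 : 0 < ((levMat k).2.2.1 : ℝ) ^ 2 := by positivity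
      exact div_pos (by linarith) hc2
    have hpos : 0 < tau ((lev k : ℝ) : OnePoint ℝ) + lev k * rept (levMat k) * (tau ((lev k : ℝ) : OnePoint ℝ))⁻¹ := by positivity
    refine ⟨hpos.le, ?_⟩
    constructor
    · intro h; exact absurd h hpos.ne'
    · intro h; simp at h
  · rw [hth k hcr, X6d_edge0 k hcr]
    simp


theorem Lb_T1v (k : Fin 54) : 0 ≤ Lb (levMat k) (T1v ((lev k : ℝ) : OnePoint ℝ)) / (levMat k).2.2.1 ∧
    (Lb (levMat k) (T1v ((lev k : ℝ) : OnePoint ℝ)) / (levMat k).2.2.1 = 0 ↔ (tinv k).isSome = true) := by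
  unfold T1v
  rw [X6d_ell_bary]
  simp only [mul_zero, add_zero]
  obtain ⟨-, htp, -, hth⟩ := tau_spec
  cases hti : tinv k with
  | none =>
    have hp := htp (TTi ((lev k : ℝ) : OnePoint ℝ))
    have hfr : 0 < (1 - lev k) * (1 - rept (levMat k)) := by
      rw [X6d_one]
      have h := (X6d_tab1 k).2.2.2.1 (by rw [hti]; rfl)
      have h' : 0 < (((levMat k).2.2.1 : ℝ) + (levMat k).2.2.2 - (levMat k).1 - (levMat k).2.1) * (levMat k).2.2.1 := by
        exact_mod_cast h
      have hc := X6d_c k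
      have : (((levMat k).2.2.1 : ℝ) + (levMat k).2.2.2 - (levMat k).1 - (levMat k).2.1) / (levMat k).2.2.1 =
          ((((levMat k).2.2.1 : ℝ) + (levMat k).2.2.2 - (levMat k).1 - (levMat k).2.1) * (levMat k).2.2.1) / ((levMat k).2.2.1 : ℝ) ^ 2 := by
        field_simp
      rw [this]
      have hc2 : 0 < ((levMat k).2.2.1 : ℝ) ^ 2 := by positivity
      exact div_pos h' hc2
    have hpos : 0 < tau (TTi ((lev k : ℝ) : OnePoint ℝ)) +
        (1 - lev k) * (1 - rept (levMat k)) * (tau (TTi ((lev k : ℝ) : OnePoint ℝ)))⁻¹ := by positivity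
    refine ⟨hpos.le, ?_⟩
    constructor
    · intro h; exact absurd h hpos.ne'
    · intro h; simp at h
  | some j =>
    have hj := (X6d_tab2 k j hti).1
    have e : TTi ((lev k : ℝ) : OnePoint ℝ) = ((lev j : ℝ) : OnePoint ℝ) := by
      rw [TTi_coe, (X6d_rept k j hti).1]
      congr 1
      ring
    rw [e, hth j hj, X6d_edge1 k j hti]
    simp


theorem Lb_wF (k : Fin 54) : Lb (levMat k) (wF ((lev k : ℝ) : OnePoint ℝ)) = 0 := by
  have hc := X6d_c k
  have key : Lb (levMat k) (wF ((lev k : ℝ) : OnePoint ℝ)) / (levMat k).2.2.1 = 0 := by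
    unfold wF
    rw [wv_spec.2.2.2 k, X6d_ell_bary]
    have h0 : (if cr k then ht k else 0) + lev k * rept (levMat k) * (if cr k then (ht k)⁻¹ else 0) = 0 := by
      by_cases h : cr k = true
      · rw [if_pos h, if_pos h]; exact X6d_edge0 k h
      · rw [if_neg h, if_neg h]; ring
    have h1 : (match tinv k with | some j => ht j | none => 0) +
        (1 - lev k) * (1 - rept (levMat k)) * (match tinv k with | some j => (ht j)⁻¹ | none => 0) = 0 := by
      cases hti : tinv k with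
      | none => simp
      | some j => exact X6d_edge1 k j hti
    have h2 : lev k * rept (levMat k) * (if cr (k + 36) then ht (k + 36) else 0) +
        (1 - lev k) * (1 - rept (levMat k)) * (if cr (k + 36) then (ht (k + 36))⁻¹ else 0) = 0 := by
      by_cases h : cr (k + 36) = true
      · rw [if_pos h, if_pos h]; exact X6d_edge2 k h
      · rw [if_neg h, if_neg h]; ring
    have hw : wl k = ((if cr k then ht k else 0) + (match tinv k with | some j => ht j | none => 0),
      (if cr k then (ht k)⁻¹ else 0) + (if cr (k + 36) then ht (k + 36) else 0),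
      (match tinv k with | some j => (ht j)⁻¹ | none => 0) + (if cr (k + 36) then (ht (k + 36))⁻¹ else 0)) := rfl
    rw [hw]
    linear_combination h0 + h1 + h2
  rw [div_eq_zero_iff] at key
  rcases key with h | h
  · exact h
  · exact absurd h hc


theorem X6d_unit (x : ℝ) (h0 : 0 ≤ x) (h1 : x ≤ 1) (f : OnePoint ℝ) {h : ℝ} (hh : 0 ≤ h) :
    (∃ k : Fin 54, f = ((lev k : ℝ) : OnePoint ℝ) ∧ Lb (levMat k) (b0 x f + h • Ninf) = 0) ↔ (h = 0 ∧ slit x f) := by
  have hdiv : ∀ (k : Fin 54) (Q : Fm), Lb (levMat k) Q = 0 ↔ Lb (levMat k) Q / (levMat k).2.2.1 = 0 := by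
    intro k Q
    rw [div_eq_zero_iff]
    constructor
    · intro h; exact Or.inl h
    · rintro (h | h)
      · exact h
      · exact absurd h (X6d_c k)
  have hval1 : ∀ k : Fin 54, x ≤ 1 / 2 → Lb (levMat k) (b0 x ((lev k : ℝ) : OnePoint ℝ) + h • Ninf) / (levMat k).2.2.1 =
      (1 - 2 * x) * (Lb (levMat k) (T0v ((lev k : ℝ) : OnePoint ℝ)) / (levMat k).2.2.1) + h := by
    intro k hx
    unfold b0
    rw [if_pos hx, Lb_add, Lb_add, Lb_smul, Lb_smul, Lb_smul, Lb_wF]
    have := Lb_Ninf k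
    rw [add_div, add_div, mul_div_assoc, mul_div_assoc h, this]
    ring
  have hval2 : ∀ k : Fin 54, ¬ x ≤ 1 / 2 → Lb (levMat k) (b0 x ((lev k : ℝ) : OnePoint ℝ) + h • Ninf) / (levMat k).2.2.1 =
      (2 * x - 1) * (Lb (levMat k) (T1v ((lev k : ℝ) : OnePoint ℝ)) / (levMat k).2.2.1) + h := by
    intro k hx
    unfold b0
    rw [if_neg hx, Lb_add, Lb_add, Lb_smul, Lb_smul, Lb_smul, Lb_wF]
    have := Lb_Ninf k
    rw [add_div, add_div, mul_div_assoc, mul_div_assoc h, this]
    ring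
  constructor
  · rintro ⟨k, rfl, hk⟩
    rw [hdiv] at hk
    by_cases hx : x ≤ 1 / 2
    · rw [hval1 k hx] at hk
      obtain ⟨p1, p2⟩ := Lb_T0v k
      have hm : 0 ≤ (1 - 2 * x) * (Lb (levMat k) (T0v ((lev k : ℝ) : OnePoint ℝ)) / (levMat k).2.2.1) :=
        mul_nonneg (by linarith) p1
      have hh0 : h = 0 := by linarith
      have hm0 : (1 - 2 * x) * (Lb (levMat k) (T0v ((lev k : ℝ) : OnePoint ℝ)) / (levMat k).2.2.1) = 0 := by linarith
      refine ⟨hh0, ?_⟩
      by_cases hc : cr k = true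
      · refine ⟨0, ?_, k, hc, ?_⟩
        · rw [Int.cast_zero, sub_zero, abs_of_nonneg h0]; exact hx
        · rw [Int.cast_zero, add_zero]
      · rcases mul_eq_zero.1 hm0 with h' | h'
        · have hti := (X6d_tab1 k).2.2.2.2.2.1.resolve_left hc
          obtain ⟨j, hj⟩ := Option.isSome_iff_exists.1 hti
          refine ⟨1, ?_, j, (X6d_tab2 k j hj).1, ?_⟩
          · rw [Int.cast_one, abs_le]; constructor <;> linarith
          · rw [Int.cast_one, (X6d_rept k j hj).1]
        · exact absurd (p2.1 h') hc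
    · rw [hval2 k hx] at hk
      push Not at hx
      obtain ⟨p1, p2⟩ := Lb_T1v k
      have hm : 0 ≤ (2 * x - 1) * (Lb (levMat k) (T1v ((lev k : ℝ) : OnePoint ℝ)) / (levMat k).2.2.1) :=
        mul_nonneg (by linarith) p1
      have hh0 : h = 0 := by linarith
      have hm0 : (2 * x - 1) * (Lb (levMat k) (T1v ((lev k : ℝ) : OnePoint ℝ)) / (levMat k).2.2.1) = 0 := by linarith
      refine ⟨hh0, ?_⟩
      rcases mul_eq_zero.1 hm0 with h' | h'
      · exfalso; linarith
      · have hti := p2.1 h'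
        obtain ⟨j, hj⟩ := Option.isSome_iff_exists.1 hti
        refine ⟨1, ?_, j, (X6d_tab2 k j hj).1, ?_⟩
        · rw [Int.cast_one, abs_le]; constructor <;> linarith
        · rw [Int.cast_one, (X6d_rept k j hj).1]
  · rintro ⟨rfl, n, hn, k, hk, rfl⟩
    rw [abs_le] at hn
    have hn0 : 0 ≤ n := by
      have : (-1 : ℝ) < n := by linarith [hn.2]
      have : (-1 : ℤ) < n := by exact_mod_cast this
      omega
    have hn1 : n ≤ 1 := by
      have : (n : ℝ) < 2 := by linarith [hn.1]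
      have : n < 2 := by exact_mod_cast this
      omega
    have hn01 : n = 0 ∨ n = 1 := by omega
    rcases hn01 with rfl | rfl
    · rw [Int.cast_zero, add_zero]
      rw [Int.cast_zero, sub_zero] at hn
      refine ⟨k, rfl, ?_⟩
      rw [hdiv, hval1 k hn.2, (Lb_T0v k).2.2 hk]
      ring
    · rw [Int.cast_one] at hn ⊢
      rw [← lev_tt k hk]
      refine ⟨tt k, rfl, ?_⟩
      rw [hdiv]
      by_cases hx : x ≤ 1 / 2
      · rw [hval1 (tt k) hx]
        have hx' : x = 1 / 2 := by linarith [hn.1]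
        rw [hx']
        ring
      · rw [hval2 (tt k) hx, (Lb_T1v (tt k)).2.2 ((X6d_tab1 k).2.2.2.2.1 hk)]
        ring

theorem PhX_link (x : ℝ) (f : OnePoint ℝ) {h : ℝ} (hh : 0 ≤ h) :
    PhX (x, f, h) ∈ modularLink S4 ↔ (h = 0 ∧ slit x f) := by
  have h0 := Int.floor_le x
  have h1 := (Int.lt_floor_add_one x).le
  rw [PhX_eq h0 h1 f hh]
  have g0 : 0 ≤ x - ⌊x⌋ := by linarith
  have g1 : x - ⌊x⌋ ≤ 1 := by linarith
  obtain ⟨m1, m2⟩ := b0_mem g0 g1 (TTn (-⌊x⌋) f) hh
  rw [link_tri m1 m2, X6d_unit _ g0 g1 _ hh]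
  have hs := slit_TTn ⌊x⌋ (x - ⌊x⌋) (TTn (-⌊x⌋) f)
  rw [sub_add_cancel, TTn_add, add_neg_cancel, TTn_zero] at hs
  rw [hs]


end Pool.AML
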