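import Pool.Agent.AML.X.X4c
import Pool.Agent.AML.X.X6d

/-! [AML-X5b] Fibres and image of the chart `PhX`.

`vpt_spec`: if `μ = crd s f Q ≥ 0` and `Q ∈ PosF` then `c = μ1 + μ2 > 0` (otherwise `Q = μ0 N∞` has determinant `0`), `(x, f, h) = vpt s f μ` has `0 ≤ x ≤ 1`, `h ≥ 0`,
`Q = c • (b0 x f + h • N∞)` (`crd_left/right`), so `pt Q f = PhX (vpt s f μ)` (`pt_smul`, `PhX_eq` with `n = 0`). `crd_b0`: conversely, for `0 ≤ x ≤ 1/2`, `crd true f (b0 x f + h N∞) = (h, 1 - 2x, 2x)`,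
`1/2 ≤ x ≤ 1`: `crd false f (..) = (h, 2x - 1, 2 - 2x)`.
`PhX_surj`: `z = pt Q f` (`pt_surj`), `crg_cover` gives `(γ, s)`; `pt Q f = pt (γ⁻¹Q) (γ⁻¹f)` (`pt_act`) `= PhX (vpt ..)`.
(for X5c) `PhX_inj`: let `p, q ∈ V` with `PhX p = PhX q`. By `VStep.T` (`eqvGen_T`-type argument, n-fold translation) we may assume `0 ≤ x ≤ 1` for both. Write `Q = b0 x f + h N∞`, `Q'` similarly;
`pt_eq`: `Q' = c • fa (iR γ) Q`, `f' = mob (iR γ) f`. The flags `(1, s)` and `(γ⁻¹, s')` contain `Q` at the level `f`, with coordinates `(h, 1-2x, 2x)` (or right) and proportional to those of `Q'`.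
`crg_chain` joins them. Along the chain every flag `(δ, t)` contains `Q` with coordinates `μ` (constant up to nothing: `crg_share`), and gives the point `v = vpt t (mob (iR δ⁻¹) f) μ` with
`PhX v = pt Q f` not on the link (`PhX_link`), so `v ∈ V`. Consecutive points are equivalent: sign change: same point; type `1` (`μ1 = 0`): `x = 1/2` on both sides, same point; type `0`
(`μ0 = 0`, left to right): `(x, f₁, 0)` and `(1 - x, TT (SS f₁), 0)`: `VStep.S` then `VStep.T`; type `2` (`μ2 = 0`): `(0, f₁, h)` and `(1, TT f₁, h)`: `VStep.T`. -/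

set_option linter.style.longLine false

open Matrix Topology Set Relation
open scoped MatrixGroups

namespace Pool.AML

theorem X5b_c_pos {s : Bool} {f : OnePoint ℝ} {Q : Fm} (hQ : Q ∈ PosF) (h : ∀ a, 0 ≤ crd s f Q a) :
    0 < crd s f Q 1 + crd s f Q 2 := by
  have h1 := h 1
  have h2 := h 2
  rcases (add_nonneg h1 h2).lt_or_eq with hlt | heq
  · exact hlt
  · exfalso
    have e1 : crd s f Q 1 = 0 := by linarith
    have e2 : crd s f Q 2 = 0 := by linarith
    have hQe : Q = crd s f Q 0 • Ninf := by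
      cases s with
      | true =>
        have h3 := crd_left f Q
        rw [e1, e2, zero_smul, zero_smul, add_zero, add_zero] at h3
        exact h3
      | false =>
        have h3 := crd_right f Q
        rw [e1, e2, zero_smul, zero_smul, add_zero, add_zero] at h3
        exact h3
    have hd := hQ.2
    rw [hQe] at hd
    simp [Ninf] at hd

theorem X5b_comb_true {f : OnePoint ℝ} {Q : Fm} (hc : 0 < crd true f Q 1 + crd true f Q 2)
    (h1 : 0 ≤ crd true f Q 1) :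
    Q = (crd true f Q 1 + crd true f Q 2) •
      (b0 (crd true f Q 2 / (2 * (crd true f Q 1 + crd true f Q 2))) f +
        (crd true f Q 0 / (crd true f Q 1 + crd true f Q 2)) • Ninf) := by
  set m0 := crd true f Q 0 with hm0
  set m1 := crd true f Q 1 with hm1
  set m2 := crd true f Q 2 with hm2
  have hx : m2 / (2 * (m1 + m2)) ≤ 1 / 2 := by
    rw [div_le_iff₀ (by linarith)]; linarith
  have hb : b0 (m2 / (2 * (m1 + m2))) f =
      (1 - 2 * (m2 / (2 * (m1 + m2)))) • T0v f + (2 * (m2 / (2 * (m1 + m2)))) • wF f := if_pos hx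
  have hl : Q = m0 • Ninf + m1 • T0v f + m2 • wF f := crd_left f Q
  have a1 : (m1 + m2) * (1 - 2 * (m2 / (2 * (m1 + m2)))) = m1 := by field_simp; ring
  have a2 : (m1 + m2) * (2 * (m2 / (2 * (m1 + m2)))) = m2 := by field_simp
  have a3 : (m1 + m2) * (m0 / (m1 + m2)) = m0 := by field_simp
  rw [hb, smul_add, smul_add, smul_smul, smul_smul, smul_smul, a1, a2, a3]
  conv_lhs => rw [hl]
  abel

theorem X5b_comb_false {f : OnePoint ℝ} {Q : Fm} (hc : 0 < crd false f Q 1 + crd false f Q 2)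
    (h1 : 0 ≤ crd false f Q 1) :
    Q = (crd false f Q 1 + crd false f Q 2) •
      (b0 (1 - crd false f Q 2 / (2 * (crd false f Q 1 + crd false f Q 2))) f +
        (crd false f Q 0 / (crd false f Q 1 + crd false f Q 2)) • Ninf) := by
  set m0 := crd false f Q 0 with hm0
  set m1 := crd false f Q 1 with hm1
  set m2 := crd false f Q 2 with hm2
  have hl : Q = m0 • Ninf + m1 • T1v f + m2 • wF f := crd_right f Q
  have a3 : (m1 + m2) * (m0 / (m1 + m2)) = m0 := by field_simp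
  by_cases hx : 1 - m2 / (2 * (m1 + m2)) ≤ 1 / 2
  · have hb : b0 (1 - m2 / (2 * (m1 + m2))) f =
        (1 - 2 * (1 - m2 / (2 * (m1 + m2)))) • T0v f + (2 * (1 - m2 / (2 * (m1 + m2)))) • wF f := if_pos hx
    have e1 : m1 = 0 := by
      have h4 : 1 / 2 ≤ m2 / (2 * (m1 + m2)) := by linarith
      rw [le_div_iff₀ (by linarith)] at h4
      linarith
    have a1 : (m1 + m2) * (1 - 2 * (1 - m2 / (2 * (m1 + m2)))) = 0 := by
      rw [e1] at hc ⊢
      field_simp
      ring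
    have a2 : (m1 + m2) * (2 * (1 - m2 / (2 * (m1 + m2)))) = m2 := by
      rw [e1] at hc ⊢
      field_simp
      ring
    rw [hb, smul_add, smul_add, smul_smul, smul_smul, smul_smul, a1, a2, a3]
    conv_lhs => rw [hl]
    rw [e1, zero_smul, zero_smul]
    abel
  · have hb : b0 (1 - m2 / (2 * (m1 + m2))) f =
        (2 * (1 - m2 / (2 * (m1 + m2))) - 1) • T1v f + (2 - 2 * (1 - m2 / (2 * (m1 + m2)))) • wF f := if_neg hx
    have a1 : (m1 + m2) * (2 * (1 - m2 / (2 * (m1 + m2))) - 1) = m1 := by field_simp; ring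
    have a2 : (m1 + m2) * (2 - 2 * (1 - m2 / (2 * (m1 + m2)))) = m2 := by field_simp; ring
    rw [hb, smul_add, smul_add, smul_smul, smul_smul, smul_smul, a1, a2, a3]
    conv_lhs => rw [hl]
    abel

theorem X5b_PhX0 {x : ℝ} (h0 : 0 ≤ x) (h1 : x ≤ 1) (f : OnePoint ℝ) {h : ℝ} (hh : 0 ≤ h) :
    PhX (x, f, h) = pt (b0 x f + h • Ninf) f := by
  have h2 := PhX_eq (x := x) (n := 0) (by simpa using h0) (by simpa using h1) f hh
  simpa [TTn_zero] using h2

theorem vpt_spec {s : Bool} {f : OnePoint ℝ} {Q : Fm} (hQ : Q ∈ PosF) (h : ∀ a, 0 ≤ crd s f Q a) :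
    0 ≤ (vpt s f (crd s f Q)).1 ∧ (vpt s f (crd s f Q)).1 ≤ 1 ∧ 0 ≤ (vpt s f (crd s f Q)).2.2 ∧
    pt Q f = PhX (vpt s f (crd s f Q)) := by
  have hc := X5b_c_pos hQ h
  have h0 := h 0
  have h1 := h 1
  have h2 := h 2
  have hh : 0 ≤ crd s f Q 0 / (crd s f Q 1 + crd s f Q 2) := div_nonneg h0 hc.le
  have hx0 : 0 ≤ crd s f Q 2 / (2 * (crd s f Q 1 + crd s f Q 2)) := div_nonneg h2 (by linarith)
  have hx1 : crd s f Q 2 / (2 * (crd s f Q 1 + crd s f Q 2)) ≤ 1 / 2 := by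
    rw [div_le_iff₀ (by linarith)]; linarith
  cases s with
  | true =>
    have hv : vpt true f (crd true f Q) =
      (crd true f Q 2 / (2 * (crd true f Q 1 + crd true f Q 2)), f,
        crd true f Q 0 / (crd true f Q 1 + crd true f Q 2)) := by simp [vpt]
    rw [hv]
    refine ⟨hx0, by linarith, hh, ?_⟩
    rw [X5b_PhX0 hx0 (by linarith) f hh]
    have hm := (b0_mem hx0 (by linarith) f hh).1
    have he := X5b_comb_true hc h1
    conv_lhs => rw [he]
    exact pt_smul hm f hc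
  | false =>
    have hv : vpt false f (crd false f Q) =
      (1 - crd false f Q 2 / (2 * (crd false f Q 1 + crd false f Q 2)), f,
        crd false f Q 0 / (crd false f Q 1 + crd false f Q 2)) := by simp [vpt]
    rw [hv]
    have hy0 : 0 ≤ 1 - crd false f Q 2 / (2 * (crd false f Q 1 + crd false f Q 2)) := by linarith
    have hy1 : 1 - crd false f Q 2 / (2 * (crd false f Q 1 + crd false f Q 2)) ≤ 1 := by linarith
    refine ⟨hy0, hy1, hh, ?_⟩
    rw [X5b_PhX0 hy0 hy1 f hh]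
    have hm := (b0_mem hy0 hy1 f hh).1
    have he := X5b_comb_false hc h1
    conv_lhs => rw [he]
    exact pt_smul hm f hc

theorem PhX_mem (p : V) : PhX p.1 ∉ modularLink S4 := by
  obtain ⟨⟨x, f, h⟩, hh, hs⟩ := p
  intro hm
  rw [PhX_link x f hh] at hm
  exact hs hm.1 hm.2

theorem PhX_surj {z : T1M} (hz : z ∉ modularLink S4) : ∃ p : V, PhX p.1 = z := by
  obtain ⟨Q, hQ, f, hf⟩ := pt_surj z
  obtain ⟨⟨γ, s⟩, hp⟩ := crg_cover f hQ
  have hQ1 : fa (iR γ⁻¹) Q ∈ PosF := fa_mem _ hQ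
  have hp' : ∀ a, 0 ≤ crd s (mob (iR γ⁻¹) f) (fa (iR γ⁻¹) Q) a := hp
  obtain ⟨h0, h1, h2, h3⟩ := vpt_spec hQ1 hp'
  rw [pt_act γ⁻¹ hQ f, hf] at h3
  refine ⟨⟨vpt s (mob (iR γ⁻¹) f) (crd s (mob (iR γ⁻¹) f) (fa (iR γ⁻¹) Q)), h2, ?_⟩, h3.symm⟩
  intro hh hsl
  apply hz
  rw [h3]
  exact (PhX_link _ _ h2).2 ⟨hh, hsl⟩

theorem PhX_step {p q : V} (h : VStep p q) : PhX p.1 = PhX q.1 := by
  obtain ⟨⟨x, f, h⟩, hh, hs⟩ := p
  obtain ⟨⟨x', f', h'⟩, hh', hs'⟩ := q
  cases h with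
  | T hx hf hh1 =>
    simp only at hx hf hh1
    subst hx hf hh1
    exact (PhX_T x f hh).symm
  | S h1 hp hq hx hf =>
    simp only at h1 hp hq hx hf
    subst hp hq hx hf
    exact (PhX_S h1 f).symm

end Pool.AML
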