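import Pool.Agent.AML.X.X5b

/-! [AML-X5c] Injectivity of the chart `PhX` modulo the elementary identifications.

`PhX_inj`: let `p, q ∈ V` with `PhX p = PhX q`. By n-fold translation (`VStep.T`) we may assume `0 ≤ x ≤ 1` for both. Write `Q = b0 x f + h N∞`, `Q'` similarly;
`pt_eq`: `Q' = c • fa (iR γ) Q`, `f' = mob (iR γ) f`. The flags `(1, s)` and `(γ⁻¹, s')` contain `Q` at the level `f` (`s = true` if `x ≤ 1/2`), with coordinates `(h, 1-2x, 2x)` (left) or
`(h, 2x-1, 2-2x)` (right), resp. proportional to those of `Q'` (use `crd_comb_left/right`). `crg_chain` joins them. Along the chain every flag `(δ, t)` contains `Q` with coordinates `μ`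
(constant along the chain by `crg_share`, `crg_neg`), and gives the point `v = vpt t (mob (iR δ⁻¹) f) μ` with `PhX v = pt Q f` (`vpt_spec`, `pt_act`) not on the link (`PhX_link`), so `v ∈ V`.
Consecutive points are equivalent (`XStep_eqv`): sign change: same point (`mob_neg`); type `1` (`μ1 = 0`): `x = 1/2` on both sides, same point; type `0` (`μ0 = 0`, left to right): `(x, f₁, 0)` and
`(1 - x, TT (SS f₁), 0)`, `x ≤ 1/2`: `VStep.S` then `VStep.T` (the intermediate point `(-x, SS f₁, 0)` is in `V` because `PhX` has the same value, `PhX_S`, `PhX_link`); right to left: reverse; type `2` (`μ2 = 0`):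
`(0, f₁, h)` and `(1, TT f₁, h)`: `VStep.T`, or reverse. The end points of the chain are `p` and `q` (up to `x = 1/2`). -/

set_option linter.style.longLine false

open Matrix Topology Set Relation
open scoped MatrixGroups

namespace Pool.AML

/-! ### Elementary steps -/

theorem X5c_iR_neg (γ : SL(2, ℤ)) : iR (-γ) = -iR γ := by
  ext i j
  simp [iR]

theorem X5c_neg_inv (γ : SL(2, ℤ)) : ((-γ : SL(2, ℤ)))⁻¹ = -(γ⁻¹) := by
  rw [inv_eq_iff_mul_eq_one]
  ext i j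
  simp

theorem X5c_c_pos {s : Bool} {f : OnePoint ℝ} {Q : Fm} (hQ : Q ∈ PosF) (h : ∀ a, 0 ≤ crd s f Q a) :
    0 < crd s f Q 1 + crd s f Q 2 := by
  have h1 := h 1
  have h2 := h 2
  rcases (add_nonneg h1 h2).lt_or_eq with hc | hc
  · exact hc
  · exfalso
    have e1 : crd s f Q 1 = 0 := by linarith
    have e2 : crd s f Q 2 = 0 := by linarith
    have hd := hQ.2
    cases s with
    | true =>
      have e := crd_left f Q
      rw [e1, e2, zero_smul, zero_smul, add_zero, add_zero] at e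
      rw [e] at hd
      simp [Ninf] at hd
    | false =>
      have e := crd_right f Q
      rw [e1, e2, zero_smul, zero_smul, add_zero, add_zero] at e
      rw [e] at hd
      simp [Ninf] at hd

/-- crossing the bottom. -/
theorem X5c_step0 {x : ℝ} {g : OnePoint ℝ} (h0 : 0 ≤ x) (h1 : x ≤ 1 / 2) (v v' : V) (hv : v.1 = (x, g, 0))
    (hv' : v'.1 = (1 - x, TT (SS g), 0)) : EqvGen VStep v v' := by
  have hx : |x| ≤ 1 / 2 := by rw [abs_of_nonneg h0]; exact h1
  have hw : ¬ slit (-x) (SS g) := by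
    intro hs
    have h2 : PhX (-x, SS g, 0) ∈ modularLink S4 := (PhX_link (-x) (SS g) le_rfl).2 ⟨rfl, hs⟩
    rw [PhX_S hx g, ← hv] at h2
    exact PhX_mem v h2
  let w : V := ⟨(-x, SS g, 0), le_rfl, fun _ => hw⟩
  have s1 : VStep v w := VStep.S v w (by rw [hv]; exact hx) (by rw [hv]) rfl (by rw [hv]) (by rw [hv])
  have s2 : VStep w v' := VStep.T w v' (by rw [hv']; change 1 - x = -x + 1; ring) (by rw [hv']) (by rw [hv'])
  exact (EqvGen.rel _ _ s1).trans _ _ _ (EqvGen.rel _ _ s2)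

theorem X5c_step2 {g : OnePoint ℝ} {h : ℝ} (v v' : V) (hv : v.1 = (0, g, h))
    (hv' : v'.1 = (1, TT g, h)) : EqvGen VStep v v' :=
  EqvGen.rel _ _ (VStep.T v v' (by rw [hv, hv']; simp) (by rw [hv, hv']) (by rw [hv, hv']))

theorem X5c_mob0 (f : OnePoint ℝ) (γ : SL(2, ℤ)) :
    mob (iR (γ * Rz⁻¹)⁻¹) f = TT (SS (mob (iR γ⁻¹) f)) := by
  rw [_root_.mul_inv_rev, inv_inv, map_mul, mob_mul, mob_Rz]

theorem X5c_mob2 (f : OnePoint ℝ) (γ : SL(2, ℤ)) :
    mob (iR (γ * Tz⁻¹)⁻¹) f = TT (mob (iR γ⁻¹) f) := by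
  rw [_root_.mul_inv_rev, inv_inv, map_mul, mob_mul, mob_Tz]

theorem X5c_eqL {f : OnePoint ℝ} {γ : SL(2, ℤ)} {a : Fin 3} {μ : Fin 3 → ℝ} (hc : 0 < μ 1 + μ 2)
    (hμ : ∀ a, 0 ≤ μ a) (h0 : μ a = 0) (v v' : V)
    (hv : v.1 = vpt true (mob (iR γ⁻¹) f) μ) (hv' : v'.1 = vpt (nbX (γ, true) a).2 (mob (iR (nbX (γ, true) a).1⁻¹) f) μ) :
    EqvGen VStep v v' := by
  have m0 := hμ 0
  have m1 := hμ 1
  have m2 := hμ 2
  fin_cases a
  · change μ 0 = 0 at h0
    change v'.1 = vpt false (mob (iR (γ * Rz⁻¹)⁻¹) f) μ at hv'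
    rw [X5c_mob0] at hv'
    refine X5c_step0 (x := μ 2 / (2 * (μ 1 + μ 2))) (g := mob (iR γ⁻¹) f) (by positivity) ?_ v v' ?_ ?_
    · rw [div_le_iff₀ (by positivity)]; linarith
    · rw [hv]; unfold vpt; simp [h0]
    · rw [hv']; unfold vpt; simp [h0]
  · change μ 1 = 0 at h0
    change v'.1 = vpt false (mob (iR γ⁻¹) f) μ at hv'
    have e : v = v' := by
      apply Subtype.ext
      rw [hv, hv']
      unfold vpt
      rw [h0, zero_add] at hc ⊢
      have : μ 2 / (2 * μ 2) = 1 / 2 := by field_simp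
      simp only [if_true, Bool.false_eq_true, if_false, this]
      norm_num
    rw [e]
    exact EqvGen.refl _
  · change μ 2 = 0 at h0
    change v'.1 = vpt false (mob (iR (γ * Tz⁻¹)⁻¹) f) μ at hv'
    rw [X5c_mob2] at hv'
    refine X5c_step2 (g := mob (iR γ⁻¹) f) (h := μ 0 / (μ 1 + μ 2)) v v' ?_ ?_
    · rw [hv]; unfold vpt; simp [h0]
    · rw [hv']; unfold vpt; simp [h0]

theorem X5c_nb_snd (p : SL(2, ℤ) × Bool) (a : Fin 3) : (nbX p a).2 = !p.2 := by
  obtain ⟨γ, s⟩ := p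
  fin_cases a <;> cases s <;> rfl

/-- one step of the chain of flags. -/
theorem XStep_eqv {f : OnePoint ℝ} {Q : Fm} (hQ : Q ∈ PosF) (hl : pt Q f ∉ modularLink S4) {p q : SL(2, ℤ) × Bool}
    (hp : ∀ a, 0 ≤ crg f p Q a) (h : XStep f Q p q) (v v' : V)
    (hv : v.1 = vpt p.2 (mob (iR p.1⁻¹) f) (crg f p Q)) (hv' : v'.1 = vpt q.2 (mob (iR q.1⁻¹) f) (crg f q Q)) :
    EqvGen VStep v v' := by
  have _ := hl
  rcases h with h | ⟨a, ha, hq⟩
  · subst h
    have e : v = v' := by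
      apply Subtype.ext
      rw [hv, hv']
      simp only
      rw [crg_neg, X5c_neg_inv, X5c_iR_neg, mob_neg]
    rw [e]
    exact EqvGen.refl _
  · have hs := crg_share f p a Q ha
    have hc : 0 < crg f p Q 1 + crg f p Q 2 := X5c_c_pos (fa_mem _ hQ) hp
    subst hq
    rw [hs] at hv'
    obtain ⟨γ, s⟩ := p
    cases s with
    | true => exact X5c_eqL hc hp ha v v' hv hv'
    | false =>
      have hs2 := X5c_nb_snd (γ, false) a
      have hb0 := nbX_nbX (γ, false) a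
      rcases hn : nbX (γ, false) a with ⟨δ, t⟩
      rw [hn] at hs2 hb0 hv'
      have ht : t = true := hs2
      subst ht
      refine (X5c_eqL (f := f) (γ := δ) (a := a) hc hp ha v' v hv' ?_).symm
      rw [hb0]
      exact hv

/-! ### Translation to the fundamental interval -/

theorem X5c_trans (n : ℕ) (p q : V) (hx : q.1.1 = p.1.1 + n) (hf : q.1.2.1 = TTn n p.1.2.1) (hh : q.1.2.2 = p.1.2.2) :
    EqvGen VStep p q := by
  induction n generalizing q with
  | zero =>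
    have e : p = q := by
      apply Subtype.ext
      apply Prod.ext
      · rw [hx]; simp
      · apply Prod.ext
        · rw [hf]; exact (TTn_zero _).symm
        · exact hh.symm
    rw [e]
    exact EqvGen.refl _
  | succ n ih =>
    let r : V := ⟨(p.1.1 + n, TTn n p.1.2.1, p.1.2.2), p.2.1, fun h => by
      have := (slit_TTn n p.1.1 p.1.2.1)
      have h2 := p.2.2 h
      intro h3
      apply h2
      apply this.1
      exact_mod_cast h3⟩
    have h1 : EqvGen VStep p r := ih r rfl rfl rfl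
    have h2 : VStep r q := VStep.T r q (by rw [hx]; change _ = p.1.1 + n + 1; push_cast; ring)
      (by
        rw [hf]
        change _ = TT (TTn n p.1.2.1)
        rw [← TTn_one, TTn_add]
        congr 1
        push_cast
        ring) (by rw [hh])
    exact h1.trans _ _ _ (EqvGen.rel _ _ h2)

theorem X5c_reduce (p : V) : ∃ p' : V, EqvGen VStep p p' ∧ 0 ≤ p'.1.1 ∧ p'.1.1 ≤ 1 ∧ PhX p'.1 = PhX p.1 := by
  let p' : V := ⟨(p.1.1 + ((-⌊p.1.1⌋ : ℤ) : ℝ), TTn (-⌊p.1.1⌋) p.1.2.1, p.1.2.2), p.2.1, fun h h3 =>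
    p.2.2 h ((slit_TTn (-⌊p.1.1⌋) p.1.1 p.1.2.1).1 h3)⟩
  refine ⟨p', ?_, ?_, ?_, ?_⟩
  · rcases le_total 0 (-⌊p.1.1⌋) with h | h
    · obtain ⟨n, hn⟩ := Int.eq_ofNat_of_zero_le h
      refine X5c_trans n p p' ?_ ?_ rfl
      · change p.1.1 + ((-⌊p.1.1⌋ : ℤ) : ℝ) = _
        rw [hn]; simp
      · change TTn (-⌊p.1.1⌋) p.1.2.1 = _
        rw [hn]
    · have h' : 0 ≤ ⌊p.1.1⌋ := by omega
      obtain ⟨n, hn⟩ := Int.eq_ofNat_of_zero_le h'
      refine (X5c_trans n p' p ?_ ?_ rfl).symm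
      · change p.1.1 = p.1.1 + ((-⌊p.1.1⌋ : ℤ) : ℝ) + n
        rw [hn]; simp
      · change p.1.2.1 = TTn n (TTn (-⌊p.1.1⌋) p.1.2.1)
        rw [TTn_add, hn]
        have : (n : ℤ) + -((n : ℕ) : ℤ) = 0 := by omega
        exact (by rw [show ((n : ℤ) + -(Int.ofNat n)) = 0 from this, TTn_zero] : p.1.2.1 = TTn ((n : ℤ) + -(Int.ofNat n)) p.1.2.1)
  · change 0 ≤ p.1.1 + ((-⌊p.1.1⌋ : ℤ) : ℝ)
    have := Int.floor_le p.1.1
    push_cast
    linarith
  · change p.1.1 + ((-⌊p.1.1⌋ : ℤ) : ℝ) ≤ 1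
    have := Int.lt_floor_add_one p.1.1
    push_cast
    linarith
  · exact PhX_Tn (-⌊p.1.1⌋) p.1.1 p.1.2.1 p.2.1

/-! ### The chain -/

theorem X5c_mk {f : OnePoint ℝ} {Q : Fm} (hQ : Q ∈ PosF) (hl : pt Q f ∉ modularLink S4) (p : SL(2, ℤ) × Bool)
    (hp : ∀ a, 0 ≤ crg f p Q a) : ∃ v : V, v.1 = vpt p.2 (mob (iR p.1⁻¹) f) (crg f p Q) := by
  obtain ⟨_, _, h3, h4⟩ := vpt_spec (s := p.2) (f := mob (iR p.1⁻¹) f) (Q := fa (iR p.1⁻¹) Q) (fa_mem _ hQ) hp
  rw [pt_act _ hQ f] at h4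
  refine ⟨⟨vpt p.2 (mob (iR p.1⁻¹) f) (crg f p Q), h3, fun h5 h6 => ?_⟩, rfl⟩
  apply hl
  rw [h4]
  exact (PhX_link _ _ h3).2 ⟨h5, h6⟩

theorem X5c_step_crg {f : OnePoint ℝ} {Q : Fm} {p q : SL(2, ℤ) × Bool} (h : XStep f Q p q) :
    crg f q Q = crg f p Q := by
  rcases h with h | ⟨a, ha, hq⟩
  · subst h
    exact crg_neg f p.1 p.2 Q
  · subst hq
    exact crg_share f p a Q ha

theorem X5c_chain {f : OnePoint ℝ} {Q : Fm} (hQ : Q ∈ PosF) (hl : pt Q f ∉ modularLink S4) {p q : SL(2, ℤ) × Bool}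
    (hp : ∀ a, 0 ≤ crg f p Q a) (h : ReflTransGen (XStep f Q) p q) :
    (∀ a, 0 ≤ crg f q Q a) ∧ ∀ v v' : V, v.1 = vpt p.2 (mob (iR p.1⁻¹) f) (crg f p Q) →
      v'.1 = vpt q.2 (mob (iR q.1⁻¹) f) (crg f q Q) → EqvGen VStep v v' := by
  induction h with
  | refl =>
    refine ⟨hp, fun v v' hv hv' => ?_⟩
    have e : v = v' := Subtype.ext (hv.trans hv'.symm)
    rw [e]
    exact EqvGen.refl _
  | @tail b c _ hs ih =>
    obtain ⟨ih1, ih2⟩ := ih
    refine ⟨fun a => by rw [X5c_step_crg hs]; exact ih1 a, fun v v' hv hv' => ?_⟩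
    obtain ⟨w, hw⟩ := X5c_mk hQ hl b ih1
    exact (ih2 v w hv hw).trans _ _ _ (XStep_eqv hQ hl ih1 hs w v' hw hv')

/-- coordinates of the points of the fundamental interval. -/
theorem X5c_coord {x : ℝ} (h0 : 0 ≤ x) (h1 : x ≤ 1) (f : OnePoint ℝ) {h : ℝ} (hh : 0 ≤ h) :
    ∃ s : Bool, (∀ a, 0 ≤ crd s f (b0 x f + h • Ninf) a) ∧ ∀ c : ℝ, 0 < c →
      vpt s f (c • crd s f (b0 x f + h • Ninf)) = (x, f, h) := by
  by_cases hx : x ≤ 1 / 2
  · have e : crd true f (b0 x f + h • Ninf) = ![h, 1 - 2 * x, 2 * x] := by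
      have := crd_comb_left f ![h, 1 - 2 * x, 2 * x]
      have e2 : b0 x f + h • Ninf = (![h, 1 - 2 * x, 2 * x] : Fin 3 → ℝ) 0 • Ninf + (![h, 1 - 2 * x, 2 * x] : Fin 3 → ℝ) 1 • T0v f +
          (![h, 1 - 2 * x, 2 * x] : Fin 3 → ℝ) 2 • wF f := by
        unfold b0
        rw [if_pos hx]
        simp only [Matrix.cons_val_zero, Matrix.cons_val_one, Matrix.cons_val]
        abel
      rw [e2]
      exact this
    refine ⟨true, ?_, ?_⟩
    · rw [e]
      intro a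
      fin_cases a
      · exact hh
      · change 0 ≤ 1 - 2 * x; linarith
      · change 0 ≤ 2 * x; linarith
    · intro c hc
      rw [e]
      unfold vpt
      have e1 : (c • (![h, 1 - 2 * x, 2 * x] : Fin 3 → ℝ)) 0 = c * h := rfl
      have e2 : (c • (![h, 1 - 2 * x, 2 * x] : Fin 3 → ℝ)) 1 = c * (1 - 2 * x) := rfl
      have e3 : (c • (![h, 1 - 2 * x, 2 * x] : Fin 3 → ℝ)) 2 = c * (2 * x) := rfl
      rw [e1, e2, e3]
      have e4 : c * (1 - 2 * x) + c * (2 * x) = c := by ring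
      rw [e4]
      simp only [if_true]
      ext
      · simp only; field_simp
      · rfl
      · simp only; field_simp
  · have hx' : 1 / 2 < x := not_le.1 hx
    have e : crd false f (b0 x f + h • Ninf) = ![h, 2 * x - 1, 2 - 2 * x] := by
      have := crd_comb_right f ![h, 2 * x - 1, 2 - 2 * x]
      have e2 : b0 x f + h • Ninf = (![h, 2 * x - 1, 2 - 2 * x] : Fin 3 → ℝ) 0 • Ninf +
          (![h, 2 * x - 1, 2 - 2 * x] : Fin 3 → ℝ) 1 • T1v f +
          (![h, 2 * x - 1, 2 - 2 * x] : Fin 3 → ℝ) 2 • wF f := by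
        unfold b0
        rw [if_neg hx]
        simp only [Matrix.cons_val_zero, Matrix.cons_val_one, Matrix.cons_val]
        abel
      rw [e2]
      exact this
    refine ⟨false, ?_, ?_⟩
    · rw [e]
      intro a
      fin_cases a
      · exact hh
      · change 0 ≤ 2 * x - 1; linarith
      · change 0 ≤ 2 - 2 * x; linarith
    · intro c hc
      rw [e]
      unfold vpt
      have e1 : (c • (![h, 2 * x - 1, 2 - 2 * x] : Fin 3 → ℝ)) 0 = c * h := rfl
      have e2 : (c • (![h, 2 * x - 1, 2 - 2 * x] : Fin 3 → ℝ)) 1 = c * (2 * x - 1) := rfl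
      have e3 : (c • (![h, 2 * x - 1, 2 - 2 * x] : Fin 3 → ℝ)) 2 = c * (2 - 2 * x) := rfl
      rw [e1, e2, e3]
      have e4 : c * (2 * x - 1) + c * (2 - 2 * x) = c := by ring
      rw [e4]
      simp only [Bool.false_eq_true, if_false]
      ext
      · simp only; field_simp; ring
      · rfl
      · simp only; field_simp

theorem X5c_crd_smul (s : Bool) (f : OnePoint ℝ) (c : ℝ) (Q : Fm) : crd s f (c • Q) = c • crd s f Q := by
  obtain ⟨q1, q2, q3⟩ := Q
  funext i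
  cases s <;> fin_cases i <;>
    simp only [crd, if_true, Bool.false_eq_true, if_false, Prod.smul_mk, smul_eq_mul, Pi.smul_apply, Matrix.cons_val_zero, Matrix.cons_val_one,
      Matrix.cons_val, Fin.zero_eta, Fin.mk_one, Fin.reduceFinMk] <;> ring

theorem X5c_inj01 {p q : V} (hp0 : 0 ≤ p.1.1) (hp1 : p.1.1 ≤ 1) (hq0 : 0 ≤ q.1.1) (hq1 : q.1.1 ≤ 1)
    (h : PhX p.1 = PhX q.1) : EqvGen VStep p q := by
  have hlp := PhX_mem p
  obtain ⟨⟨x, f, t⟩, ht, hts⟩ := p
  obtain ⟨⟨x', f', t'⟩, ht', hts'⟩ := q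
  simp only at hp0 hp1 hq0 hq1 h ht ht' hlp
  have hQ := (b0_mem hp0 hp1 f ht).1
  have hQ' := (b0_mem hq0 hq1 f' ht').1
  have e1 := PhX_eq (n := 0) (by simpa using hp0) (by simpa using hp1) f ht
  have e2 := PhX_eq (n := 0) (by simpa using hq0) (by simpa using hq1) f' ht'
  simp only [Int.cast_zero, sub_zero, neg_zero, TTn_zero] at e1 e2
  rw [e1] at hlp
  rw [e1, e2] at h
  obtain ⟨s, hs1, hs2⟩ := X5c_coord hp0 hp1 f ht
  obtain ⟨s', hs1', hs2'⟩ := X5c_coord hq0 hq1 f' ht'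
  generalize hQd : b0 x f + t • Ninf = Q at *
  generalize hQd' : b0 x' f' + t' • Ninf = Q' at *
  obtain ⟨γ, c, hc, hg1, hg2⟩ := pt_eq hQ hQ' h
  -- coordinates of `Q` in the flag `(1, s)`
  have c1 : crg f (1, s) Q = crd s f Q := by
    unfold crg
    simp only [inv_one, map_one]
    rw [mob_one, fa_one]
  have c2 : crg f (γ⁻¹, s') Q = c⁻¹ • crd s' f' Q' := by
    unfold crg
    simp only [inv_inv]
    rw [← hg2, hg1, X5c_crd_smul, smul_smul, inv_mul_cancel₀ hc.ne', one_smul]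
  have hp : ∀ a, 0 ≤ crg f (1, s) Q a := by rw [c1]; exact hs1
  have hq : ∀ a, 0 ≤ crg f (γ⁻¹, s') Q a := by
    rw [c2]
    intro a
    exact mul_nonneg (inv_pos.2 hc).le (hs1' a)
  have hch := crg_chain f hQ (1, s) (γ⁻¹, s') hp hq
  refine (X5c_chain hQ hlp hp hch).2 _ _ ?_ ?_
  · change (x, f, t) = vpt s (mob (iR (1 : SL(2, ℤ))⁻¹) f) (crg f (1, s) Q)
    rw [c1, inv_one, map_one, mob_one]
    have := hs2 1 one_pos
    rw [one_smul] at this
    exact this.symm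
  · change (x', f', t') = vpt s' (mob (iR (γ⁻¹)⁻¹) f) (crg f (γ⁻¹, s') Q)
    rw [c2, inv_inv, ← hg2]
    exact (hs2' c⁻¹ (inv_pos.2 hc)).symm

theorem PhX_inj {p q : V} (h : PhX p.1 = PhX q.1) : EqvGen VStep p q := by
  obtain ⟨p', h1, h2, h3, h4⟩ := X5c_reduce p
  obtain ⟨q', k1, k2, k3, k4⟩ := X5c_reduce q
  have h5 : PhX p'.1 = PhX q'.1 := by rw [h4, k4, h]
  exact (h1.trans _ _ _ (X5c_inj01 h2 h3 k2 k3 h5)).trans _ _ _ k1.symm

end Pool.AML
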