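import Pool.Agent.AML.X.X4a
import Pool.Agent.AML.X.X1b

/-! [AML-X7a] Two topological facts.

`isOpenMap_pt`: for `U` open in `PosF × OnePoint ℝ`, `pt U = cl G`, `G = {g | ∃ c > 0, (c • gram g, mob g ∞) ∈ U}` open in `SL(2,ℝ)` (union over `c` of preimages of `U` under
continuous maps; `continuous_mob_infty`), using `pt_gram`, `pt_smul` and, for `(Q, f) ∈ U`, `g = secF Q (rep f)`, `Q = √(dtF Q) • gram g` (`gram_secF`), `mob g ∞ = f`. `cl` is open: the preimage of `cl G` is
`⋃_γ iR γ * G`. `continuousOn_crg`: components of `crd` are continuous in `(Q, f)` (`tau_spec`, `wv_spec`, `continuous_TTi`), `fa (iR γ⁻¹)` is continuous, `continuous_mob`. -/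

set_option linter.style.longLine false

open Matrix Topology Set Relation
open scoped MatrixGroups

namespace Pool.AML

theorem X7a_entry (i j : Fin 2) : Continuous (fun g : SL(2, ℝ) => g.1 i j) :=
  Continuous.matrix_elem continuous_subtype_val i j

theorem X7a_gram : Continuous gram := by
  have h := X7a_entry
  unfold gram
  have h00 := h 0 0
  have h01 := h 0 1
  have h10 := h 1 0
  have h11 := h 1 1
  refine Continuous.prodMk ?_ (Continuous.prodMk ?_ ?_)
  · exact (h00.pow 2).add (h01.pow 2)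
  · exact (h00.mul h10).add (h01.mul h11)
  · exact (h10.pow 2).add (h11.pow 2)

theorem X7a_fa (g : SL(2, ℝ)) : Continuous (fa g) := by
  unfold fa
  fun_prop

theorem X7a_clc : IsQuotientMap cl := isQuotientMap_quotient_mk'


theorem X7a_smul {Q : Fm} (hQ : Q ∈ PosF) {c : ℝ} (hc : 0 < c) : c • Q ∈ PosF := by
  obtain ⟨h1, h2⟩ := hQ
  refine ⟨?_, ?_⟩
  · show 0 < c * Q.1
    exact mul_pos hc h1
  · show 0 < c * Q.1 * (c * Q.2.2) - (c * Q.2.1) ^ 2
    have : c * Q.1 * (c * Q.2.2) - (c * Q.2.1) ^ 2 = c ^ 2 * (Q.1 * Q.2.2 - Q.2.1 ^ 2) := by ring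
    rw [this]
    positivity

theorem X7a_mem {c : ℝ} (hc : 0 < c) (γ : SL(2, ℤ)) (g : SL(2, ℝ)) : c • fa (iR γ) (gram g) ∈ PosF :=
  X7a_smul (fa_mem _ (gram_mem g)) hc

theorem X7a_crd (s : Bool) : Continuous (fun z : Fm × OnePoint ℝ => crd s z.2 z.1) := by
  obtain ⟨ht, htp, -, -⟩ := tau_spec
  obtain ⟨hw, hwp, -, -⟩ := wv_spec
  have hT : Continuous TTi := continuous_TTi
  have c1 : Continuous (fun z : Fm × OnePoint ℝ => tau z.2) := ht.comp continuous_snd
  have c2 : Continuous (fun z : Fm × OnePoint ℝ => tau (TTi z.2)) := ht.comp (hT.comp continuous_snd)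
  have c3 : Continuous (fun z : Fm × OnePoint ℝ => (wv z.2).1) := continuous_fst.comp (hw.comp continuous_snd)
  have c4 : Continuous (fun z : Fm × OnePoint ℝ => (wv z.2).2.1) :=
    continuous_fst.comp (continuous_snd.comp (hw.comp continuous_snd))
  have c5 : Continuous (fun z : Fm × OnePoint ℝ => (wv z.2).2.2) :=
    continuous_snd.comp (continuous_snd.comp (hw.comp continuous_snd))
  have d1 : Continuous (fun z : Fm × OnePoint ℝ => z.1.1) := by fun_prop
  have d2 : Continuous (fun z : Fm × OnePoint ℝ => z.1.2.1) := by fun_prop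
  have d3 : Continuous (fun z : Fm × OnePoint ℝ => z.1.2.2) := by fun_prop
  have e1 : Continuous (fun z : Fm × OnePoint ℝ => z.1.2.1 / (wv z.2).2.2) :=
    d2.div c5 (fun z => (hwp z.2).2.2.ne')
  have e2 : Continuous (fun z : Fm × OnePoint ℝ => (z.1.2.2 - z.1.2.1) / (wv z.2).2.1) :=
    (d3.sub d2).div c4 (fun z => (hwp z.2).2.1.ne')
  cases s
  · unfold crd
    simp only [Bool.false_eq_true, if_false]
    refine continuous_pi fun i => ?_
    fin_cases i
    · exact ((d1.sub d2).sub (c2.mul (c2.mul (d2.sub (c5.mul e2))))).sub (c3.mul e2)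
    · exact c2.mul (d2.sub (c5.mul e2))
    · exact e2
  · unfold crd
    simp only [if_true]
    refine continuous_pi fun i => ?_
    fin_cases i
    · exact ((d1.sub d2).sub (c1.mul (c1.mul ((d3.sub d2).sub (c4.mul e1))))).sub (c3.mul e1)
    · exact c1.mul ((d3.sub d2).sub (c4.mul e1))
    · exact e1

theorem isOpenMap_pt : IsOpenMap (fun p : PosF × OnePoint ℝ => pt p.1.1 p.2) := by
  intro U hU
  rw [← X7a_clc.isOpen_preimage]
  have hset : cl ⁻¹' ((fun p : PosF × OnePoint ℝ => pt p.1.1 p.2) '' U) =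
      ⋃ (γ : SL(2, ℤ)), ⋃ (c : {c : ℝ // 0 < c}),
        (fun g : SL(2, ℝ) => ((⟨c.1 • fa (iR γ) (gram g), X7a_mem c.2 γ g⟩ : PosF), mob (iR γ) (mob g OnePoint.infty))) ⁻¹' U := by
    ext g
    simp only [mem_preimage, mem_image, mem_iUnion]
    constructor
    · rintro ⟨⟨⟨Q, hQ⟩, f⟩, hU', he⟩
      have he' : pt (gram g) (mob g OnePoint.infty) = pt Q f := by
        rw [pt_gram]; exact he.symm
      obtain ⟨γ, c, hc, h1, h2⟩ := pt_eq (gram_mem g) hQ he'
      refine ⟨γ, ⟨c, hc⟩, ?_⟩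
      have : ((⟨c • fa (iR γ) (gram g), X7a_mem hc γ g⟩ : PosF), mob (iR γ) (mob g OnePoint.infty)) = ((⟨Q, hQ⟩ : PosF), f) := by
        refine Prod.ext (Subtype.ext ?_) ?_
        · exact h1.symm
        · exact h2.symm
      rw [this]; exact hU'
    · rintro ⟨γ, c, h⟩
      refine ⟨_, h, ?_⟩
      show pt (c.1 • fa (iR γ) (gram g)) (mob (iR γ) (mob g OnePoint.infty)) = cl g
      rw [pt_smul (fa_mem _ (gram_mem g)) _ c.2, pt_act γ (gram_mem g), pt_gram]
  rw [hset]
  refine isOpen_iUnion fun γ => isOpen_iUnion fun c => ?_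
  refine hU.preimage ?_
  refine Continuous.prodMk ?_ ?_
  · refine Continuous.subtype_mk ?_ _
    exact ((X7a_fa _).comp X7a_gram).const_smul c.1
  · exact (continuous_mob _).comp continuous_mob_infty


theorem continuousOn_crg (p : SL(2, ℤ) × Bool) : Continuous (fun z : Fm × OnePoint ℝ => crg z.2 p z.1) := by
  have h := X7a_crd p.2
  have h2 : Continuous (fun z : Fm × OnePoint ℝ => (fa (iR p.1⁻¹) z.1, mob (iR p.1⁻¹) z.2)) :=
    ((X7a_fa _).comp continuous_fst).prodMk ((continuous_mob _).comp continuous_snd)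
  exact h.comp h2


end Pool.AML
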