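import Pool.Agent.AML.X.X5c
import Pool.Agent.AML.X.X7a

/-! [AML-X7] The chart is a quotient map onto the complement of the link, and conclusion of block X.

Let `D ⊆ {z // z ∉ link}` have closed preimage `C = {p ∈ V | PhX p ∈ D}` in `V`. To show: `D` is closed. Since `pt : PosF × circle → T1M` is a quotient map and the complement of
the link pulled back to `O = {(Q, f) | pt Q f ∉ link}` — restrict: it suffices that `{(Q, f) ∈ O | pt Q f ∈ D}` is closed in `O` (`IsQuotientMap.restrictPreimage_isOpen` needs `O` open;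
the link is closed: prove it here, or restrict as follows: `pt` is moreover an OPEN map: `pt (gram g) (mob g ∞) = cl g`, `cl` is open; use
`isOpenMap_pt` below, and restriction of an open surjective map to the preimage of any subset is open, hence a quotient map).
`{(Q, f) ∈ O | pt Q f ∈ D} = ⋃_{(γ, s)} F_{γ,s}`, `F_{γ,s} = {(Q, f) ∈ O | crg f (γ, s) Q ≥ 0, vpt s (γ⁻¹f) (crg f (γ,s) Q) ∈ C}` (`crg_cover`, `vpt_spec`, `pt_act`). Each `F_{γ,s}` is closed in `O`: the set
`{crg ≥ 0}` is closed (`crg` is continuous in `(Q, f)`, because `tau, wv, TTi, mob` are continuous) and on it `(Q, f) ↦ vpt` is a continuous map to `V`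
(`μ1 + μ2 > 0`). The family is locally finite (`tri_locallyFinite`, `crd_tri`). So the union is closed.
`partX`: `PhX : V → {z // z ∉ link}` is a continuous surjective quotient map with fibres the classes of `EqvGen VStep` (`PhX_step`, `PhX_inj`): homeomorphism with `Quot VStep`. -/

set_option linter.style.longLine false

open Matrix Topology Set Relation
open scoped MatrixGroups

namespace Pool.AML

/-- the complement of the link. -/
abbrev X7_T : Set T1M := {z | z ∉ modularLink S4}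

/-- pairs whose unit tangent vector is not on the link. -/
abbrev X7_O : Set (PosF × OnePoint ℝ) := (fun p : PosF × OnePoint ℝ => pt p.1.1 p.2) ⁻¹' X7_T

/-- the restricted map `pt`. -/
noncomputable def X7_pi : X7_O → X7_T := X7_T.restrictPreimage (fun p : PosF × OnePoint ℝ => pt p.1.1 p.2)

theorem X7_pi_quot : IsQuotientMap X7_pi := by
  refine IsOpenQuotientMap.isQuotientMap ?_
  refine ⟨?_, ?_, ?_⟩
  · rintro ⟨z, hz⟩
    obtain ⟨Q, hQ, f, h⟩ := pt_surj z
    refine ⟨⟨(⟨Q, hQ⟩, f), ?_⟩, ?_⟩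
    · show pt Q f ∉ modularLink S4
      rw [h]; exact hz
    · exact Subtype.ext h
  · exact continuous_pt.restrictPreimage
  · exact isOpenMap_pt.restrictPreimage _

/-- the flag `p` contains the form. -/
def X7_K (p : SL(2, ℤ) × Bool) : Set X7_O := {o | ∀ a, 0 ≤ crg o.1.2 p o.1.1.1 a}

theorem X7_crg_cont (p : SL(2, ℤ) × Bool) : Continuous (fun o : X7_O => crg o.1.2 p o.1.1.1) := by
  have h := continuousOn_crg p
  have h1 : Continuous (fun o : X7_O => o.1.1.1) :=
    continuous_subtype_val.comp (continuous_fst.comp continuous_subtype_val)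
  have h2 : Continuous (fun o : X7_O => o.1.2) := continuous_snd.comp continuous_subtype_val
  have h3 : Continuous (fun o : X7_O => ((o.1.1.1, o.1.2) : Fm × OnePoint ℝ)) := h1.prodMk h2
  have h4 := h.comp h3
  have h5 : ((fun z : Fm × OnePoint ℝ => crg z.2 p z.1) ∘ (fun o : X7_O => ((o.1.1.1, o.1.2) : Fm × OnePoint ℝ))) =
      (fun o : X7_O => crg o.1.2 p o.1.1.1) := by
    funext o
    rw [Function.comp_apply]
  rw [← h5]
  exact h4

theorem X7_K_closed (p : SL(2, ℤ) × Bool) : IsClosed (X7_K p) := by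
  have : X7_K p = ⋂ a, {o : X7_O | 0 ≤ crg o.1.2 p o.1.1.1 a} := by
    ext o
    rw [mem_iInter]
    exact Iff.rfl
  rw [this]
  exact isClosed_iInter fun a => isClosed_le continuous_const ((continuous_apply a).comp (X7_crg_cont p))

theorem X7_vpt (p : SL(2, ℤ) × Bool) (o : X7_O) (ho : o ∈ X7_K p) :
    0 ≤ (vpt p.2 (mob (iR p.1⁻¹) o.1.2) (crg o.1.2 p o.1.1.1)).2.2 ∧
    PhX (vpt p.2 (mob (iR p.1⁻¹) o.1.2) (crg o.1.2 p o.1.1.1)) = pt o.1.1.1 o.1.2 := by
  have h := vpt_spec (fa_mem (iR p.1⁻¹) o.1.1.2) ho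
  refine ⟨h.2.2.1, ?_⟩
  have h2 := h.2.2.2
  rw [pt_act p.1⁻¹ o.1.1.2] at h2
  exact h2.symm

/-- the point of `V` in the flag. -/
noncomputable def X7_m (p : SL(2, ℤ) × Bool) (o : X7_K p) : V :=
  ⟨vpt p.2 (mob (iR p.1⁻¹) o.1.1.2) (crg o.1.1.2 p o.1.1.1.1), (X7_vpt p o.1 o.2).1, fun h0 hs => by
    have h1 := (X7_vpt p o.1 o.2).2
    have h2 := (PhX_link (vpt p.2 (mob (iR p.1⁻¹) o.1.1.2) (crg o.1.1.2 p o.1.1.1.1)).1
      (vpt p.2 (mob (iR p.1⁻¹) o.1.1.2) (crg o.1.1.2 p o.1.1.1.1)).2.1 (X7_vpt p o.1 o.2).1).2 ⟨h0, hs⟩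
    exact o.1.2 (by
      show pt o.1.1.1.1 o.1.1.2 ∈ modularLink S4
      rw [← h1]; exact h2)⟩

theorem X7_m_phi (p : SL(2, ℤ) × Bool) (o : X7_K p) : PhX (X7_m p o).1 = (X7_pi o.1).1 :=
  (X7_vpt p o.1 o.2).2

theorem X7_pos (p : SL(2, ℤ) × Bool) (o : X7_K p) :
    0 < crg o.1.1.2 p o.1.1.1.1 1 + crg o.1.1.2 p o.1.1.1.1 2 := by
  have ho : ∀ a, 0 ≤ crg o.1.1.2 p o.1.1.1.1 a := o.2
  rcases (add_nonneg (ho 1) (ho 2)).lt_or_eq with h | h
  · exact h
  exfalso
  have h1 : crg o.1.1.2 p o.1.1.1.1 1 = 0 := by linarith [ho 1, ho 2]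
  have h2 : crg o.1.1.2 p o.1.1.1.1 2 = 0 := by linarith [ho 1, ho 2]
  obtain ⟨γ, s⟩ := p
  have hm := (fa_mem (iR γ⁻¹) o.1.1.1.2).2
  set Q := fa (iR γ⁻¹) o.1.1.1.1 with hQ
  have hQ2 : Q = crg o.1.1.2 (γ, s) o.1.1.1.1 0 • Ninf := by
    cases s
    · have := crd_right (mob (iR γ⁻¹) o.1.1.2) Q
      have e1 : crd false (mob (iR γ⁻¹) o.1.1.2) Q 1 = 0 := h1
      have e2 : crd false (mob (iR γ⁻¹) o.1.1.2) Q 2 = 0 := h2
      rw [e1, e2, zero_smul, zero_smul, add_zero, add_zero] at this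
      exact this
    · have := crd_left (mob (iR γ⁻¹) o.1.1.2) Q
      have e1 : crd true (mob (iR γ⁻¹) o.1.1.2) Q 1 = 0 := h1
      have e2 : crd true (mob (iR γ⁻¹) o.1.1.2) Q 2 = 0 := h2
      rw [e1, e2, zero_smul, zero_smul, add_zero, add_zero] at this
      exact this
  rw [hQ2] at hm
  simp [Ninf] at hm

theorem X7_m_cont (p : SL(2, ℤ) × Bool) : Continuous (X7_m p) := by
  unfold X7_m
  refine Continuous.subtype_mk ?_ _
  have hc : ∀ a, Continuous (fun o : X7_K p => crg o.1.1.2 p o.1.1.1.1 a) := fun a =>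
    (continuous_apply a).comp ((X7_crg_cont p).comp continuous_subtype_val)
  have hd : Continuous (fun o : X7_K p => crg o.1.1.2 p o.1.1.1.1 2 /
      (2 * (crg o.1.1.2 p o.1.1.1.1 1 + crg o.1.1.2 p o.1.1.1.1 2))) :=
    (hc 2).div (continuous_const.mul ((hc 1).add (hc 2))) (fun o => by have := X7_pos p o; positivity)
  have he : Continuous (fun o : X7_K p => crg o.1.1.2 p o.1.1.1.1 0 /
      (crg o.1.1.2 p o.1.1.1.1 1 + crg o.1.1.2 p o.1.1.1.1 2)) :=
    (hc 0).div ((hc 1).add (hc 2)) (fun o => (X7_pos p o).ne')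
  have hf : Continuous (fun o : X7_K p => mob (iR p.1⁻¹) o.1.1.2) :=
    (continuous_mob _).comp (continuous_snd.comp (continuous_subtype_val.comp continuous_subtype_val))
  obtain ⟨γ, s⟩ := p
  cases s
  · simp only [vpt, Bool.false_eq_true, if_false]
    exact (continuous_const.sub hd).prodMk (hf.prodMk he)
  · simp only [vpt, if_true]
    exact hd.prodMk (hf.prodMk he)

theorem X7_lf : LocallyFinite X7_K := by
  intro o
  obtain ⟨U, hU, hfin⟩ := tri_locallyFinite o.1.1.2
  refine ⟨(fun o : X7_O => o.1.1.1) ⁻¹' U, ?_, ?_⟩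
  · exact (continuous_subtype_val.comp (continuous_fst.comp continuous_subtype_val)).continuousAt.preimage_mem_nhds hU
  · refine (hfin.prod (Set.finite_univ (α := Bool))).subset ?_
    rintro ⟨γ, s⟩ ⟨o', h1, h2⟩
    refine ⟨⟨o'.1.1.1, h2, ?_⟩, trivial⟩
    exact crd_tri h1

theorem X7_phi_cont : Continuous (fun p : V => (⟨PhX p.1, PhX_mem p⟩ : X7_T)) :=
  continuous_PhX.subtype_mk _

theorem X7_phi_quot : IsQuotientMap (fun p : V => (⟨PhX p.1, PhX_mem p⟩ : X7_T)) := by
  rw [isQuotientMap_iff_isClosed]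
  refine ⟨?_, fun D => ⟨fun hD => hD.preimage X7_phi_cont, fun hD => ?_⟩⟩
  · rintro ⟨z, hz⟩
    obtain ⟨p, hp⟩ := PhX_surj hz
    exact ⟨p, Subtype.ext hp⟩
  rw [← X7_pi_quot.isClosed_preimage]
  have hcov : X7_pi ⁻¹' D = ⋃ p, (X7_K p ∩ X7_pi ⁻¹' D) := by
    ext o
    simp only [mem_iUnion, mem_inter_iff]
    constructor
    · intro h
      obtain ⟨p, hp⟩ := crg_cover o.1.2 o.1.1.2
      exact ⟨p, hp, h⟩
    · rintro ⟨p, -, h⟩
      exact h
  rw [hcov]
  refine LocallyFinite.isClosed_iUnion (X7_lf.subset fun p => inter_subset_left) fun p => ?_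
  have h1 : (Subtype.val ⁻¹' (X7_pi ⁻¹' D) : Set (X7_K p)) =
      X7_m p ⁻¹' ((fun p : V => (⟨PhX p.1, PhX_mem p⟩ : X7_T)) ⁻¹' D) := by
    ext o
    simp only [mem_preimage]
    have : (⟨PhX (X7_m p o).1, PhX_mem (X7_m p o)⟩ : X7_T) = X7_pi o.1 := Subtype.ext (X7_m_phi p o)
    rw [this]
  have h2 : IsClosed (Subtype.val ⁻¹' (X7_pi ⁻¹' D) : Set (X7_K p)) := by
    rw [h1]; exact hD.preimage (X7_m_cont p)
  have h3 := (X7_K_closed p).isClosedEmbedding_subtypeVal.isClosedMap _ h2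
  rwa [Subtype.image_preimage_coe] at h3

theorem isQuotientMap_PhX : IsQuotientMap (fun p : V => (⟨PhX p.1, PhX_mem p⟩ : {z : T1M // z ∉ modularLink S4})) :=
  X7_phi_quot


theorem partX : Nonempty ({z : T1M // z ∉ modularLink S4} ≃ₜ Quot VStep) := by
  have hq := isQuotientMap_PhX
  set Φ : V → {z : T1M // z ∉ modularLink S4} := fun p => ⟨PhX p.1, PhX_mem p⟩ with hΦ
  let F : Quot VStep → {z : T1M // z ∉ modularLink S4} :=
    Quot.lift Φ (fun p q h => Subtype.ext (PhX_step h))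
  have hF : Continuous F := continuous_quot_lift _ hq.continuous
  have hinj : Function.Injective F := by
    intro x y
    induction x using Quot.inductionOn with | _ x => ?_
    induction y using Quot.inductionOn with | _ y => ?_
    intro h
    have h' : PhX x.1 = PhX y.1 := congrArg Subtype.val h
    exact Quot.eqvGen_sound (PhX_inj h')
  have hsurj : Function.Surjective F := by
    intro z
    obtain ⟨p, hp⟩ := hq.surjective z
    exact ⟨Quot.mk _ p, hp⟩
  let e := Equiv.ofBijective F ⟨hinj, hsurj⟩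
  have hinv : Continuous e.symm := by
    rw [hq.continuous_iff]
    have : e.symm ∘ Φ = Quot.mk VStep := by
      funext p
      show e.symm (Φ p) = Quot.mk VStep p
      rw [Equiv.symm_apply_eq]
      rfl
    rw [this]
    exact continuous_quot_mk
  exact ⟨(Homeomorph.mk e hF hinv).symm⟩


end Pool.AML
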